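import Pool.Agent.W489.Dem.Stubs

/-!
The cuspidal fibre is irreducible.
-/

set_option autoImplicit false
set_option linter.style.haveILetI false

open Polynomial

namespace Pool.Agent.W345.DX4

open W489.Dem

/-- division by `Y ^ 4 - c` -/
theorem dvd_of_vanish (c : ℂ[X]) (hc : c ≠ 0) (Q : ℂ[X][X]) (S : Set ℂ) (hS : S.Finite)
    (h : ∀ t ∉ S, ∀ Y : ℂ, Y ^ 4 = c.eval t → evalEvalRingHom t Y Q = 0) :
    (X ^ 4 - C c : ℂ[X][X]) ∣ Q := by
  have hmon : (X ^ 4 - C c : ℂ[X][X]).Monic := monic_X_pow_sub_C c (by norm_num)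
  have hdeg : (X ^ 4 - C c : ℂ[X][X]).natDegree = 4 := natDegree_X_pow_sub_C
  rw [← modByMonic_eq_zero_iff_dvd hmon]
  set r := Q %ₘ (X ^ 4 - C c : ℂ[X][X]) with hr
  have hrdeg : r.natDegree < 4 := by
    have := natDegree_modByMonic_lt Q hmon (by
      intro h1
      rw [h1] at hdeg
      simp at hdeg)
    rwa [hdeg] at this
  have hev : ∀ t ∉ S, ∀ Y : ℂ, Y ^ 4 = c.eval t → evalEvalRingHom t Y r = 0 := by
    intro t ht Y hY
    have h1 := modByMonic_add_div Q (X ^ 4 - C c : ℂ[X][X])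
    have h2 := congrArg (evalEvalRingHom t Y) h1
    rw [map_add, map_mul, h t ht Y hY] at h2
    have h3 : evalEvalRingHom t Y (X ^ 4 - C c : ℂ[X][X]) = 0 := by
      rw [map_sub, map_pow]
      simp [hY]
    rw [h3, zero_mul, add_zero] at h2
    exact h2
  have hcoeff : ∀ t ∉ S, c.eval t ≠ 0 → ∀ n, (r.coeff n).eval t = 0 := by
    intro t ht hct n
    obtain ⟨Y0, hY0⟩ := IsAlgClosed.exists_pow_nat_eq (c.eval t) (n := 4) (by norm_num)
    have hY0' : Y0 ≠ 0 := by
      rintro rfl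
      exact hct (by rw [← hY0]; norm_num)
    have h4 : r.map (evalRingHom t) = 0 := by
      refine eq_zero_of_natDegree_lt_card_of_eval_eq_zero (ι := Fin 4) (r.map (evalRingHom t))
        (f := fun k => Y0 * Complex.I ^ (k : ℕ)) ?_ ?_ ?_
      · intro a b hab
        have h5 : Complex.I ^ (a : ℕ) = Complex.I ^ (b : ℕ) := mul_left_cancel₀ hY0' hab
        have h6 : ∀ a b : Fin 4, Complex.I ^ (a : ℕ) = Complex.I ^ (b : ℕ) → a = b := by
          intro a b h
          fin_cases a <;> fin_cases b <;> first | rfl | (exfalso; revert h; norm_num [pow_succ, Complex.ext_iff])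
        exact h6 a b h5
      · intro k
        have h5 := hev t ht (Y0 * Complex.I ^ (k : ℕ)) (by
          rw [mul_pow, hY0, ← pow_mul, mul_comm (k : ℕ) 4, pow_mul, Complex.I_pow_four, one_pow,
            mul_one])
        rw [eval_map]
        have h6 : evalEvalRingHom t (Y0 * Complex.I ^ (k : ℕ)) r =
            eval₂ (evalRingHom t) (Y0 * Complex.I ^ (k : ℕ)) r := by
          have := hom_eval₂ r (RingHom.id ℂ[X]) (evalRingHom t) (C (Y0 * Complex.I ^ (k : ℕ)))
          simp only [RingHom.comp_id, coe_evalRingHom, eval_C, eval₂_id] at this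
          exact this
        rw [← h6]; exact h5
      · rw [Fintype.card_fin]
        exact lt_of_le_of_lt (natDegree_map_le) hrdeg
    have h5 := congrArg (fun p => coeff p n) h4
    simpa using h5
  ext1 n
  rw [coeff_zero]
  apply eq_zero_of_infinite_isRoot
  have hfin : (S ∪ {t | c.eval t = 0}).Finite := by
    refine hS.union ?_
    have : {t | c.eval t = 0} = (c.roots.toFinset : Set ℂ) := by
      ext t
      simp [hc]
    rw [this]
    exact Finset.finite_toSet _
  refine hfin.infinite_compl.mono ?_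
  intro t ht
  simp only [Set.mem_compl_iff, Set.mem_union, not_or] at ht
  exact hcoeff t ht.1 ht.2 n

theorem prime_P : Prime (X ^ 4 - C (1 - X ^ 4) : ℂ[X][X]) := by
  apply Irreducible.prime
  have hmon : (X ^ 4 - C (1 - X ^ 4) : ℂ[X][X]).Monic := monic_X_pow_sub_C _ (by norm_num)
  have hdeg : (X ^ 4 - C (1 - X ^ 4) : ℂ[X][X]).degree = 4 := degree_X_pow_sub_C (by norm_num) _
  have hc0 : (X ^ 4 - C (1 - X ^ 4) : ℂ[X][X]).coeff 0 = (X - C 1) * (X ^ 3 + X ^ 2 + X + 1) := by
    rw [coeff_sub, coeff_X_pow, coeff_C_zero]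
    simp only [OfNat.zero_ne_ofNat, if_false, map_one]
    ring
  have hpr : (Ideal.span {(X - C 1 : ℂ[X])}).IsPrime :=
    (Ideal.span_singleton_prime (X_sub_C_ne_zero 1)).2 (prime_X_sub_C 1)
  refine irreducible_of_eisenstein_criterion (P := Ideal.span {(X - C 1 : ℂ[X])}) hpr ?_ ?_ ?_ ?_
    hmon.isPrimitive
  · rw [hmon.leadingCoeff]
    intro h
    exact hpr.ne_top ((Ideal.eq_top_iff_one _).2 h)
  · intro n hn
    rw [hdeg] at hn
    have hn4 : n < 4 := by exact_mod_cast hn
    rcases Nat.eq_zero_or_pos n with h | h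
    · subst h
      rw [hc0]
      exact Ideal.mul_mem_right _ _ (Ideal.mem_span_singleton_self _)
    · have : (X ^ 4 - C (1 - X ^ 4) : ℂ[X][X]).coeff n = 0 := by
        rw [coeff_sub, coeff_X_pow, coeff_C, if_neg (by omega), if_neg (by omega), sub_zero]
      rw [this]
      exact Ideal.zero_mem _
  · rw [hdeg]; norm_num
  · rw [Ideal.span_singleton_pow, Ideal.mem_span_singleton, hc0, pow_two]
    intro h
    have h2 := (mul_dvd_mul_iff_left (X_sub_C_ne_zero (1 : ℂ))).1 h
    rw [dvd_iff_isRoot, IsRoot.def] at h2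
    norm_num at h2

/-- homogeneity -/
theorem eval_smul_homog {e : ℕ} (F : MvPolynomial J ℂ) (hF : F.IsHomogeneous e) (c : ℂ)
    (x : J → ℂ) : MvPolynomial.eval (c • x) F = c ^ e * MvPolynomial.eval x F := by
  rw [MvPolynomial.eval_eq', MvPolynomial.eval_eq', Finset.mul_sum]
  refine Finset.sum_congr rfl fun d hd => ?_
  have hd' := hF (MvPolynomial.mem_support_iff.1 hd)
  have h1 : ∑ i, d i = e := by
    rw [← hd', Finsupp.weight_apply, Finsupp.sum_fintype _ _ (by simp)]
    simp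
  have h2 : ∏ i, (c • x) i ^ d i = c ^ e * ∏ i, x i ^ d i := by
    rw [← h1, ← Finset.prod_pow_eq_pow_sum, ← Finset.prod_mul_distrib]
    exact Finset.prod_congr rfl fun i _ => by rw [Pi.smul_apply, smul_eq_mul, mul_pow]
  rw [h2]; ring

/-- the chart `z = 1` -/
noncomputable def ch1 : J → ℂ[X][X]
  | some (i, a) => C (C (ss i) * X ^ (a : ℕ))
  | none => X ^ 5

/-- the chart `x = 1` -/
noncomputable def ch2 : J → ℂ[X][X]
  | some (i, a) => C (C (ss i) * X ^ (5 - (a : ℕ)))
  | none => X ^ 5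

theorem ev_ch (φ : J → ℂ[X][X]) (f : MvPolynomial J ℂ) (t Y : ℂ) :
    evalEvalRingHom t Y (MvPolynomial.aeval φ f) =
      MvPolynomial.eval (fun q => evalEvalRingHom t Y (φ q)) f := by
  have h : (evalEvalRingHom t Y).comp (MvPolynomial.aeval φ : MvPolynomial J ℂ →ₐ[ℂ] ℂ[X][X]).toRingHom =
      MvPolynomial.eval (fun q => evalEvalRingHom t Y (φ q)) := by
    apply MvPolynomial.ringHom_ext
    · intro a
      change evalEvalRingHom t Y (MvPolynomial.aeval φ (MvPolynomial.C a)) = _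
      rw [MvPolynomial.aeval_C, MvPolynomial.eval_C]
      change evalEvalRingHom t Y (C (C a)) = a
      simp
    · intro i
      change evalEvalRingHom t Y (MvPolynomial.aeval φ (MvPolynomial.X i)) = _
      rw [MvPolynomial.aeval_X, MvPolynomial.eval_X]
  exact RingHom.congr_fun h f

theorem ev_ch1 (t Y : ℂ) : (fun q => evalEvalRingHom t Y (ch1 q)) = mm ss t 1 (Y ^ 5) := by
  funext q
  rcases q with _ | ⟨i, a⟩
  · simp [ch1, mm]
  · simp [ch1, mm]

theorem ev_ch2 (t Y : ℂ) : (fun q => evalEvalRingHom t Y (ch2 q)) = mm ss 1 t (Y ^ 5) := by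
  funext q
  rcases q with _ | ⟨i, a⟩
  · simp [ch2, mm]
  · simp [ch2, mm]

theorem exists_root {y w : ℂ} (h : y ^ 4 = w ^ 5) : ∃ Y : ℂ, Y ^ 4 = w ∧ Y ^ 5 = y := by
  by_cases hw : w = 0
  · subst hw
    have hy : y = 0 := by simpa using h
    exact ⟨0, by simp, by simp [hy]⟩
  · refine ⟨y / w, ?_, ?_⟩
    · rw [div_pow, h]; field_simp
    · have : (y / w) ^ 5 = (y ^ 4) * y / w ^ 5 := by rw [div_pow]; ring
      rw [this, h]; field_simp

/-- if the prime divides the polynomial of `f` then `f` vanishes on the curve -/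
theorem vanish {e : ℕ} (f : MvPolynomial J ℂ) (hf : f.IsHomogeneous e)
    (h : (X ^ 4 - C (1 - X ^ 4) : ℂ[X][X]) ∣ MvPolynomial.aeval ch1 f) :
    ∀ v ∈ ZC, MvPolynomial.eval v f = 0 := by
  have h1 : ∀ t Y : ℂ, Y ^ 4 = 1 - t ^ 4 → MvPolynomial.eval (mm ss t 1 (Y ^ 5)) f = 0 := by
    intro t Y hY
    rw [← ev_ch1, ← ev_ch]
    obtain ⟨G, hG⟩ := h
    rw [hG, map_mul]
    have : evalEvalRingHom t Y (X ^ 4 - C (1 - X ^ 4) : ℂ[X][X]) = 0 := by
      rw [map_sub, map_pow]
      simp [hY]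
    rw [this, zero_mul]
  have h2 : ∀ x z y : ℂ, z ≠ 0 → y ^ 4 = (z ^ 4 - x ^ 4) ^ 5 →
      MvPolynomial.eval (mm ss x z y) f = 0 := by
    intro x z y hz hy
    obtain ⟨Y, hY4, hY5⟩ := exists_root (y := y / z ^ 5) (w := 1 - (x / z) ^ 4) (by
      rw [div_pow, hy]
      field_simp)
    have h3 := mm_scale z ss (x / z) 1 (y / z ^ 5)
    have e1 : z * (x / z) = x := by field_simp
    have e2 : z ^ 5 * (y / z ^ 5) = y := by field_simp
    rw [e1, e2, mul_one] at h3
    rw [h3, eval_smul_homog f hf, ← hY5, h1 _ _ hY4, mul_zero]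
  have h3 : (X ^ 4 - C (X ^ 4 - 1) : ℂ[X][X]) ∣ MvPolynomial.aeval ch2 f := by
    refine dvd_of_vanish _ ?_ _ {0} (Set.finite_singleton 0) ?_
    · intro h0
      have := congrArg (eval 0) h0
      norm_num at this
    · intro t ht Y hY
      rw [Set.mem_singleton_iff] at ht
      rw [ev_ch, ev_ch2]
      refine h2 1 t (Y ^ 5) ht ?_
      have : Y ^ 4 = t ^ 4 - 1 := by simpa using hY
      rw [← pow_mul, mul_comm, pow_mul, this, one_pow]
  rintro v ⟨hv, x, z, y, hy, rfl⟩
  by_cases hz : z = 0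
  · subst hz
    have hx : x ≠ 0 := by
      rintro rfl
      apply hv
      have hy0 : y = 0 := by simpa using hy
      subst hy0
      funext q
      rcases q with _ | ⟨i, a⟩
      · simp [mm]
      · simp only [mm, Pi.zero_apply]
        by_cases ha : (a : ℕ) = 0
        · rw [ha]; simp
        · rw [zero_pow ha]; simp
    obtain ⟨Y, hY4, hY5⟩ := exists_root (y := y / x ^ 5) (w := -1) (by
      rw [div_pow, hy]
      field_simp
      ring)
    have h5 := mm_scale x ss 1 0 (y / x ^ 5)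
    have e2 : x ^ 5 * (y / x ^ 5) = y := by field_simp
    rw [e2, mul_one, mul_zero] at h5
    rw [h5, eval_smul_homog f hf, ← hY5]
    obtain ⟨G, hG⟩ := h3
    have h6 : MvPolynomial.eval (mm ss 1 0 (Y ^ 5)) f = 0 := by
      rw [← ev_ch2, ← ev_ch, hG, map_mul]
      have : evalEvalRingHom 0 Y (X ^ 4 - C (X ^ 4 - 1) : ℂ[X][X]) = 0 := by
        rw [map_sub, map_pow]
        simp [hY4]
      rw [this, zero_mul]
    rw [h6, mul_zero]
  · exact h2 x z y hz hy

theorem main : S_X4 := by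
  intro hZ
  refine ⟨hZ, ?_, ?_⟩
  · -- a point
    have hmem : mm ss 0 1 1 ∈ ZC := by
      refine ⟨?_, 0, 1, 1, by norm_num, rfl⟩
      intro h
      have := congrFun h none
      simp [mm] at this
    exact ⟨Projectivization.mk ℂ (mm ss 0 1 1) hmem.1, mm ss 0 1 1, hmem, hmem.1, rfl⟩
  · intro A B hA hB hAB
    obtain ⟨SA, hSA, hSA'⟩ := hA
    obtain ⟨SB, hSB, hSB'⟩ := hB
    by_contra hcon
    push Not at hcon
    obtain ⟨hnA, hnB⟩ := hcon
    obtain ⟨p, hp, hpA⟩ := Set.not_subset.1 hnA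
    obtain ⟨q, hq, hqB⟩ := Set.not_subset.1 hnB
    obtain ⟨v, hv, hv0, rfl⟩ := hp
    obtain ⟨w, hw, hw0, rfl⟩ := hq
    have hvA : v ∉ Cone A := fun h => hpA h.2
    have hwB : w ∉ Cone B := fun h => hqB h.2
    rw [hSA'] at hvA
    rw [hSB'] at hwB
    push Not at hvA hwB
    obtain ⟨f, hf, hfv⟩ := hvA hv0
    obtain ⟨g, hg, hgw⟩ := hwB hw0
    obtain ⟨d, hd⟩ := hSA f hf
    obtain ⟨e, he⟩ := hSB g hg
    have hfg : ∀ u ∈ ZC, MvPolynomial.eval u f = 0 ∨ MvPolynomial.eval u g = 0 := by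
      intro u hu
      rcases hAB ⟨u, hu, hu.1, rfl⟩ with h | h
      · left
        exact ((hSA' u).1 ⟨hu.1, h⟩).2 f hf
      · right
        exact ((hSB' u).1 ⟨hu.1, h⟩).2 g hg
    have hdvd : (X ^ 4 - C (1 - X ^ 4) : ℂ[X][X]) ∣
        MvPolynomial.aeval ch1 f * MvPolynomial.aeval ch1 g := by
      refine dvd_of_vanish _ ?_ _ ∅ Set.finite_empty ?_
      · intro h0
        have := congrArg (eval 0) h0
        norm_num at this
      · intro t _ Y hY
        rw [map_mul, ev_ch, ev_ch, ev_ch1]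
        have hY' : Y ^ 4 = 1 - t ^ 4 := by simpa using hY
        have hmem : mm ss t 1 (Y ^ 5) ∈ ZC := by
          refine ⟨?_, t, 1, Y ^ 5, ?_, rfl⟩
          · intro h
            have := congrFun h (some (0, 0))
            simp only [mm, Fin.val_zero, pow_zero, one_pow, mul_one, Pi.zero_apply] at this
            have h5 := ss_pow.1
            rw [this] at h5
            norm_num at h5
          · rw [← pow_mul, mul_comm, pow_mul, hY', one_pow]
        rcases hfg _ hmem with h | h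
        · rw [h, zero_mul]
        · rw [h, mul_zero]
    rcases prime_P.dvd_or_dvd hdvd with h | h
    · exact hfv (vanish f hd h v hv)
    · exact hgw (vanish g he h w hw)

end Pool.Agent.W345.DX4
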