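import Pool.Agent.W345.EGT3

set_option autoImplicit false

open Matrix MeasureTheory
open scoped Matrix.Norms.Frobenius ContDiff

namespace Pool.Agent.W345.EGT

open Pool.Agent.W544.EG

variable {N : ℕ} {G : Subgroup (unitaryGroup (Fin N) ℂ)} {m : ℕ} {p : Mat N →ₗ[ℝ] Mat N}

section measure

variable [MeasurableSpace G] [BorelSpace G] (μ : Measure G) [IsProbabilityMeasure μ]
    [μ.IsMulRightInvariant]

/-- doubling -/
theorem doubling (hp : Proj G p) (g : LeftInvMetric G m) {s : ℝ} (hs : 0 < s) :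
    μ.real (A p g (2 * s)) ≤ 5 ^ m * μ.real (A p g s) := by
  classical
  obtain ⟨J, hJ, hcov⟩ := exists_cover m s hs
  choose u hu hue using fun c : EuclideanSpace ℝ (Fin m) => th_mem hp g c
  have hsub : A p g (2 * s) ⊆ ⋃ c ∈ J, (fun x : G => x * (⟨u c, hu c⟩ : G)⁻¹) ⁻¹' (A p g s) := by
    rintro x ⟨a, ha, d, hd, hx⟩
    obtain ⟨c, hc, hac⟩ := hcov a ha
    simp only [Set.mem_iUnion]
    refine ⟨c, hc, a - c, hac, d, hd, ?_⟩
    have h1 : (((x * (⟨u c, hu c⟩ : G)⁻¹ : G) : unitaryGroup (Fin N) ℂ) : Mat N) =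
        ((x : unitaryGroup (Fin N) ℂ) : Mat N) * (((u c)⁻¹ : unitaryGroup (Fin N) ℂ) : Mat N) := rfl
    have h2 : (u c : Mat N) * (((u c)⁻¹ : unitaryGroup (Fin N) ℂ) : Mat N) = 1 := by
      have : (u c * (u c)⁻¹ : unitaryGroup (Fin N) ℂ) = 1 := by simp
      exact congrArg (fun u : unitaryGroup (Fin N) ℂ => (u : Mat N)) this
    have h3 : th p g a = th p g (a - c) * th p g c := by
      rw [← th_add hp, sub_add_cancel]
    have h4 := th_comm hp g c (comm_le hd)
    rw [h1, hx, h3]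
    calc th p g (a - c) * th p g c * (d : Mat N) * (((u c)⁻¹ : unitaryGroup (Fin N) ℂ) : Mat N)
        = th p g (a - c) * (th p g c * (d : Mat N)) * (((u c)⁻¹ : unitaryGroup (Fin N) ℂ) : Mat N) := by
          simp only [mul_assoc]
      _ = th p g (a - c) * ((d : Mat N) * th p g c) * (((u c)⁻¹ : unitaryGroup (Fin N) ℂ) : Mat N) := by
          rw [h4]
      _ = th p g (a - c) * (d : Mat N) * (th p g c * (((u c)⁻¹ : unitaryGroup (Fin N) ℂ) : Mat N)) := by
          simp only [mul_assoc]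
      _ = th p g (a - c) * (d : Mat N) := by
          rw [← hue c, h2, mul_one]
  calc μ.real (A p g (2 * s))
      ≤ μ.real (⋃ c ∈ J, (fun x : G => x * (⟨u c, hu c⟩ : G)⁻¹) ⁻¹' (A p g s)) :=
        measureReal_mono hsub (measure_ne_top _ _)
    _ ≤ ∑ c ∈ J, μ.real ((fun x : G => x * (⟨u c, hu c⟩ : G)⁻¹) ⁻¹' (A p g s)) :=
        measureReal_biUnion_finset_le _ _
    _ = ∑ c ∈ J, μ.real (A p g s) := by
        refine Finset.sum_congr rfl fun c _ => ?_
        simp only [Measure.real]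
        rw [measure_preimage_mul_right]
    _ = J.card * μ.real (A p g s) := by rw [Finset.sum_const, nsmul_eq_mul]
    _ ≤ 5 ^ m * μ.real (A p g s) := by
        gcongr
        exact_mod_cast hJ

include μ in
/-- `A(R)` is everything for large `R` -/
theorem exists_univ (hG : IsClosed (G : Set (unitaryGroup (Fin N) ℂ)))
    (hc : IsConnected (G : Set (unitaryGroup (Fin N) ℂ))) (hp : Proj G p)
    (hD : IsClosed ((⁅G, G⁆ : Subgroup (unitaryGroup (Fin N) ℂ)) : Set (unitaryGroup (Fin N) ℂ)))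
    (g : LeftInvMetric G m) : ∃ R : ℝ, 0 < R ∧ A p g R = Set.univ := by
  have hmono : Monotone fun n : ℕ => A p g n := fun a b hab => A_mono g (by exact_mod_cast hab)
  have hU : (⋃ n : ℕ, A p g n) = Set.univ := by
    rw [Set.eq_univ_iff_forall]
    intro x
    obtain ⟨n, hn⟩ := exists_A hG hc hp g x
    exact Set.mem_iUnion.2 ⟨n, hn⟩
  have hlim := tendsto_measure_iUnion_atTop (μ := μ) hmono
  rw [hU, measure_univ] at hlim
  have hev := hlim.eventually (lt_mem_nhds (show (1 / 2 : ENNReal) < 1 by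
    exact ENNReal.half_lt_self (by simp) (by simp)))
  obtain ⟨n, hn⟩ := hev.exists
  have hn' : (1 / 2 : ENNReal) < μ (A p g n) := hn
  refine ⟨2 * (n + 1 : ℝ), by positivity, ?_⟩
  rw [Set.eq_univ_iff_forall]
  intro x
  -- `A(n)` and `A(n) x` intersect
  have hmeas : MeasurableSet (A p g n) := (isCompact_A hG hD g n).measurableSet
  by_contra hx
  have hdisj : Disjoint (A p g n) ((fun y : G => y * x⁻¹) ⁻¹' (A p g n)) := by
    rw [Set.disjoint_left]
    intro y hy hy2
    apply hx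
    have h1 := A_inv hp g hy2
    have h2 := A_mul hp g h1 hy
    have h3 : (y * x⁻¹)⁻¹ * y = x := by group
    rw [h3] at h2
    exact A_mono g (by linarith) h2
  have h4 : μ (A p g n ∪ (fun y : G => y * x⁻¹) ⁻¹' (A p g n)) = μ (A p g n) + μ (A p g n) := by
    rw [measure_union' hdisj hmeas, measure_preimage_mul_right]
  have h5 : μ (A p g n ∪ (fun y : G => y * x⁻¹) ⁻¹' (A p g n)) ≤ 1 := prob_le_one
  rw [h4] at h5
  have h6 : (1 : ENNReal) < μ (A p g n) + μ (A p g n) := by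
    calc (1 : ENNReal) = 1 / 2 + 1 / 2 := (ENNReal.add_halves 1).symm
      _ < μ (A p g n) + μ (A p g n) := ENNReal.add_lt_add hn' hn'
  exact absurd h5 (not_le.2 h6)

end measure

/-- a right-invariant probability measure -/
theorem exists_measure (hG : IsClosed (G : Set (unitaryGroup (Fin N) ℂ)))
    [MeasurableSpace G] [BorelSpace G] :
    ∃ μ : Measure G, IsProbabilityMeasure μ ∧ μ.IsMulRightInvariant ∧ μ.IsOpenPosMeasure := by
  have h1 : CompactSpace (unitaryGroup (Fin N) ℂ) := Pool.LatH472.TTL_compact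
  have h2 : CompactSpace G := isCompact_iff_compactSpace.1 hG.isCompact
  let K : TopologicalSpace.PositiveCompacts G := ⊤
  let ν : Measure G := Measure.haarMeasure K
  have hν : ν Set.univ = 1 := by
    have := Measure.haarMeasure_self (K₀ := K)
    simpa [K, ν] using this
  refine ⟨ν.inv, ⟨?_⟩, inferInstance, ?_⟩
  · rw [Measure.inv_apply]
    simpa using hν
  · infer_instance

theorem S_T_of_S_TS (hTS : S_TS) : S_T := by
  intro N G hG hc p hp1 hp2 hD
  have hp : Proj G p := ⟨fun X hX => (hp1 X hX).1, fun X hX => (hp1 X hX).2, hp2⟩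
  set K := Module.finrank ℝ (Mat N) with hK
  refine ⟨16 * K * 5 ^ (3 * K), ?_⟩
  rintro m g r hr ⟨x, hx, hxr⟩
  have hmK : m ≤ K := by
    have := g.indep.fintype_card_le_finrank
    simpa using this
  letI : MeasurableSpace G := borel G
  haveI : BorelSpace G := ⟨rfl⟩
  obtain ⟨μ, hμ1, hμ2, hμ3⟩ := exists_measure (G := G) hG
  obtain ⟨R₀, hR₀, hR₀u⟩ := exists_univ μ hG hc hp hD g
  have hxA : (⟨x, hx⟩ : G) ∉ A p g r := by
    rintro ⟨a, ha, d, hd, h⟩
    exact hxr a ha d hd h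
  -- the first power of two
  have hex : ∃ k : ℕ, A p g (r * 2 ^ k) = Set.univ := by
    obtain ⟨k, hk⟩ := pow_unbounded_of_one_lt (R₀ / r) (one_lt_two)
    refine ⟨k, ?_⟩
    rw [Set.eq_univ_iff_forall]
    intro y
    have : y ∈ A p g R₀ := by rw [hR₀u]; trivial
    refine A_mono g ?_ this
    rw [div_lt_iff₀ hr] at hk
    linarith
  classical
  obtain ⟨k, hk1, hk2⟩ : ∃ k : ℕ, A p g (r * 2 ^ (k + 1)) = Set.univ ∧ A p g (r * 2 ^ k) ≠ Set.univ := by
    have hne : Nat.find hex ≠ 0 := by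
      intro h0
      have := Nat.find_spec hex
      rw [h0, pow_zero, mul_one] at this
      apply hxA
      rw [this]
      trivial
    obtain ⟨k, hk⟩ := Nat.exists_eq_succ_of_ne_zero hne
    refine ⟨k, ?_, ?_⟩
    · have := Nat.find_spec hex
      rwa [hk] at this
    · exact Nat.find_min hex (by omega)
  set R := r * 2 ^ (k + 1) with hR
  have hRr : 2 * r ≤ R := by
    rw [hR, pow_succ]
    have : (1 : ℝ) ≤ 2 ^ k := one_le_pow₀ one_le_two
    nlinarith
  have hRpos : 0 < R := by linarith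
  have hR2 : A p g (R / 2) ≠ Set.univ := by
    have : R / 2 = r * 2 ^ k := by
      rw [hR, pow_succ]
      ring
    rwa [this]
  obtain ⟨y, hy⟩ := (Set.ne_univ_iff_exists_notMem _).1 hR2
  have hd1 := doubling μ hp g (s := R / 2) (by linarith)
  have hd2 := doubling μ hp g (s := R / 4) (by linarith)
  have hd3 := doubling μ hp g (s := R / 8) (by linarith)
  rw [show 2 * (R / 2) = R by ring, hk1, probReal_univ] at hd1
  rw [show 2 * (R / 4) = R / 2 by ring] at hd2
  rw [show 2 * (R / 8) = R / 4 by ring] at hd3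
  have h5 : (0 : ℝ) < 5 ^ m := by positivity
  have hv : 1 ≤ 5 ^ (3 * m) * μ.real (A p g (R / 8)) := by
    have e : (5 : ℝ) ^ (3 * m) = 5 ^ m * (5 ^ m * 5 ^ m) := by
      rw [← pow_add, ← pow_add]
      congr 1
      ring
    rw [e]
    calc (1 : ℝ) ≤ 5 ^ m * μ.real (A p g (R / 2)) := hd1
      _ ≤ 5 ^ m * (5 ^ m * μ.real (A p g (R / 4))) := by gcongr
      _ ≤ 5 ^ m * (5 ^ m * (5 ^ m * μ.real (A p g (R / 8)))) := by gcongr
      _ = 5 ^ m * (5 ^ m * 5 ^ m) * μ.real (A p g (R / 8)) := by ring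
  set v : ℝ := (5 ^ (3 * m))⁻¹ with hvdef
  have h53 : (0 : ℝ) < 5 ^ (3 * m) := by positivity
  have hvpos : 0 < v := by positivity
  have hv1 : v ≤ μ.real (A p g (R / 8)) := by
    rw [hvdef, inv_le_iff_one_le_mul₀ h53]
    linarith
  have hmeas : MeasurableSet (A p g (R / 8)) := (isCompact_A hG hD g _).measurableSet
  have hmeas' : MeasurableSet ((fun z : G => z * y⁻¹) ⁻¹' (A p g (R / 8))) :=
    (measurable_mul_const y⁻¹) hmeas
  have hv2 : v ≤ μ.real ((fun z : G => z * y⁻¹) ⁻¹' (A p g (R / 8))) := by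
    have : μ.real ((fun z : G => z * y⁻¹) ⁻¹' (A p g (R / 8))) = μ.real (A p g (R / 8)) := by
      simp only [Measure.real]
      rw [measure_preimage_mul_right]
    rw [this]
    exact hv1
  obtain ⟨lam, hl1, hl2, hl3⟩ := hTS N m G hG hc g μ (A p g (R / 8))
    ((fun z : G => z * y⁻¹) ⁻¹' (A p g (R / 8))) hmeas hmeas' (R / 4) v (by linarith) hvpos hv1 hv2
    (by
      intro a ha b hb s hs hball
      have h1 := mem_A_of_ball hp g (a⁻¹ * b) hball
      have h2 : b * y⁻¹ ∈ A p g (R / 8) := hb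
      have h3 := A_mul hp g (A_mul hp g (A_inv hp g h2) ha) h1
      have h4 : (b * y⁻¹)⁻¹ * a * (a⁻¹ * b) = y := by group
      rw [h4] at h3
      exact hy (A_mono g (by linarith) h3))
  refine ⟨lam, hl1, ?_, hl3⟩
  have h6 : lam * R ^ 2 ≤ 64 * m * 5 ^ (3 * m) := by
    have h7 : lam * (v * (R / 4) ^ 2) * (16 * 5 ^ (3 * m)) ≤ 4 * m * (16 * 5 ^ (3 * m)) := by
      gcongr
    have h8 : lam * (v * (R / 4) ^ 2) * (16 * 5 ^ (3 * m)) = lam * R ^ 2 := by
      rw [hvdef]
      field_simp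
      ring
    rw [h8] at h7
    linarith
  have h9 : lam * r ^ 2 ≤ 16 * m * 5 ^ (3 * m) := by
    have : (2 * r) ^ 2 ≤ R ^ 2 := by gcongr
    nlinarith
  calc lam * r ^ 2 ≤ 16 * m * 5 ^ (3 * m) := h9
    _ ≤ 16 * K * 5 ^ (3 * K) := by
      have : (m : ℝ) ≤ K := by exact_mod_cast hmK
      gcongr
      norm_num

end Pool.Agent.W345.EGT
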