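import Mathlib
import Pool.Agent.W757.QR.St
import Pool.Agent.H713R5.QJ.TSURL

set_option autoImplicit false

open Topology Filter Metric Set Polynomial MeasureTheory

namespace Pool.Agent.W345.RQSURL

open Pool.Agent.W757.QR
open Pool.Agent.H713R5.QJ (surl_fun surl_swap surl_inv surl_zero surl_wt surl_period)

theorem hv_add (Q H H' : ℂ[X]) (z : ℂ) : hv Q (H + H') z = hv Q H z + hv Q H' z := by
  simp only [hv, eval_add, add_div]

theorem hd_add (Q H H' : ℂ[X]) (z : ℂ) : hd Q (H + H') z = hd Q H z + hd Q H' z := by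
  simp only [hd, eval_add, derivative_add]
  ring

theorem hv_smul (Q H : ℂ[X]) (c z : ℂ) : hv Q (c • H) z = c * hv Q H z := by
  simp only [hv, eval_smul, smul_eq_mul, mul_div_assoc]

theorem hd_smul (Q H : ℂ[X]) (c z : ℂ) : hd Q (c • H) z = c * hd Q H z := by
  simp only [hd, eval_smul, smul_eq_mul, derivative_smul]
  ring

theorem hv_zero (Q : ℂ[X]) (z : ℂ) : hv Q 0 z = 0 := by simp [hv]

theorem hd_zero (Q : ℂ[X]) (z : ℂ) : hd Q 0 z = 0 := by simp [hd]

theorem hasDerivAt_fr (P Q : ℂ[X]) (z : ℂ) (hz : Q.eval z ≠ 0) :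
    HasDerivAt (fr P Q) (d1 P Q z) z := by
  have h := (P.hasDerivAt z).div (Q.hasDerivAt z) hz
  have e : d1 P Q z = ((derivative P).eval z * Q.eval z - P.eval z * (derivative Q).eval z) /
      Q.eval z ^ 2 := by
    simp [d1, wn]
  rw [e]
  exact h

theorem surl_deriv (P Q : ℂ[X]) (Z : Finset ℂ)
    (hZ : ∀ z ∈ Z, Q.eval z ≠ 0 ∧ (wn P Q).eval z ≠ 0 ∧ fr P Q z ∈ Z) (n : ℕ) (z : ℂ)
    (hz : z ∈ Z) :
    HasDerivAt ((fr P Q)^[n]) (∏ i ∈ Finset.range n, d1 P Q ((fr P Q)^[i] z)) z := by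
  have hmem : ∀ n : ℕ, (fr P Q)^[n] z ∈ Z := by
    intro n
    induction n with
    | zero => exact hz
    | succ n ih => rw [Function.iterate_succ_apply']; exact (hZ _ ih).2.2
  induction n with
  | zero => simpa using hasDerivAt_id z
  | succ n ih =>
    rw [Function.iterate_succ', Finset.prod_range_succ, mul_comm]
    exact (hasDerivAt_fr P Q ((fr P Q)^[n] z) (hZ _ (hmem n)).1).comp z ih

/-! ### the theorem -/

/-- the linearized equations -/
noncomputable def surl_lin (P Q : ℂ[X]) (Z : Finset ℂ) (τ : Equiv.Perm Z) (N : ℕ) :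
    (ℂ[X] × (Z → ℂ)) →ₗ[ℂ] ((Z → ℂ) × (Z → ℂ)) where
  toFun p := (fun z => p.2 (τ z) - d1 P Q (z : ℂ) * p.2 z - hv Q p.1 (z : ℂ),
    fun z => ∑ i ∈ Finset.range N, (hd Q p.1 (((τ ^ i) z : Z) : ℂ) +
      d2 P Q (((τ ^ i) z : Z) : ℂ) * p.2 ((τ ^ i) z)) /
      d1 P Q (((τ ^ i) z : Z) : ℂ))
  map_add' p q := by
    refine Prod.ext ?_ ?_
    · funext z
      simp only [Prod.fst_add, Prod.snd_add, Pi.add_apply, hv_add]
      ring
    · funext z
      simp only [Prod.fst_add, Prod.snd_add, Pi.add_apply, hd_add]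
      rw [← Finset.sum_add_distrib]
      refine Finset.sum_congr rfl fun i _ => ?_
      ring
  map_smul' c p := by
    refine Prod.ext ?_ ?_
    · funext z
      simp only [Prod.smul_fst, Prod.smul_snd, Pi.smul_apply, hv_smul, smul_eq_mul,
        RingHom.id_apply]
      ring
    · funext z
      simp only [Prod.smul_fst, Prod.smul_snd, Pi.smul_apply, hd_smul, smul_eq_mul,
        RingHom.id_apply, Finset.mul_sum]
      refine Finset.sum_congr rfl fun i _ => ?_
      ring

theorem task : StSURL := by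
  intro hAF hPF hINJ d P Q Z K hRM hZ hK hZK hmul e κ hκ
  classical
  have hZ0 := hZ
  obtain ⟨hmaps0, hinj⟩ := hZ
  have hmaps : ∀ z ∈ Z, fr P Q z ∈ Z := fun z hz => (hmaps0 z hz).2.2
  have hder : ∀ z ∈ Z, d1 P Q z ≠ 0 := fun z hz =>
    div_ne_zero (hmaps0 z hz).2.1 (pow_ne_zero _ (hmaps0 z hz).1)
  set f0 : Z → Z := fun z => ⟨fr P Q (z : ℂ), hmaps z z.2⟩ with hf0
  have hf0i : Function.Injective f0 := by
    intro z z' h
    exact Subtype.ext (hinj z z.2 z' z'.2 (congrArg Subtype.val h))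
  set τ : Equiv.Perm Z := Equiv.ofBijective f0 (Finite.injective_iff_bijective.mp hf0i) with hτ
  have hτv : ∀ z : Z, ((τ z : Z) : ℂ) = fr P Q (z : ℂ) := fun z => rfl
  set N := orderOf τ with hN
  have hN0 : 0 < N := orderOf_pos τ
  have hτN : τ ^ N = 1 := pow_orderOf_eq_one τ
  have hit : ∀ (i : ℕ) (z : Z), (((τ ^ i) z : Z) : ℂ) = (fr P Q)^[i] (z : ℂ) := by
    intro i
    induction i with
    | zero => intro z; rfl
    | succ i ih =>
      intro z
      rw [pow_succ', Equiv.Perm.mul_apply, hτv, ih, Function.iterate_succ_apply']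
  have hper : ∀ z : Z, (fr P Q)^[N] (z : ℂ) = z := by
    intro z
    rw [← hit, hτN]
    rfl
  -- periods
  have hpp : ∀ z : Z, Function.IsPeriodicPt (fr P Q) N (z : ℂ) := fun z => hper z
  have hdvd : ∀ z : Z, Function.minimalPeriod (fr P Q) (z : ℂ) ∣ N := fun z =>
    (hpp z).minimalPeriod_dvd
  have hmp0 : ∀ z : Z, 0 < Function.minimalPeriod (fr P Q) (z : ℂ) := fun z =>
    (hpp z).minimalPeriod_pos hN0
  have hmpi : ∀ z : Z, Function.minimalPeriod (fr P Q) ((τ z : Z) : ℂ) =
      Function.minimalPeriod (fr P Q) (z : ℂ) := by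
    intro z
    rw [hτv]
    exact Function.minimalPeriod_apply ⟨N, hN0, hpp z⟩
  -- the right side
  set q : Z → ℕ := fun z => N / Function.minimalPeriod (fr P Q) (z : ℂ) with hq
  have hqN : ∀ z : Z, Function.minimalPeriod (fr P Q) (z : ℂ) * q z = N := fun z =>
    Nat.mul_div_cancel' (hdvd z)
  have hq0 : ∀ z : Z, (q z : ℂ) ≠ 0 := by
    intro z h
    have h1 : q z = 0 := by exact_mod_cast h
    have h2 := hqN z
    rw [h1, mul_zero] at h2
    omega
  set κt : Z → ℂ := fun z => (q z : ℂ) * κ z with hκt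
  have hκti : ∀ z, κt (τ z) = κt z := by
    intro z
    rw [hκt]
    simp only [hq]
    rw [hmpi, hτv, hκ z z.2]
  -- the linear algebra
  have hmem : ((fun z : Z => e z), κt) ∈
      Submodule.map (surl_lin P Q Z τ N) ((degreeLE ℂ ((2 * d : ℕ) : WithBot ℕ)).prod ⊤) := by
    by_contra hnot
    obtain ⟨f, hf1, hf2⟩ := Submodule.exists_le_ker_of_notMem hnot
    obtain ⟨β, α, hf⟩ := surl_fun f
    have key : ∀ (h : ℂ[X]) (u : Z → ℂ), h.natDegree ≤ 2 * d →
        ∑ z : Z, β z * (u (τ z) - d1 P Q (z : ℂ) * u z - hv Q h (z : ℂ)) +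
          ∑ z : Z, (∑ i ∈ Finset.range N, α ((τ ^ i).symm z)) *
            ((hd Q h (z : ℂ) + d2 P Q (z : ℂ) * u z) /
              d1 P Q (z : ℂ)) = 0 := by
      intro h u hh
      have h1 : surl_lin P Q Z τ N (h, u) ∈ Submodule.map (surl_lin P Q Z τ N)
          ((degreeLE ℂ ((2 * d : ℕ) : WithBot ℕ)).prod ⊤) := by
        refine Submodule.mem_map_of_mem ?_
        refine ⟨?_, trivial⟩
        change h ∈ degreeLE ℂ ((2 * d : ℕ) : WithBot ℕ)
        rw [mem_degreeLE]
        exact natDegree_le_iff_degree_le.mp hh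
      have h2 : f (surl_lin P Q Z τ N (h, u)) = 0 := hf2 h1
      have h3 := surl_swap τ N α (fun z : Z => (hd Q h (z : ℂ) +
        d2 P Q (z : ℂ) * u z) / d1 P Q (z : ℂ))
      rw [← h3]
      rw [← h2]
      exact (hf _ _).symm
    set A : Z → ℂ := fun z => ∑ i ∈ Finset.range N, α ((τ ^ i).symm z) with hA
    have hAi : ∀ z, A (τ z) = A z := fun z => surl_inv τ N hτN α z
    -- the relation for `b`
    have hrel : ∀ z : Z, β (τ.symm z) - β z * d1 P Q (z : ℂ) +
        A z * (d2 P Q (z : ℂ) / d1 P Q (z : ℂ)) = 0 := by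
      intro z
      have h1 := key 0 (Pi.single z 1) (by simp)
      simp only [hv_zero, hd_zero, sub_zero, zero_add] at h1
      have h2 : ∑ y : Z, β y * ((Pi.single z (1 : ℂ) : Z → ℂ) (τ y) -
          d1 P Q (y : ℂ) * (Pi.single z (1 : ℂ) : Z → ℂ) y) =
          β (τ.symm z) - β z * d1 P Q (z : ℂ) := by
        simp only [mul_sub, Finset.sum_sub_distrib]
        congr 1
        · rw [Finset.sum_eq_single (τ.symm z)]
          · simp
          · intro y _ hy
            rw [Pi.single_eq_of_ne (fun h => hy (by rw [← h, Equiv.symm_apply_apply])), mul_zero]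
          · intro h; exact absurd (Finset.mem_univ _) h
        · rw [Finset.sum_eq_single z]
          · simp
          · intro y _ hy
            rw [Pi.single_eq_of_ne hy, mul_zero, mul_zero]
          · intro h; exact absurd (Finset.mem_univ _) h
      have h3 : ∑ y : Z, A y * (d2 P Q (y : ℂ) *
          (Pi.single z (1 : ℂ) : Z → ℂ) y / d1 P Q (y : ℂ)) =
          A z * (d2 P Q (z : ℂ) / d1 P Q (z : ℂ)) := by
        rw [Finset.sum_eq_single z]
        · simp
        · intro y _ hy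
          rw [Pi.single_eq_of_ne hy, mul_zero, zero_div, mul_zero]
        · intro h; exact absurd (Finset.mem_univ _) h
      rw [h2, h3] at h1
      exact h1
    have hder' : ∀ z : Z, d1 P Q (z : ℂ) ≠ 0 := fun z => hder z z.2
    -- extension to `ℂ`
    set a : ℂ → ℂ := fun w => if hw : w ∈ Z then A ⟨w, hw⟩ else 0 with ha
    set b : ℂ → ℂ := fun w => if hw : w ∈ Z then -β (τ.symm ⟨w, hw⟩) else 0 with hb
    have haz : ∀ z : Z, a z = A z := fun z => by
      rw [ha]; simp only [z.2, dif_pos]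
    have hbz : ∀ z : Z, b z = -β (τ.symm z) := fun z => by
      rw [hb]; simp only [z.2, dif_pos]
    have hbτ : ∀ z : Z, b (fr P Q (z : ℂ)) = -β z := by
      intro z
      rw [← hτv, hbz, Equiv.symm_apply_apply]
    have hb2 : ∀ z : Z, b (fr P Q (z : ℂ)) = b z / d1 P Q (z : ℂ) -
        a z * d2 P Q (z : ℂ) / d1 P Q (z : ℂ) ^ 2 := by
      intro z
      rw [hbτ, hbz, haz]
      have h1 := hrel z
      have h2 := hder' z
      field_simp at h1 ⊢
      linear_combination h1
    -- the weights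
    have hc : ∀ z : Z, ∑ i ∈ Finset.range N,
        Real.log ‖d1 P Q (((τ ^ i) z : Z) : ℂ)‖ = 0 := by
      intro z
      have h1 := hmul z z.2 N hN0 (hper z)
      rw [(surl_deriv P Q Z hmaps0 N z z.2).deriv, norm_prod] at h1
      rw [← Real.log_prod (fun i _ => norm_ne_zero_iff.mpr (hder' _))]
      simp only [hit]
      rw [h1, Real.log_one]
    obtain ⟨w, hw⟩ := surl_wt τ N hN0
      (fun z : Z => Real.log ‖d1 P Q (z : ℂ)‖) hc
    set wt : ℂ → ℝ := fun y => if hy : y ∈ Z then Real.exp (w ⟨y, hy⟩) else 1 with hwt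
    have hwtz : ∀ z : Z, wt z = Real.exp (w z) := fun z => by
      rw [hwt]; simp only [z.2, dif_pos]
    have hwt2 : ∀ z ∈ Z, 0 < wt z ∧ wt (fr P Q z) = ‖d1 P Q z‖ * wt z := by
      intro z hz
      have h1 := hwtz ⟨z, hz⟩
      have h2 := hwtz (τ ⟨z, hz⟩)
      rw [hτv] at h2
      simp only at h1 h2
      rw [h1, h2, hw, Real.exp_add, Real.exp_log (norm_pos_iff.mpr (hder' ⟨z, hz⟩))]
      exact ⟨Real.exp_pos _, mul_comm _ _⟩
    -- duality and injectivity
    have hab := hINJ hAF d P Q Z K a b wt hRM hZ0 hK hZK hwt2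
      (hPF d P Q Z a b hRM hZ0
        (fun z hz => by
          have h1 := haz (τ ⟨z, hz⟩)
          rw [hτv] at h1
          simp only at h1
          rw [h1, hAi, ← haz])
        (fun z hz => hb2 ⟨z, hz⟩)
        (fun h hh => by
          rw [← Finset.sum_coe_sort]
          have h1 := key h 0 hh
          simp only [Pi.zero_apply, mul_zero, sub_zero, zero_sub, add_zero] at h1
          rw [← Finset.sum_add_distrib] at h1
          rw [← h1]
          refine Finset.sum_congr rfl fun z _ => ?_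
          have h2 := hb2 z
          rw [hbτ] at h2
          have h3 : β z = -(b z / d1 P Q (z : ℂ) -
            a z * d2 P Q (z : ℂ) / d1 P Q (z : ℂ) ^ 2) := by
            rw [← h2, neg_neg]
          rw [h3]
          change _ = _ + A z * _
          rw [← haz]
          have h4 := hder' z
          field_simp
          ring))
    have hA0 : ∀ z : Z, A z = 0 := fun z => by rw [← haz]; exact (hab z z.2).1
    have hβ0 : ∀ z : Z, β z = 0 := by
      intro z
      have h1 := (hab (fr P Q (z : ℂ)) (hmaps z z.2)).2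
      rw [hbτ] at h1
      exact neg_eq_zero.mp h1
    apply hf1
    rw [hf]
    simp only [hβ0, zero_mul, Finset.sum_const_zero, zero_add]
    exact surl_zero τ N hN0 α κt hκti hA0
  rw [Submodule.mem_map] at hmem
  obtain ⟨⟨h, u⟩, hhu, heq⟩ := hmem
  have hh : h ∈ degreeLE ℂ ((2 * d : ℕ) : WithBot ℕ) := hhu.1
  rw [mem_degreeLE] at hh
  have he1 := congrArg Prod.fst heq
  have he2 := congrArg Prod.snd heq
  set u' : ℂ → ℂ := fun w => if hw : w ∈ Z then u ⟨w, hw⟩ else 0 with hu'
  have huz : ∀ z : Z, u' z = u z := fun z => by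
    rw [hu']; simp only [z.2, dif_pos]
  refine ⟨h, u', natDegree_le_iff_degree_le.mpr hh, ?_, ?_⟩
  · intro z hz
    have h1 := congrFun he1 ⟨z, hz⟩
    have h2 := huz ⟨z, hz⟩
    have h3 := huz (τ ⟨z, hz⟩)
    rw [hτv] at h3
    simp only at h2 h3
    rw [h2, h3]
    exact h1
  · intro z hz
    have h1 := congrFun he2 ⟨z, hz⟩
    have h2 : ∑ i ∈ Finset.range N,
        (hd Q h ((fr P Q)^[i] z) +
          d2 P Q ((fr P Q)^[i] z) * u' ((fr P Q)^[i] z)) /
          d1 P Q ((fr P Q)^[i] z) = κt ⟨z, hz⟩ := by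
      refine Eq.trans ?_ h1
      refine Finset.sum_congr rfl fun i _ => ?_
      have h3 := hit i ⟨z, hz⟩
      have h4 := huz ((τ ^ i) ⟨z, hz⟩)
      rw [h3] at h4 ⊢
      rw [h4]
    have h5 := surl_period (fr P Q) (fun y => (hd Q h y +
          d2 P Q y * u' y) / d1 P Q y) z
          (Function.minimalPeriod (fr P Q) z) (q ⟨z, hz⟩) (Function.isPeriodicPt_minimalPeriod _ _)
    have h6 : Function.minimalPeriod (fr P Q) z * q ⟨z, hz⟩ = N := hqN ⟨z, hz⟩
    rw [h6, h2] at h5
    exact (mul_left_cancel₀ (hq0 ⟨z, hz⟩) h5).symm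

end Pool.Agent.W345.RQSURL
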