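import Mathlib

set_option autoImplicit false

/-!
Order automorphisms of the real line: gluing along pairwise disjoint intervals.
-/

namespace Pool.Agent.W345.TG

/-- The group of order automorphisms of the real line. -/
abbrev G := ℝ ≃o ℝ

/-- The automorphisms fixing every point outside `V`. -/
def Fx (V : Set ℝ) : Subgroup G where
  carrier := {f | ∀ x, x ∉ V → f x = x}
  one_mem' := fun _ _ => rfl
  mul_mem' := by
    intro f g hf hg x hx
    rw [RelIso.mul_apply, hg x hx, hf x hx]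
  inv_mem' := by
    intro f hf x hx
    have h := hf x hx
    conv_lhs => rw [← h]
    exact RelIso.inv_apply_self f x

theorem Fx_mono {V W : Set ℝ} (h : V ⊆ W) : Fx V ≤ Fx W :=
  fun _ hf x hx => hf x (fun hV => hx (h hV))

theorem Fx_maps {V : Set ℝ} {f : G} (hf : f ∈ Fx V) {x : ℝ} (hx : x ∈ V) : f x ∈ V := by
  by_contra h
  have h1 := hf (f x) h
  have h2 : f x = x := f.injective h1
  rw [h2] at h
  exact h hx

/-- Good families of sets: order connected and pairwise disjoint. -/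
structure Good {ι : Type} (U : ι → Set ℝ) : Prop where
  conn : ∀ i x y z, x ∈ U i → z ∈ U i → x ≤ y → y ≤ z → y ∈ U i
  disj : ∀ i j x, x ∈ U i → x ∈ U j → i = j

open Classical in
/-- The glued function. -/
noncomputable def glueFun {ι : Type} (U : ι → Set ℝ) (φ : ι → G) (x : ℝ) : ℝ :=
  if h : ∃ i, x ∈ U i then φ h.choose x else x

theorem glueFun_of_mem {ι : Type} {U : ι → Set ℝ} (hU : Good U) (φ : ι → G) {x : ℝ} {i : ι}
    (hx : x ∈ U i) : glueFun U φ x = φ i x := by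
  have h : ∃ i, x ∈ U i := ⟨i, hx⟩
  have h1 : h.choose = i := hU.disj _ _ x h.choose_spec hx
  rw [glueFun, dif_pos h, h1]

theorem glueFun_of_not_mem {ι : Type} {U : ι → Set ℝ} (φ : ι → G) {x : ℝ}
    (hx : ∀ i, x ∉ U i) : glueFun U φ x = x := by
  have h : ¬ ∃ i, x ∈ U i := fun ⟨i, hi⟩ => hx i hi
  rw [glueFun, dif_neg h]

/-- `φ i` preserves `U i`. -/
def Pres {ι : Type} (U : ι → Set ℝ) (φ : ι → G) : Prop := ∀ i x, x ∈ U i ↔ φ i x ∈ U i

theorem Pres.inv {ι : Type} {U : ι → Set ℝ} {φ : ι → G} (h : Pres U φ) : Pres U φ⁻¹ := by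
  intro i x
  have := h i ((φ i)⁻¹ x)
  rw [RelIso.apply_inv_self] at this
  exact this.symm

theorem glue_strictMono {ι : Type} {U : ι → Set ℝ} (hU : Good U) {φ : ι → G} (hφ : Pres U φ) :
    StrictMono (glueFun U φ) := by
  intro x y hxy
  by_cases hx : ∃ i, x ∈ U i
  · obtain ⟨i, hi⟩ := hx
    have h1 : φ i x ∈ U i := (hφ i x).mp hi
    rw [glueFun_of_mem hU φ hi]
    by_cases hy : ∃ j, y ∈ U j
    · obtain ⟨j, hj⟩ := hy
      have h2 : φ j y ∈ U j := (hφ j y).mp hj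
      rw [glueFun_of_mem hU φ hj]
      by_cases hij : i = j
      · subst hij
        exact (φ i).strictMono hxy
      · by_contra hcon
        push Not at hcon
        -- φ j y ≤ φ i x , x < y
        rcases lt_or_ge (φ j y) x with h3 | h3
        · -- φ j y < x < y
          exact hij (hU.disj _ _ x hi (hU.conn j _ _ _ h2 hj h3.le hxy.le))
        · -- x ≤ φ j y ≤ φ i x
          exact hij (hU.disj _ _ _ (hU.conn i _ _ _ hi h1 h3 hcon) h2)
    · have hy' : ∀ j, y ∉ U j := fun j hj => hy ⟨j, hj⟩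
      rw [glueFun_of_not_mem φ hy']
      by_contra hcon
      push Not at hcon
      exact hy' i (hU.conn i _ _ _ hi h1 hxy.le hcon)
  · have hx' : ∀ j, x ∉ U j := fun j hj => hx ⟨j, hj⟩
    rw [glueFun_of_not_mem φ hx']
    by_cases hy : ∃ j, y ∈ U j
    · obtain ⟨j, hj⟩ := hy
      have h2 : φ j y ∈ U j := (hφ j y).mp hj
      rw [glueFun_of_mem hU φ hj]
      by_contra hcon
      push Not at hcon
      exact hx' j (hU.conn j _ _ _ h2 hj hcon hxy.le)
    · have hy' : ∀ j, y ∉ U j := fun j hj => hy ⟨j, hj⟩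
      rw [glueFun_of_not_mem φ hy']
      exact hxy

theorem glue_inv {ι : Type} {U : ι → Set ℝ} (hU : Good U) {φ : ι → G} (hφ : Pres U φ) (x : ℝ) :
    glueFun U φ⁻¹ (glueFun U φ x) = x := by
  by_cases hx : ∃ i, x ∈ U i
  · obtain ⟨i, hi⟩ := hx
    have h1 : φ i x ∈ U i := (hφ i x).mp hi
    rw [glueFun_of_mem hU φ hi, glueFun_of_mem hU _ h1]
    exact RelIso.inv_apply_self (φ i) x
  · have hx' : ∀ j, x ∉ U j := fun j hj => hx ⟨j, hj⟩
    rw [glueFun_of_not_mem φ hx', glueFun_of_not_mem _ hx']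

/-- The glued automorphism. -/
noncomputable def glue {ι : Type} (U : ι → Set ℝ) (hU : Good U) (φ : ι → G) (hφ : Pres U φ) : G :=
  StrictMono.orderIsoOfSurjective (glueFun U φ) (glue_strictMono hU hφ) (by
    intro y
    refine ⟨glueFun U φ⁻¹ y, ?_⟩
    have := glue_inv hU hφ.inv y
    rwa [inv_inv] at this)

theorem glue_apply {ι : Type} {U : ι → Set ℝ} (hU : Good U) {φ : ι → G} (hφ : Pres U φ) (x : ℝ) :
    glue U hU φ hφ x = glueFun U φ x := rfl

theorem glue_of_mem {ι : Type} {U : ι → Set ℝ} (hU : Good U) {φ : ι → G} (hφ : Pres U φ) {x : ℝ}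
    {i : ι} (hx : x ∈ U i) : glue U hU φ hφ x = φ i x := glueFun_of_mem hU φ hx

theorem glue_of_not_mem {ι : Type} {U : ι → Set ℝ} (hU : Good U) {φ : ι → G} (hφ : Pres U φ)
    {x : ℝ} (hx : ∀ i, x ∉ U i) : glue U hU φ hφ x = x := glueFun_of_not_mem φ hx

/-- A wandering order connected set: `v ^ k` moves it off itself for `k ≠ 0`. -/
structure Wand (v : G) (V : Set ℝ) : Prop where
  conn : ∀ x y z, x ∈ V → z ∈ V → x ≤ y → y ≤ z → y ∈ V
  wand : ∀ (k : ℤ) x, k ≠ 0 → x ∈ V → (v ^ k) x ∉ V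

/-- the translate `v ^ k V` -/
def Tr (v : G) (V : Set ℝ) (k : ℤ) : Set ℝ := {x | (v ^ (-k)) x ∈ V}

theorem Wand.good {v : G} {V : Set ℝ} (h : Wand v V) : Good (Tr v V) where
  conn := by
    intro i x y z hx hz hxy hyz
    exact h.conn _ _ _ hx hz ((v ^ (-i)).monotone hxy) ((v ^ (-i)).monotone hyz)
  disj := by
    intro i j x hi hj
    by_contra hij
    have h1 : (v ^ (-j)) x = (v ^ (i - j)) ((v ^ (-i)) x) := by
      rw [← RelIso.mul_apply, ← zpow_add]; congr 2; ring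
    have h2 := h.wand (i - j) _ (sub_ne_zero.mpr hij) hi
    rw [← h1] at h2
    exact h2 hj

theorem conj_pres {v : G} {V : Set ℝ} (α : ℤ → Fx V) :
    Pres (Tr v V) (fun k => v ^ k * (α k : G) * v ^ (-k)) := by
  intro k x
  change (v ^ (-k)) x ∈ V ↔ (v ^ (-k)) ((v ^ k * (α k : G) * v ^ (-k)) x) ∈ V
  have h : (v ^ (-k)) ((v ^ k * (α k : G) * v ^ (-k)) x) = (α k : G) ((v ^ (-k)) x) := by
    rw [← RelIso.mul_apply, ← RelIso.mul_apply]
    congr 1
    rw [zpow_neg]; group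
  rw [h]
  constructor
  · intro hx; exact Fx_maps (α k).2 hx
  · intro hx
    by_contra hcon
    rw [(α k).2 _ hcon] at hx
    exact hcon hx

/-- The product of the `v ^ k * α k * v ^ (-k)`. -/
noncomputable def Th {v : G} {V : Set ℝ} (h : Wand v V) (α : ℤ → Fx V) : G :=
  glue (Tr v V) h.good (fun k => v ^ k * (α k : G) * v ^ (-k)) (conj_pres α)

theorem Th_of_mem {v : G} {V : Set ℝ} (h : Wand v V) (α : ℤ → Fx V) (k : ℤ) {x : ℝ}
    (hx : (v ^ (-k)) x ∈ V) : Th h α x = (v ^ k) ((α k : G) ((v ^ (-k)) x)) :=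
  glue_of_mem h.good (conj_pres α) (i := k) hx

theorem Th_of_not_mem {v : G} {V : Set ℝ} (h : Wand v V) (α : ℤ → Fx V) {x : ℝ}
    (hx : ∀ k : ℤ, (v ^ (-k)) x ∉ V) : Th h α x = x :=
  glue_of_not_mem h.good (conj_pres α) hx

theorem Th_mul {v : G} {V : Set ℝ} (h : Wand v V) (α β : ℤ → Fx V) :
    Th h (α * β) = Th h α * Th h β := by
  ext x
  rw [RelIso.mul_apply]
  by_cases hx : ∃ k : ℤ, (v ^ (-k)) x ∈ V
  · obtain ⟨k, hk⟩ := hx
    rw [Th_of_mem h _ k hk, Th_of_mem h β k hk]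
    have h1 : (v ^ (-k)) ((v ^ k) ((β k : G) ((v ^ (-k)) x))) = (β k : G) ((v ^ (-k)) x) := by
      rw [← RelIso.mul_apply, ← zpow_add]; simp
    rw [Th_of_mem h α k (by rw [h1]; exact Fx_maps (β k).2 hk), h1]
    rfl
  · have hx' : ∀ k : ℤ, (v ^ (-k)) x ∉ V := fun k hk => hx ⟨k, hk⟩
    rw [Th_of_not_mem h _ hx', Th_of_not_mem h _ hx', Th_of_not_mem h _ hx']

theorem Th_one {v : G} {V : Set ℝ} (h : Wand v V) : Th h 1 = 1 := by
  have := Th_mul h 1 1
  rw [mul_one] at this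
  exact (mul_eq_left.mp this.symm)

/-- `Th` as a homomorphism. -/
noncomputable def ThHom {v : G} {V : Set ℝ} (h : Wand v V) : (ℤ → Fx V) →* G where
  toFun := Th h
  map_one' := Th_one h
  map_mul' := Th_mul h

theorem Th_conj {v : G} {V : Set ℝ} (h : Wand v V) (α : ℤ → Fx V) (m : ℤ) :
    v ^ m * Th h α * v ^ (-m) = Th h (fun k => α (k - m)) := by
  ext x
  rw [RelIso.mul_apply, RelIso.mul_apply]
  by_cases hx : ∃ k : ℤ, (v ^ (-k)) x ∈ V
  · obtain ⟨k, hk⟩ := hx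
    rw [Th_of_mem h _ k hk]
    have h1 : (v ^ (-(k - m))) ((v ^ (-m)) x) = (v ^ (-k)) x := by
      rw [← RelIso.mul_apply, ← zpow_add]; congr 2; ring
    rw [Th_of_mem h α (k - m) (by rw [h1]; exact hk), h1]
    rw [← RelIso.mul_apply, ← zpow_add]
    congr 2; ring
  · have hx' : ∀ k : ℤ, (v ^ (-k)) x ∉ V := fun k hk => hx ⟨k, hk⟩
    rw [Th_of_not_mem h _ hx', Th_of_not_mem h α]
    · rw [← RelIso.mul_apply, ← zpow_add]; simp
    · intro k
      rw [← RelIso.mul_apply, ← zpow_add, ← neg_add]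
      exact hx' _

theorem Th_single {v : G} {V : Set ℝ} (h : Wand v V) (α : ℤ → Fx V) (h0 : ∀ k, k ≠ 0 → α k = 1) :
    Th h α = (α 0 : G) := by
  ext x
  by_cases hx : ∃ k : ℤ, (v ^ (-k)) x ∈ V
  · obtain ⟨k, hk⟩ := hx
    rw [Th_of_mem h _ k hk]
    by_cases hk0 : k = 0
    · subst hk0; simp
    · rw [h0 k hk0]
      have h1 : (v ^ k) (((1 : Fx V) : G) ((v ^ (-k)) x)) = x := by
        change (v ^ k) ((v ^ (-k)) x) = x
        rw [← RelIso.mul_apply, ← zpow_add]; simp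
      rw [h1]
      have h2 : x ∉ V := by
        intro hxV
        have := h.wand (-k) x (neg_ne_zero.mpr hk0) hxV
        exact this hk
      exact ((α 0).2 x h2).symm
  · have hx' : ∀ k : ℤ, (v ^ (-k)) x ∉ V := fun k hk => hx ⟨k, hk⟩
    rw [Th_of_not_mem h _ hx']
    have h2 := hx' 0
    simp only [neg_zero, zpow_zero] at h2
    exact ((α 0).2 x h2).symm

theorem Th_mem {v : G} {V W : Set ℝ} (h : Wand v V) (hVW : V ⊆ W) (hv : v ∈ Fx W) (α : ℤ → Fx V) :
    Th h α ∈ Fx W := by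
  intro x hx
  apply Th_of_not_mem
  intro k hk
  have h1 : v ^ (-k) ∈ Fx W := (Fx W).zpow_mem hv _
  rw [h1 x hx] at hk
  exact hx (hVW hk)

end Pool.Agent.W345.TG
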