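import Mathlib
import Pool.Agent.W345.TG1

set_option autoImplicit false

namespace Pool.Agent.W345.TG

open scoped commutatorElement

/-! ### Piecewise linear maps -/

theorem pl_up {a p q b : ℝ} (h1 : a < p) (h2 : p ≤ q) (h3 : q < b) :
    ∃ φ : G, φ ∈ Fx (Set.Ioo a b) ∧ φ p = q := by
  let F : ℝ → ℝ := fun x =>
    max x (min (a + (x - a) * ((q - a) / (p - a))) (b - (b - x) * ((b - q) / (b - p))))
  have hpa : 0 < p - a := by linarith
  have hqa : 0 < q - a := by linarith
  have hbq : 0 < b - q := by linarith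
  have hbp : 0 < b - p := by linarith
  have s1 : 0 < (q - a) / (p - a) := div_pos hqa hpa
  have s2 : 0 < (b - q) / (b - p) := div_pos hbq hbp
  have s1' : 1 ≤ (q - a) / (p - a) := by rw [le_div_iff₀ hpa]; linarith
  have s2' : (b - q) / (b - p) ≤ 1 := by rw [div_le_iff₀ hbp]; linarith
  have hmono : StrictMono F := by
    intro x y hxy
    refine max_lt_max hxy (min_lt_min ?_ ?_)
    · have := mul_lt_mul_of_pos_right (sub_lt_sub_right hxy a) s1
      linarith
    · have := mul_lt_mul_of_pos_right (sub_lt_sub_left hxy b) s2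
      linarith
  have hcont : Continuous F := by
    dsimp only [F]
    fun_prop
  have hlow : ∀ x, x ≤ a → F x = x := by
    intro x hx
    apply max_eq_left
    refine (min_le_left _ _).trans ?_
    nlinarith
  have hhigh : ∀ x, b ≤ x → F x = x := by
    intro x hx
    apply max_eq_left
    refine (min_le_right _ _).trans ?_
    nlinarith
  have hsurj : Function.Surjective F := by
    apply hcont.surjective
    · refine Filter.Tendsto.congr' ?_ Filter.tendsto_id
      filter_upwards [Filter.eventually_ge_atTop b] with x hx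
      exact (hhigh x hx).symm
    · refine Filter.Tendsto.congr' ?_ Filter.tendsto_id
      filter_upwards [Filter.eventually_le_atBot a] with x hx
      exact (hlow x hx).symm
  refine ⟨StrictMono.orderIsoOfSurjective F hmono hsurj, ?_, ?_⟩
  · intro x hx
    change F x = x
    rcases le_or_gt x a with h | h
    · exact hlow x h
    · rcases le_or_gt b x with h' | h'
      · exact hhigh x h'
      · exact absurd ⟨h, h'⟩ hx
  · change F p = q
    dsimp only [F]
    have e1 : a + (p - a) * ((q - a) / (p - a)) = q := by field_simp; ring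
    have e2 : b - (b - p) * ((b - q) / (b - p)) = q := by field_simp; ring
    rw [e1, e2, min_self, max_eq_right h2]

theorem pl {a p q b : ℝ} (h1 : a < p) (h2 : p < b) (h3 : a < q) (h4 : q < b) :
    ∃ φ : G, φ ∈ Fx (Set.Ioo a b) ∧ φ p = q := by
  rcases le_total p q with h | h
  · exact pl_up h1 h h4
  · obtain ⟨φ, hφ, hφ2⟩ := pl_up h3 h h2
    refine ⟨φ⁻¹, (Fx _).inv_mem hφ, ?_⟩
    rw [← hφ2]; exact RelIso.inv_apply_self φ q

theorem pow_ge {t : G} {a b : ℝ} (hab : a ≤ b) (h : t a = b) (n : ℕ) :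
    a ≤ (t ^ n) a ∧ b ≤ (t ^ (n + 1)) a := by
  induction n with
  | zero => simp [h]
  | succ n ih =>
    refine ⟨hab.trans ih.2, ?_⟩
    rw [pow_succ', RelIso.mul_apply, ← h]
    apply t.monotone
    exact hab.trans ih.2

theorem wand_of {t : G} {a b : ℝ} (hab : a < b) (h : t a = b) : Wand t (Set.Ioo a b) where
  conn := by
    intro x y z hx hz hxy hyz
    exact ⟨lt_of_lt_of_le hx.1 hxy, lt_of_le_of_lt hyz hz.2⟩
  wand := by
    have key : ∀ (n : ℕ) x, x ∈ Set.Ioo a b → (t ^ (n + 1)) x ∉ Set.Ioo a b := by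
      intro n x hx hcon
      have h1 := (pow_ge hab.le h n).2
      have h2 := (t ^ (n + 1)).monotone hx.1.le
      linarith [hcon.2]
    intro k x hk hx hcon
    rcases lt_trichotomy k 0 with h0 | h0 | h0
    · obtain ⟨n, rfl⟩ : ∃ n : ℕ, k = -((n : ℤ) + 1) := ⟨(-k - 1).toNat, by omega⟩
      apply key n _ hcon
      rw [← RelIso.mul_apply, ← zpow_natCast, ← zpow_add]
      simpa using hx
    · exact hk h0
    · obtain ⟨n, rfl⟩ : ∃ n : ℕ, k = (n : ℤ) + 1 := ⟨(k - 1).toNat, by omega⟩
      apply key n x hx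
      have : (t ^ ((n : ℤ) + 1)) = t ^ (n + 1) := by
        rw [← zpow_natCast]; norm_cast
      rwa [this] at hcon

/-! ### Encoding tricks -/

/-- Every element supported in `V` is a commutator of an element with the shift `v`. -/
theorem comm_shift {v : G} {V : Set ℝ} (h : Wand v V) (c : Fx V) :
    ⁅Th h (fun k => if 0 ≤ k then c else 1), v⁆ = (c : G) := by
  set α : ℤ → Fx V := fun k => if 0 ≤ k then c else 1 with hα
  have h1 : ⁅Th h α, v⁆ = Th h α * (v ^ (1 : ℤ) * Th h α * v ^ (-1 : ℤ))⁻¹ := by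
    rw [commutatorElement_def]; group
  rw [h1, Th_conj]
  have h2 : Th h α * (Th h (fun k => α (k - 1)))⁻¹ = Th h (α * (fun k => α (k - 1))⁻¹) := by
    change ThHom h α * (ThHom h _)⁻¹ = ThHom h _
    rw [map_mul, map_inv]
  rw [h2, Th_single]
  · simp [hα]
  · intro k hk
    simp only [hα, Pi.mul_apply, Pi.inv_apply]
    by_cases h0 : 0 ≤ k
    · have h3 : 0 ≤ k - 1 := by omega
      rw [if_pos h0, if_pos h3, mul_inv_cancel]
    · have h3 : ¬ 0 ≤ k - 1 := by omega
      rw [if_neg h0, if_neg h3, mul_inv_cancel]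

theorem two_pow_sidon {i j p q : ℕ} (hij : i ≠ j)
    (h : (2 : ℤ) ^ p - 2 ^ i = 2 ^ q - 2 ^ j) : (2 : ℤ) ^ p = 2 ^ i := by
  have h1 : 2 ^ p + 2 ^ j = 2 ^ q + 2 ^ i := by
    have : (2 : ℤ) ^ p + 2 ^ j = 2 ^ q + 2 ^ i := by linarith
    exact_mod_cast this
  have key : p = i := by
    -- compare the sums of two powers of two
    rcases lt_trichotomy i j with hlt | heq | hgt
    · -- i < j
      by_contra hpi
      rcases lt_or_gt_of_ne hpi with hp | hp
      · -- p < i
        have hpq : p = q := by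
          by_contra hpq
          have hd : ∀ a b : ℕ, a < b → (2 ^ (a + 1)) ∣ 2 ^ b := fun a b hab =>
            pow_dvd_pow 2 hab
          rcases lt_or_gt_of_ne hpq with hq | hq
          · have e1 : 2 ^ (p + 1) ∣ 2 ^ q + 2 ^ i := dvd_add (hd _ _ hq) (hd _ _ hp)
            rw [← h1] at e1
            have e2 : 2 ^ (p + 1) ∣ 2 ^ p := (Nat.dvd_add_left (hd _ _ (hp.trans hlt))).mp e1
            have := Nat.le_of_dvd (by positivity) e2
            have h5 : 2 ^ p < 2 ^ (p + 1) := Nat.pow_lt_pow_right (by norm_num) (Nat.lt_succ_self p)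
            omega
          · have e1 : 2 ^ (q + 1) ∣ 2 ^ p + 2 ^ j :=
              dvd_add (hd _ _ hq) (hd _ _ (hq.trans (hp.trans hlt)))
            rw [h1] at e1
            have e2 : 2 ^ (q + 1) ∣ 2 ^ q := (Nat.dvd_add_left (hd _ _ (hq.trans hp))).mp e1
            have := Nat.le_of_dvd (by positivity) e2
            have h5 : 2 ^ q < 2 ^ (q + 1) := Nat.pow_lt_pow_right (by norm_num) (Nat.lt_succ_self q)
            omega
        subst hpq
        have : 2 ^ j = 2 ^ i := by omega
        exact hij (Nat.pow_right_injective le_rfl this).symm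
      · -- p > i
        have hqi : q = i := by
          by_contra hqi
          have hd : ∀ a b : ℕ, a < b → (2 ^ (a + 1)) ∣ 2 ^ b := fun a b hab =>
            pow_dvd_pow 2 hab
          rcases lt_or_gt_of_ne hqi with hq | hq
          · have e1 : 2 ^ (q + 1) ∣ 2 ^ p + 2 ^ j :=
              dvd_add (hd _ _ (hq.trans hp)) (hd _ _ (hq.trans hlt))
            rw [h1] at e1
            have e2 : 2 ^ (q + 1) ∣ 2 ^ q := (Nat.dvd_add_left (hd _ _ hq)).mp e1
            have := Nat.le_of_dvd (by positivity) e2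
            have h5 : 2 ^ q < 2 ^ (q + 1) := Nat.pow_lt_pow_right (by norm_num) (Nat.lt_succ_self q)
            omega
          · have e1 : 2 ^ (i + 1) ∣ 2 ^ p + 2 ^ j := dvd_add (hd _ _ hp) (hd _ _ hlt)
            rw [h1] at e1
            have e2 : 2 ^ (i + 1) ∣ 2 ^ i := (Nat.dvd_add_right (hd _ _ hq)).mp e1
            have := Nat.le_of_dvd (by positivity) e2
            have h5 : 2 ^ i < 2 ^ (i + 1) := Nat.pow_lt_pow_right (by norm_num) (Nat.lt_succ_self i)
            omega
        subst hqi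
        -- 2^p + 2^j = 2 * 2^q with q < p, q < j: impossible
        have h5 : 2 ^ q < 2 ^ p := Nat.pow_lt_pow_right (by norm_num) hp
        have h6 : 2 ^ q < 2 ^ j := Nat.pow_lt_pow_right (by norm_num) hlt
        omega
    · exact absurd heq hij
    · -- j < i
      by_contra hpi
      have hd : ∀ a b : ℕ, a < b → (2 ^ (a + 1)) ∣ 2 ^ b := fun a b hab =>
        pow_dvd_pow 2 hab
      have hqj : q ≠ j := by
        intro h7
        subst h7
        have : 2 ^ p = 2 ^ i := by omega
        exact hpi (Nat.pow_right_injective le_rfl this)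
      rcases lt_or_gt_of_ne hqj with hq | hq
      · -- q < j < i
        have e0 : p = q := by
          by_contra hpq
          rcases lt_or_gt_of_ne hpq with hq' | hq'
          · have e1 : 2 ^ (p + 1) ∣ 2 ^ q + 2 ^ i :=
              dvd_add (hd _ _ hq') (hd _ _ (hq'.trans (hq.trans hgt)))
            rw [← h1] at e1
            have e2 : 2 ^ (p + 1) ∣ 2 ^ p :=
              (Nat.dvd_add_left (hd _ _ (hq'.trans hq))).mp e1
            have := Nat.le_of_dvd (by positivity) e2
            have h5 : 2 ^ p < 2 ^ (p + 1) := Nat.pow_lt_pow_right (by norm_num) (Nat.lt_succ_self p)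
            omega
          · have e1 : 2 ^ (q + 1) ∣ 2 ^ p + 2 ^ j := dvd_add (hd _ _ hq') (hd _ _ hq)
            rw [h1] at e1
            have e2 : 2 ^ (q + 1) ∣ 2 ^ q := (Nat.dvd_add_left (hd _ _ (hq.trans hgt))).mp e1
            have := Nat.le_of_dvd (by positivity) e2
            have h5 : 2 ^ q < 2 ^ (q + 1) := Nat.pow_lt_pow_right (by norm_num) (Nat.lt_succ_self q)
            omega
        subst e0
        have : 2 ^ j = 2 ^ i := by omega
        exact hij (Nat.pow_right_injective le_rfl this).symm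
      · -- q > j, i > j : 2^(j+1) divides 2^q + 2^i = 2^p + 2^j
        have e1 : 2 ^ (j + 1) ∣ 2 ^ q + 2 ^ i := dvd_add (hd _ _ hq) (hd _ _ hgt)
        have e3 : p = j := by
          by_contra hpj
          rcases lt_or_gt_of_ne hpj with hp' | hp'
          · have e4 : 2 ^ (p + 1) ∣ 2 ^ q + 2 ^ i :=
              dvd_add (hd _ _ (hp'.trans hq)) (hd _ _ (hp'.trans hgt))
            rw [← h1] at e4
            have e2 : 2 ^ (p + 1) ∣ 2 ^ p := (Nat.dvd_add_left (hd _ _ hp')).mp e4
            have := Nat.le_of_dvd (by positivity) e2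
            have h5 : 2 ^ p < 2 ^ (p + 1) := Nat.pow_lt_pow_right (by norm_num) (Nat.lt_succ_self p)
            omega
          · rw [← h1] at e1
            have e2 : 2 ^ (j + 1) ∣ 2 ^ j := (Nat.dvd_add_right (hd _ _ hp')).mp e1
            have := Nat.le_of_dvd (by positivity) e2
            have h5 : 2 ^ j < 2 ^ (j + 1) := Nat.pow_lt_pow_right (by norm_num) (Nat.lt_succ_self j)
            omega
        subst e3
        have h5 : 2 ^ p < 2 ^ q := Nat.pow_lt_pow_right (by norm_num) hq
        have h6 : 2 ^ p < 2 ^ i := Nat.pow_lt_pow_right (by norm_num) hgt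
        omega
  rw [key]

/-- Encoding a sequence: all commutators `⁅a i, a j⁆` lie in the group generated by `b` and `u`. -/
theorem encode {u : G} {V : Set ℝ} (h : Wand u V) (a : ℕ → Fx V) :
    ∃ β : ℤ → Fx V, ∀ i j : ℕ, i ≠ j →
      ⁅u ^ (-(2 : ℤ) ^ i) * Th h β * u ^ ((2 : ℤ) ^ i),
        u ^ (-(2 : ℤ) ^ j) * Th h β * u ^ ((2 : ℤ) ^ j)⁆ = ((⁅a i, a j⁆ : Fx V) : G) := by
  have hinj : Function.Injective (fun i : ℕ => (2 : ℤ) ^ i) := by
    intro i j hij
    have : (2 : ℤ) ^ i = 2 ^ j := hij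
    have h2 : 2 ^ i = 2 ^ j := by exact_mod_cast this
    exact Nat.pow_right_injective le_rfl h2
  refine ⟨Function.extend (fun i : ℕ => (2 : ℤ) ^ i) a 1, ?_⟩
  set β := Function.extend (fun i : ℕ => (2 : ℤ) ^ i) a 1 with hβ
  have hβ1 : ∀ i : ℕ, β ((2 : ℤ) ^ i) = a i := fun i => hinj.extend_apply a 1 i
  have hβ2 : ∀ k : ℤ, β k ≠ 1 → ∃ i : ℕ, k = 2 ^ i := by
    intro k hk
    by_contra hcon
    apply hk
    rw [hβ, Function.extend_apply']
    · rfl
    · rintro ⟨i, hi⟩; exact hcon ⟨i, hi.symm⟩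
  intro i j hij
  have hc : ∀ m : ℤ, u ^ (-m) * Th h β * u ^ m = Th h (fun k => β (k + m)) := by
    intro m
    have := Th_conj h β (-m)
    rw [neg_neg] at this
    rw [this]
    congr 1
    ext k
    rw [sub_neg_eq_add]
  rw [hc, hc]
  have h2 : ⁅Th h (fun k => β (k + 2 ^ i)), Th h (fun k => β (k + 2 ^ j))⁆ =
      Th h ⁅(fun k => β (k + 2 ^ i)), (fun k => β (k + 2 ^ j))⁆ := by
    change ⁅ThHom h _, ThHom h _⁆ = ThHom h _
    rw [map_commutatorElement]
  rw [h2, Th_single]
  · rw [commutatorElement_def, commutatorElement_def]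
    simp only [Pi.mul_apply, Pi.inv_apply, zero_add, hβ1]
  · intro k hk
    rw [commutatorElement_def]
    simp only [Pi.mul_apply, Pi.inv_apply]
    by_cases h3 : β (k + 2 ^ i) = 1
    · rw [h3]; group
    · by_cases h4 : β (k + 2 ^ j) = 1
      · rw [h4]; group
      · exfalso
        obtain ⟨p, hp⟩ := hβ2 _ h3
        obtain ⟨q, hq⟩ := hβ2 _ h4
        have h5 : (2 : ℤ) ^ p - 2 ^ i = 2 ^ q - 2 ^ j := by rw [← hp, ← hq]; ring
        have h6 := two_pow_sidon hij h5
        apply hk
        linarith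

/-! ### A subgroup lemma -/

theorem comm_mem {Γ : Type*} [Group Γ] (W : Subgroup Γ) {b u : Γ}
    (hb : ∀ w, w ∈ W ↔ b * w * b⁻¹ ∈ W) (hu : ∀ w, w ∈ W ↔ u * w * u⁻¹ ∈ W)
    (hbu : ⁅b, u⁆ ∈ W) {x y : Γ} (hx : x ∈ Subgroup.closure ({b, u} : Set Γ))
    (hy : y ∈ Subgroup.closure ({b, u} : Set Γ)) : ⁅x, y⁆ ∈ W := by
  let C : Γ → Subgroup Γ := fun x =>
    { carrier := {y | (∀ w, w ∈ W ↔ y * w * y⁻¹ ∈ W) ∧ ⁅x, y⁆ ∈ W}
      one_mem' := ⟨fun w => by simp, by simp⟩
      mul_mem' := by
        rintro y z ⟨hy1, hy2⟩ ⟨hz1, hz2⟩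
        refine ⟨fun w => ?_, ?_⟩
        · rw [hz1 w, hy1]
          have : y * (z * w * z⁻¹) * y⁻¹ = y * z * w * (y * z)⁻¹ := by group
          rw [this]
        · have : ⁅x, y * z⁆ = ⁅x, y⁆ * (y * ⁅x, z⁆ * y⁻¹) := by
            simp only [commutatorElement_def]; group
          rw [this]
          exact W.mul_mem hy2 ((hy1 _).mp hz2)
      inv_mem' := by
        rintro y ⟨hy1, hy2⟩
        refine ⟨fun w => ?_, ?_⟩
        · rw [hy1 (y⁻¹ * w * y⁻¹⁻¹)]
          have : y * (y⁻¹ * w * y⁻¹⁻¹) * y⁻¹ = w := by group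
          rw [this]
        · rw [hy1]
          have : y * ⁅x, y⁻¹⁆ * y⁻¹ = ⁅x, y⁆⁻¹ := by
            simp only [commutatorElement_def]; group
          rw [this]
          exact W.inv_mem hy2 }
  have hCb : Subgroup.closure ({b, u} : Set Γ) ≤ C b := by
    rw [Subgroup.closure_le]
    rintro z (rfl | rfl)
    · exact ⟨hb, by simp⟩
    · exact ⟨hu, hbu⟩
  have hCu : Subgroup.closure ({b, u} : Set Γ) ≤ C u := by
    rw [Subgroup.closure_le]
    rintro z (rfl | rfl)
    · refine ⟨hb, ?_⟩
      rw [← commutatorElement_inv]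
      exact W.inv_mem hbu
    · exact ⟨hu, by simp⟩
  have hCx : Subgroup.closure ({b, u} : Set Γ) ≤ C x := by
    rw [Subgroup.closure_le]
    rintro z (rfl | rfl)
    · refine ⟨hb, ?_⟩
      rw [← commutatorElement_inv]
      exact W.inv_mem (hCb hx).2
    · refine ⟨hu, ?_⟩
      rw [← commutatorElement_inv]
      exact W.inv_mem (hCu hx).2
  exact (hCx hy).2

end Pool.Agent.W345.TG
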