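import Mathlib
import Pool.Agent.W345.TG2

set_option autoImplicit false

namespace Pool.Agent.W345.TG

open scoped commutatorElement

/-- translation by `c` -/
noncomputable def tr (c : ℝ) : G := OrderIso.addRight c

theorem tr_apply (c x : ℝ) : tr c x = x + c := rfl

theorem tr_mul (c d : ℝ) : tr c * tr d = tr (c + d) := by
  ext x
  rw [RelIso.mul_apply, tr_apply, tr_apply, tr_apply]; ring

theorem tr_inv (c : ℝ) : (tr c)⁻¹ = tr (-c) := by
  rw [inv_eq_iff_mul_eq_one, tr_mul]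
  ext x
  rw [tr_apply]; simp

theorem tr_zpow (c : ℝ) (k : ℤ) : tr c ^ k = tr (k * c) := by
  have hnat : ∀ n : ℕ, tr c ^ n = tr (n * c) := by
    intro n
    induction n with
    | zero =>
      ext x; simp [tr_apply]
    | succ n ih =>
      rw [pow_succ, ih, tr_mul]; congr 1; push_cast; ring
  rcases Int.eq_nat_or_neg k with ⟨n, rfl | rfl⟩
  · rw [zpow_natCast, hnat]; norm_cast
  · rw [zpow_neg, zpow_natCast, hnat, tr_inv]; congr 1; push_cast; ring

theorem tr_zpow_apply (c : ℝ) (k : ℤ) (x : ℝ) : (tr c ^ k) x = x + k * c := by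
  rw [tr_zpow, tr_apply]

theorem wand_tr : Wand (tr 8) (Set.Ioo 0 8) where
  conn := by
    intro x y z hx hz hxy hyz
    exact ⟨lt_of_lt_of_le hx.1 hxy, lt_of_le_of_lt hyz hz.2⟩
  wand := by
    intro k x hk hx hcon
    rw [tr_zpow_apply] at hcon
    obtain ⟨h1, h2⟩ := hcon
    obtain ⟨h3, h4⟩ := hx
    have h5 : (-1 : ℝ) < k := by linarith
    have h6 : (k : ℝ) < 1 := by linarith
    have h7 : (-1 : ℤ) < k := by exact_mod_cast h5
    have h8 : k < (1 : ℤ) := by exact_mod_cast h6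
    omega

/-- blocks -/
abbrev V8 : Set ℝ := Set.Ioo 0 8

/-- spreading a function over the multiples of three -/
def spread (w : ℤ → Fx V8) : ℤ → Fx V8 := fun k => if 3 ∣ k then w (k / 3) else 1

/-- `spread` as a homomorphism -/
def spreadHom : (ℤ → Fx V8) →* (ℤ → Fx V8) where
  toFun := spread
  map_one' := by
    funext k; simp [spread]
  map_mul' := by
    intro w z
    funext k
    simp only [spread, Pi.mul_apply]
    split_ifs <;> simp

/-- the two elements `b`, `u` in neighbouring blocks -/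
def gam (b u : ℤ → Fx V8) : ℤ → Fx V8 := fun k =>
  if 3 ∣ k then b (k / 3) else if 3 ∣ k - 1 then u ((k - 1) / 3) else 1

theorem gam0 (b u : ℤ → Fx V8) (n : ℤ) : gam b u (3 * n) = b n := by
  rw [gam, if_pos (dvd_mul_right 3 n)]
  congr 1; omega

theorem gam1 (b u : ℤ → Fx V8) (n : ℤ) : gam b u (3 * n + 1) = u n := by
  rw [gam, if_neg (by omega), if_pos (by omega)]
  congr 1; omega

theorem gam2 (b u : ℤ → Fx V8) (n : ℤ) : gam b u (3 * n + 2) = 1 := by
  rw [gam, if_neg (by omega), if_neg (by omega)]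

theorem spread0 (w : ℤ → Fx V8) (n : ℤ) : spread w (3 * n) = w n := by
  rw [spread, if_pos (dvd_mul_right 3 n)]
  congr 1; omega

theorem spread1 (w : ℤ → Fx V8) (n : ℤ) : spread w (3 * n + 1) = 1 := by
  rw [spread, if_neg (by omega)]

theorem spread2 (w : ℤ → Fx V8) (n : ℤ) : spread w (3 * n + 2) = 1 := by
  rw [spread, if_neg (by omega)]

theorem three_cases (k : ℤ) : (∃ n, k = 3 * n) ∨ (∃ n, k = 3 * n + 1) ∨ (∃ n, k = 3 * n + 2) := by
  have : k % 3 = 0 ∨ k % 3 = 1 ∨ k % 3 = 2 := by omega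
  rcases this with h | h | h
  · left; exact ⟨k / 3, by omega⟩
  · right; left; exact ⟨k / 3, by omega⟩
  · right; right; exact ⟨k / 3, by omega⟩

/-- the element associated with a function supported on multiples of three -/
noncomputable def E3 (w : ℤ → Fx V8) : G := Th wand_tr (spread w)

/-- `E3` as a homomorphism -/
noncomputable def E3Hom : (ℤ → Fx V8) →* G := (ThHom wand_tr).comp spreadHom

theorem E3Hom_apply (w : ℤ → Fx V8) : E3Hom w = E3 w := rfl

section
variable (W : Subgroup G) (b u : ℤ → Fx V8) (hR : tr 8 ∈ W) (hg : Th wand_tr (gam b u) ∈ W)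
include hR hg

theorem g'_mem : Th wand_tr (fun k => gam b u (k + 1)) ∈ W := by
  have h := Th_conj wand_tr (gam b u) (-1)
  simp only [sub_neg_eq_add] at h
  rw [← h]
  exact W.mul_mem (W.mul_mem (W.zpow_mem hR _) hg) (W.zpow_mem hR _)

theorem W_comm : ⁅b, u⁆ ∈ W.comap E3Hom := by
  rw [Subgroup.mem_comap, E3Hom_apply, E3]
  have h1 : spread ⁅b, u⁆ = ⁅gam b u, fun k => gam b u (k + 1)⁆ := by
    funext k
    rw [commutatorElement_def, commutatorElement_def]
    simp only [Pi.mul_apply, Pi.inv_apply]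
    rcases three_cases k with ⟨n, rfl⟩ | ⟨n, rfl⟩ | ⟨n, rfl⟩
    · rw [spread0, gam0, gam1]; rfl
    · rw [spread1, gam1, show 3 * n + 1 + 1 = 3 * n + 2 by ring, gam2]; group
    · rw [spread2, gam2]; group
  rw [h1]
  have h2 : Th wand_tr ⁅gam b u, fun k => gam b u (k + 1)⁆ =
      ⁅Th wand_tr (gam b u), Th wand_tr (fun k => gam b u (k + 1))⁆ := by
    change ThHom wand_tr _ = ⁅ThHom wand_tr _, ThHom wand_tr _⁆
    rw [map_commutatorElement]
  rw [h2, commutatorElement_def]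
  have h3 := g'_mem W b u hR hg
  exact W.mul_mem (W.mul_mem (W.mul_mem hg h3) (W.inv_mem hg)) (W.inv_mem h3)

theorem W_b (w : ℤ → Fx V8) : w ∈ W.comap E3Hom ↔ b * w * b⁻¹ ∈ W.comap E3Hom := by
  rw [Subgroup.mem_comap, Subgroup.mem_comap, E3Hom_apply, E3Hom_apply, E3, E3]
  have h1 : spread (b * w * b⁻¹) = gam b u * spread w * (gam b u)⁻¹ := by
    funext k
    simp only [Pi.mul_apply, Pi.inv_apply]
    rcases three_cases k with ⟨n, rfl⟩ | ⟨n, rfl⟩ | ⟨n, rfl⟩
    · rw [spread0, gam0, spread0]; rfl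
    · rw [spread1, spread1]; group
    · rw [spread2, spread2]; group
  have h2 : Th wand_tr (gam b u * spread w * (gam b u)⁻¹) =
      Th wand_tr (gam b u) * Th wand_tr (spread w) * (Th wand_tr (gam b u))⁻¹ := by
    change ThHom wand_tr _ = ThHom wand_tr _ * ThHom wand_tr _ * (ThHom wand_tr _)⁻¹
    rw [map_mul, map_mul, map_inv]
  rw [h1, h2]
  constructor
  · intro h; exact W.mul_mem (W.mul_mem hg h) (W.inv_mem hg)
  · intro h
    have h3 := W.mul_mem (W.mul_mem (W.inv_mem hg) h) hg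
    convert h3 using 1
    group

theorem W_u (w : ℤ → Fx V8) : w ∈ W.comap E3Hom ↔ u * w * u⁻¹ ∈ W.comap E3Hom := by
  rw [Subgroup.mem_comap, Subgroup.mem_comap, E3Hom_apply, E3Hom_apply, E3, E3]
  have hg' := g'_mem W b u hR hg
  set g' : ℤ → Fx V8 := fun k => gam b u (k + 1) with hg'def
  have h1 : spread (u * w * u⁻¹) = g' * spread w * g'⁻¹ := by
    funext k
    simp only [Pi.mul_apply, Pi.inv_apply, hg'def]
    rcases three_cases k with ⟨n, rfl⟩ | ⟨n, rfl⟩ | ⟨n, rfl⟩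
    · rw [spread0, gam1, spread0]; rfl
    · rw [spread1, spread1]; group
    · rw [spread2, spread2]; group
  have h2 : Th wand_tr (g' * spread w * g'⁻¹) =
      Th wand_tr g' * Th wand_tr (spread w) * (Th wand_tr g')⁻¹ := by
    change ThHom wand_tr _ = ThHom wand_tr _ * ThHom wand_tr _ * (ThHom wand_tr _)⁻¹
    rw [map_mul, map_mul, map_inv]
  rw [h1, h2]
  constructor
  · intro h; exact W.mul_mem (W.mul_mem hg' h) (W.inv_mem hg')
  · intro h
    have h3 := W.mul_mem (W.mul_mem (W.inv_mem hg') h) hg'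
    convert h3 using 1
    group

end

/-- inclusion of the automorphisms supported in `(2, 6)` -/
def inc : Fx (Set.Ioo 2 6) →* Fx V8 :=
  Subgroup.inclusion (Fx_mono (Set.Ioo_subset_Ioo (by norm_num) (by norm_num)))

/-- Uniform two generator encoding inside one block. -/
theorem block : ∃ u : Fx V8, ∀ c : ℕ → Fx (Set.Ioo 2 6), ∃ b : Fx V8, ∀ i : ℕ,
    inc (c i) = ⁅u ^ (-(2 : ℤ) ^ (i + 1)) * b * u ^ ((2 : ℤ) ^ (i + 1)),
      u ^ (-(2 : ℤ) ^ 0) * b * u ^ ((2 : ℤ) ^ 0)⁆ := by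
  obtain ⟨t, ht, ht2⟩ := pl (a := 1) (p := 2) (q := 6) (b := 7) (by norm_num) (by norm_num)
    (by norm_num) (by norm_num)
  obtain ⟨u, hu, hu2⟩ := pl (a := 0) (p := 1) (q := 7) (b := 8) (by norm_num) (by norm_num)
    (by norm_num) (by norm_num)
  have wt := wand_of (by norm_num) ht2
  have wu := wand_of (by norm_num) hu2
  refine ⟨⟨u, hu⟩, fun c => ?_⟩
  have hA : ∀ i, Th wt (fun k => if 0 ≤ k then c i else 1) ∈ Fx (Set.Ioo 1 7) := fun i =>
    Th_mem wt (Set.Ioo_subset_Ioo (by norm_num) (by norm_num)) ht _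
  let a : ℕ → Fx (Set.Ioo 1 7) := fun i => Nat.casesOn i ⟨t, ht⟩ (fun j => ⟨_, hA j⟩)
  obtain ⟨β, hβ⟩ := encode wu a
  have hb : Th wu β ∈ Fx V8 :=
    Th_mem wu (Set.Ioo_subset_Ioo (by norm_num) (by norm_num)) hu _
  refine ⟨⟨Th wu β, hb⟩, fun i => ?_⟩
  have h1 := hβ (i + 1) 0 (Nat.succ_ne_zero i)
  apply Subtype.ext
  have h2 : ((⁅a (i + 1), a 0⁆ : Fx (Set.Ioo 1 7)) : G) = (c i : G) := by
    rw [← comm_shift wt (c i)]
    rfl
  rw [h2] at h1
  exact h1.symm

/-- the elements supported in the union of the intervals `(24 n + 2, 24 n + 6)` -/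
def F0 : Set G := {f | ∀ x : ℝ, (∀ n : ℤ, x - 24 * n ∉ Set.Ioo (2 : ℝ) 6) → f x = x}

theorem F0_pres {f : G} (hf : f ∈ F0) (n : ℤ) {x : ℝ} (hx : x - 24 * n ∈ Set.Ioo (2 : ℝ) 6) :
    f x - 24 * n ∈ Set.Ioo (2 : ℝ) 6 := by
  have h1 : f (24 * n + 2) = 24 * n + 2 := by
    apply hf
    rintro m ⟨hm1, hm2⟩
    have h3 : ((0 : ℤ) : ℝ) < 24 * (n - m) := by push_cast; linarith
    have h4 : (24 * (n - m) : ℝ) < ((4 : ℤ) : ℝ) := by push_cast; linarith
    have h5 : (0 : ℤ) < 24 * (n - m) := by exact_mod_cast h3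
    have h6 : 24 * (n - m) < (4 : ℤ) := by exact_mod_cast h4
    omega
  have h2 : f (24 * n + 6) = 24 * n + 6 := by
    apply hf
    rintro m ⟨hm1, hm2⟩
    have h3 : ((-4 : ℤ) : ℝ) < 24 * (n - m) := by push_cast; linarith
    have h4 : (24 * (n - m) : ℝ) < ((0 : ℤ) : ℝ) := by push_cast; linarith
    have h5 : (-4 : ℤ) < 24 * (n - m) := by exact_mod_cast h3
    have h6 : 24 * (n - m) < (0 : ℤ) := by exact_mod_cast h4
    omega
  obtain ⟨hx1, hx2⟩ := hx
  have h3 : f (24 * n + 2) < f x := f.strictMono (by linarith)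
  have h4 : f x < f (24 * n + 6) := f.strictMono (by linarith)
  rw [h1] at h3
  rw [h2] at h4
  exact ⟨by linarith, by linarith⟩

theorem F0_inv {f : G} (hf : f ∈ F0) : f⁻¹ ∈ F0 := by
  intro x hx
  have h := hf x hx
  conv_lhs => rw [← h]
  exact RelIso.inv_apply_self f x

theorem F0_rep {f : G} (hf : f ∈ F0) : ∃ w : ℤ → Fx (Set.Ioo 2 6), f = E3 (fun n => inc (w n)) := by
  -- the restriction of the conjugate to `(2, 6)`
  let U : Unit → Set ℝ := fun _ => Set.Ioo 2 6
  have hU : Good U := by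
    constructor
    · intro _ x y z hx hz hxy hyz
      exact ⟨lt_of_lt_of_le hx.1 hxy, lt_of_le_of_lt hyz hz.2⟩
    · intro i j _ _ _; rfl
  have hP : ∀ n : ℤ, Pres U (fun _ => tr (-(24 * n)) * f * tr (24 * n)) := by
    intro n _ x
    change x ∈ Set.Ioo (2 : ℝ) 6 ↔ f (x + 24 * n) + -(24 * n) ∈ Set.Ioo (2 : ℝ) 6
    constructor
    · intro hx
      have := F0_pres hf n (x := x + 24 * n) (by simpa using hx)
      rwa [sub_eq_add_neg] at this
    · intro hx
      have := F0_pres (F0_inv hf) n (x := f (x + 24 * n)) (by rwa [← sub_eq_add_neg] at hx)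
      rw [RelIso.inv_apply_self] at this
      simpa using this
  have hw : ∀ n : ℤ, glue U hU _ (hP n) ∈ Fx (Set.Ioo 2 6) := by
    intro n x hx
    exact glue_of_not_mem hU (hP n) (fun _ => hx)
  refine ⟨fun n => ⟨_, hw n⟩, ?_⟩
  ext x
  rw [E3]
  by_cases hx : ∃ k : ℤ, (tr 8 ^ (-k)) x ∈ V8
  · obtain ⟨k, hk⟩ := hx
    rw [Th_of_mem wand_tr _ k hk]
    have hk' := hk
    rw [tr_zpow_apply] at hk' ⊢
    rw [tr_zpow_apply]
    push_cast at hk' ⊢
    rcases three_cases k with ⟨n, rfl⟩ | ⟨n, rfl⟩ | ⟨n, rfl⟩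
    · rw [spread0]
      change f x = glue U hU _ (hP n) _ + _
      by_cases h26 : x + -(3 * n : ℤ) * 8 ∈ Set.Ioo (2 : ℝ) 6
      · rw [glue_of_mem hU (hP n) (i := ()) h26]
        change f x = f (x + -(3 * n : ℤ) * 8 + 24 * n) + -(24 * n) + _
        have e1 : x + -((3 * n : ℤ) : ℝ) * 8 + 24 * n = x := by push_cast; ring
        rw [e1]; push_cast; ring
      · rw [glue_of_not_mem hU (hP n) (fun _ => h26)]
        have e1 : x + -((3 * n : ℤ) : ℝ) * 8 + ((3 * n : ℤ) : ℝ) * 8 = x := by ring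
        rw [e1]
        apply hf
        intro m hm
        apply h26
        push_cast at hk' ⊢
        obtain ⟨h1, h2⟩ := hk'
        obtain ⟨h3, h4⟩ := hm
        have h5 : ((-1 : ℤ) : ℝ) < m - n := by push_cast; linarith
        have h6 : ((m : ℝ) - n) < ((1 : ℤ) : ℝ) := by push_cast; linarith
        have h7 : (-1 : ℤ) < m - n := by exact_mod_cast h5
        have h8 : m - n < (1 : ℤ) := by exact_mod_cast h6
        have h9 : m = n := by omega
        subst h9
        constructor <;> linarith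
    · rw [spread1]
      change f x = x + _ + _
      have e1 : x + -((3 * n + 1 : ℤ) : ℝ) * 8 + ((3 * n + 1 : ℤ) : ℝ) * 8 = x := by ring
      rw [e1]
      apply hf
      rintro m ⟨h3, h4⟩
      obtain ⟨h1, h2⟩ := hk'
      push_cast at h1 h2
      have h5 : ((0 : ℤ) : ℝ) < m - n := by push_cast; linarith
      have h6 : ((m : ℝ) - n) < ((1 : ℤ) : ℝ) := by push_cast; linarith
      have h7 : (0 : ℤ) < m - n := by exact_mod_cast h5
      have h8 : m - n < (1 : ℤ) := by exact_mod_cast h6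
      omega
    · rw [spread2]
      change f x = x + _ + _
      have e1 : x + -((3 * n + 2 : ℤ) : ℝ) * 8 + ((3 * n + 2 : ℤ) : ℝ) * 8 = x := by ring
      rw [e1]
      apply hf
      rintro m ⟨h3, h4⟩
      obtain ⟨h1, h2⟩ := hk'
      push_cast at h1 h2
      have h5 : ((0 : ℤ) : ℝ) < m - n := by push_cast; linarith
      have h6 : ((m : ℝ) - n) < ((1 : ℤ) : ℝ) := by push_cast; linarith
      have h7 : (0 : ℤ) < m - n := by exact_mod_cast h5
      have h8 : m - n < (1 : ℤ) := by exact_mod_cast h6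
      omega
  · have hx' : ∀ k : ℤ, (tr 8 ^ (-k)) x ∉ V8 := fun k hk => hx ⟨k, hk⟩
    rw [Th_of_not_mem wand_tr _ hx']
    apply hf
    rintro m ⟨h3, h4⟩
    apply hx' (3 * m)
    rw [tr_zpow_apply]
    push_cast
    constructor <;> linarith

/-- Countably many elements of `F0` lie in the group generated by the translation by `2` and one
more element. -/
theorem theoremA (C : Set G) (hC : C.Countable) (hF : C ⊆ F0) :
    ∃ g : G, C ⊆ (Subgroup.closure ({tr 2, g} : Set G) : Set G) := by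
  rcases C.eq_empty_or_nonempty with rfl | hne
  · exact ⟨1, Set.empty_subset _⟩
  obtain ⟨e, he⟩ := hC.exists_eq_range hne
  have heF : ∀ i, e i ∈ F0 := fun i => hF (by rw [he]; exact ⟨i, rfl⟩)
  choose w hw using fun i => F0_rep (heF i)
  obtain ⟨u, hu⟩ := block
  choose b hb using fun n : ℤ => hu (fun i => w i n)
  refine ⟨Th wand_tr (gam b (fun _ => u)), ?_⟩
  set W := Subgroup.closure ({tr 2, Th wand_tr (gam b (fun _ => u))} : Set G) with hW
  have hT : tr 2 ∈ W := Subgroup.subset_closure (Or.inl rfl)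
  have hg : Th wand_tr (gam b (fun _ => u)) ∈ W := Subgroup.subset_closure (Or.inr rfl)
  have hR : tr 8 ∈ W := by
    have h1 : tr 2 ^ (4 : ℤ) = tr 8 := by rw [tr_zpow]; norm_num
    rw [← h1]; exact W.zpow_mem hT _
  rw [he]
  rintro _ ⟨i, rfl⟩
  rw [hw i]
  set u' : ℤ → Fx V8 := fun _ => u with hu'
  have key : (fun n => inc (w i n)) ∈ W.comap E3Hom := by
    have h1 : (fun n => inc (w i n)) =
        ⁅u' ^ (-(2 : ℤ) ^ (i + 1)) * b * u' ^ ((2 : ℤ) ^ (i + 1)),
          u' ^ (-(2 : ℤ) ^ 0) * b * u' ^ ((2 : ℤ) ^ 0)⁆ := by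
      funext n
      rw [hb n i]
      rfl
    rw [h1]
    apply comm_mem (W.comap E3Hom) (W_b W b u' hR hg) (W_u W b u' hR hg) (W_comm W b u' hR hg)
    · have hb1 : b ∈ Subgroup.closure ({b, u'} : Set (ℤ → Fx V8)) :=
        Subgroup.subset_closure (Or.inl rfl)
      have hu1 : u' ∈ Subgroup.closure ({b, u'} : Set (ℤ → Fx V8)) :=
        Subgroup.subset_closure (Or.inr rfl)
      exact Subgroup.mul_mem _ (Subgroup.mul_mem _ (Subgroup.zpow_mem _ hu1 _) hb1)
        (Subgroup.zpow_mem _ hu1 _)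
    · have hb1 : b ∈ Subgroup.closure ({b, u'} : Set (ℤ → Fx V8)) :=
        Subgroup.subset_closure (Or.inl rfl)
      have hu1 : u' ∈ Subgroup.closure ({b, u'} : Set (ℤ → Fx V8)) :=
        Subgroup.subset_closure (Or.inr rfl)
      exact Subgroup.mul_mem _ (Subgroup.mul_mem _ (Subgroup.zpow_mem _ hu1 _) hb1)
        (Subgroup.zpow_mem _ hu1 _)
  exact key

end Pool.Agent.W345.TG
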