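import Mathlib
import Pool.Agent.W345.TG3

set_option autoImplicit false

namespace Pool.Agent.W345.TG

/-- Elements which are products of translations by `2` and of finitely (or countably) many
elements of `F0`. -/
def Red : Subgroup G where
  carrier := {s | ∃ F : Set G, F.Countable ∧ F ⊆ F0 ∧
    ∀ W : Subgroup G, tr 2 ∈ W → F ⊆ (W : Set G) → s ∈ W}
  one_mem' := ⟨∅, Set.countable_empty, Set.empty_subset _, fun W _ _ => W.one_mem⟩
  mul_mem' := by
    rintro a b ⟨F, hF, hF0, hFW⟩ ⟨F', hF', hF0', hFW'⟩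
    refine ⟨F ∪ F', hF.union hF', Set.union_subset hF0 hF0', fun W hT hW => ?_⟩
    exact W.mul_mem (hFW W hT (Set.subset_union_left.trans hW))
      (hFW' W hT (Set.subset_union_right.trans hW))
  inv_mem' := by
    rintro a ⟨F, hF, hF0, hFW⟩
    exact ⟨F, hF, hF0, fun W hT hW => W.inv_mem (hFW W hT hW)⟩

theorem tr_mem_Red (k : ℤ) : tr (2 * k) ∈ Red := by
  have h : tr 2 ∈ Red := ⟨∅, Set.countable_empty, Set.empty_subset _, fun W h _ => h⟩
  have := Red.zpow_mem h k
  rw [tr_zpow] at this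
  convert this using 2
  ring

theorem F0_mem_Red {f : G} (hf : f ∈ F0) : f ∈ Red :=
  ⟨{f}, Set.countable_singleton _, by simpa using hf, fun W _ h => h rfl⟩

/-- the intervals of one class -/
def UI (ε : ℝ) (l : ℕ) (k : ℤ) : Set ℝ := Set.Ico (24 * k + 2 * l - ε) (24 * k + 2 * l + 2 - ε)

theorem UI_good (ε : ℝ) (l : ℕ) : Good (UI ε l) where
  conn := by
    intro i x y z hx hz hxy hyz
    exact ⟨le_trans hx.1 hxy, lt_of_le_of_lt hyz hz.2⟩
  disj := by
    rintro i j x ⟨h1, h2⟩ ⟨h3, h4⟩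
    have h5 : ((-1 : ℤ) : ℝ) < i - j := by push_cast; linarith
    have h6 : ((i : ℝ) - j) < ((1 : ℤ) : ℝ) := by push_cast; linarith
    have h7 : (-1 : ℤ) < i - j := by exact_mod_cast h5
    have h8 : i - j < (1 : ℤ) := by exact_mod_cast h6
    omega

theorem fix_pres {ε : ℝ} {φ : G} (hφ : ∀ n : ℤ, φ (2 * n - ε) = 2 * n - ε) (m : ℤ) (x : ℝ) :
    x ∈ Set.Ico (2 * m - ε) (2 * m + 2 - ε) ↔ φ x ∈ Set.Ico (2 * m - ε) (2 * m + 2 - ε) := by
  have h1 := hφ m
  have h2 := hφ (m + 1)
  push_cast at h2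
  have h3 : φ (2 * m + 2 - ε) = 2 * m + 2 - ε := by
    have : (2 : ℝ) * (m + 1) - ε = 2 * m + 2 - ε := by ring
    rwa [this] at h2
  constructor
  · rintro ⟨ha, hb⟩
    refine ⟨?_, ?_⟩
    · rw [← h1]; exact φ.monotone ha
    · rw [← h3]; exact φ.strictMono hb
  · rintro ⟨ha, hb⟩
    rw [← h1] at ha
    rw [← h3] at hb
    exact ⟨φ.le_iff_le.mp ha, φ.lt_iff_lt.mp hb⟩

theorem UI_pres {ε : ℝ} {φ : G} (hφ : ∀ n : ℤ, φ (2 * n - ε) = 2 * n - ε) (l : ℕ) :
    Pres (UI ε l) (fun _ => φ) := by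
  intro k x
  have := fix_pres hφ (12 * k + l) x
  unfold UI
  push_cast at this
  have e : (2 : ℝ) * (12 * k + l) = 24 * k + 2 * l := by ring
  rw [e] at this
  exact this

/-- one piece -/
noncomputable def piece {ε : ℝ} {φ : G} (hφ : ∀ n : ℤ, φ (2 * n - ε) = 2 * n - ε) (l : ℕ) : G :=
  glue (UI ε l) (UI_good ε l) (fun _ => φ) (UI_pres hφ l)

theorem piece_mem {ε : ℝ} (h0 : 0 ≤ ε) (h1 : ε ≤ 1) {φ : G}
    (hφ : ∀ n : ℤ, φ (2 * n - ε) = 2 * n - ε) (l : ℕ) : piece hφ l ∈ Red := by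
  have key : tr (2 * ((2 - l : ℤ) : ℝ)) * piece hφ l * tr (2 * ((l - 2 : ℤ) : ℝ)) ∈ F0 := by
    intro x hx
    rw [RelIso.mul_apply, RelIso.mul_apply, tr_apply, tr_apply]
    have h2 : ∀ k, x + 2 * ((l - 2 : ℤ) : ℝ) ∉ UI ε l k := by
      rintro k ⟨h3, h4⟩
      apply hx k
      push_cast at h3 h4
      constructor <;> linarith
    rw [piece, glue_of_not_mem (UI_good ε l) (UI_pres hφ l) h2]
    push_cast; ring
  have h2 := F0_mem_Red key
  have h3 := Red.mul_mem (Red.mul_mem (tr_mem_Red (l - 2)) h2) (tr_mem_Red (2 - l))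
  convert h3 using 1
  ext x
  simp only [RelIso.mul_apply, tr_apply]
  have e1 : x + 2 * ((2 - (l : ℤ) : ℤ) : ℝ) + 2 * (((l : ℤ) - 2 : ℤ) : ℝ) = x := by
    push_cast; ring
  rw [e1]
  push_cast; ring

/-- the product of the first `j` pieces -/
noncomputable def prodPieces {ε : ℝ} {φ : G} (hφ : ∀ n : ℤ, φ (2 * n - ε) = 2 * n - ε) : ℕ → G
  | 0 => 1
  | j + 1 => piece hφ j * prodPieces hφ j

theorem prodPieces_mem {ε : ℝ} (h0 : 0 ≤ ε) (h1 : ε ≤ 1) {φ : G}
    (hφ : ∀ n : ℤ, φ (2 * n - ε) = 2 * n - ε) (j : ℕ) : prodPieces hφ j ∈ Red := by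
  induction j with
  | zero => exact Red.one_mem
  | succ j ih => exact Red.mul_mem (piece_mem h0 h1 hφ j) ih

theorem prodPieces_apply {ε : ℝ} {φ : G} (hφ : ∀ n : ℤ, φ (2 * n - ε) = 2 * n - ε) (m : ℤ) (x : ℝ)
    (hx : x ∈ Set.Ico (2 * m - ε) (2 * m + 2 - ε)) (j : ℕ) (hj : j ≤ 12) :
    prodPieces hφ j x = if m % 12 < j then φ x else x := by
  have hcls : ∀ (y : ℝ) (l : ℕ), y ∈ Set.Ico (2 * m - ε) (2 * m + 2 - ε) → l < 12 →
      piece hφ l y = if m % 12 = l then φ y else y := by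
    intro y l hy hl
    by_cases hml : m % 12 = l
    · rw [if_pos hml, piece, glue_of_mem (UI_good ε l) (UI_pres hφ l) (i := m / 12)]
      have e : (m : ℝ) = 12 * ((m / 12 : ℤ) : ℝ) + l := by
        have : m = 12 * (m / 12) + l := by omega
        exact_mod_cast this
      unfold UI
      rw [e] at hy
      constructor
      · have := hy.1; linarith
      · have := hy.2; linarith
    · rw [if_neg hml, piece, glue_of_not_mem (UI_good ε l) (UI_pres hφ l)]
      rintro k ⟨h3, h4⟩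
      apply hml
      obtain ⟨h1, h2⟩ := hy
      have h5 : ((-1 : ℤ) : ℝ) < 12 * k + l - m := by push_cast; linarith
      have h6 : (12 * k + l - m : ℝ) < ((1 : ℤ) : ℝ) := by push_cast; linarith
      have h7 : (-1 : ℤ) < 12 * k + l - m := by exact_mod_cast h5
      have h8 : 12 * k + l - m < (1 : ℤ) := by exact_mod_cast h6
      omega
  induction j with
  | zero =>
    have : ¬ m % 12 < ((0 : ℕ) : ℤ) := by push_cast; omega
    rw [if_neg this]; rfl
  | succ j ih =>
    change piece hφ j (prodPieces hφ j x) = _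
    rw [ih (by omega)]
    by_cases h1 : m % 12 < j
    · rw [if_pos h1, if_pos (by push_cast; omega), hcls _ j ((fix_pres hφ m x).mp hx) (by omega),
        if_neg (by omega)]
    · rw [if_neg h1, hcls x j hx (by omega)]
      by_cases h2 : m % 12 = j
      · rw [if_pos h2, if_pos (by push_cast; omega)]
      · rw [if_neg h2, if_neg (by push_cast; omega)]

/-- Automorphisms which fix all `2 n - ε` are in `Red`. -/
theorem fix_mem_Red {ε : ℝ} (h0 : 0 ≤ ε) (h1 : ε ≤ 1) {φ : G}
    (hφ : ∀ n : ℤ, φ (2 * n - ε) = 2 * n - ε) : φ ∈ Red := by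
  have h2 : φ = prodPieces hφ 12 := by
    ext x
    let m : ℤ := ⌊(x + ε) / 2⌋
    have hm1 : (m : ℝ) ≤ (x + ε) / 2 := Int.floor_le _
    have hm2 : (x + ε) / 2 < m + 1 := Int.lt_floor_add_one _
    rw [prodPieces_apply hφ m x ⟨by linarith, by linarith⟩ 12 le_rfl, if_pos]
    push_cast
    omega
  rw [h2]
  exact prodPieces_mem h0 h1 hφ 12

/-- first step: make all even integers of absolute value at least `N` fixed -/
theorem step1 {s : G} (N : ℕ) (hs : ∀ n : ℤ, (N : ℤ) ≤ |n| → |s n - n| < 1) :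
    ∃ a ∈ Red, ∀ j : ℤ, (N : ℤ) ≤ |2 * j| → a (s (2 * j)) = 2 * j := by
  have h1 : ∀ j : ℤ, ∃ φ : G, φ ∈ Fx (Set.Ioo (2 * j - 1 : ℝ) (2 * j + 1)) ∧
      ((N : ℤ) ≤ |2 * j| → φ (s (2 * j)) = 2 * j) := by
    intro j
    by_cases hj : (N : ℤ) ≤ |2 * j|
    · have h2 := hs (2 * j) hj
      push_cast at h2
      rw [abs_lt] at h2
      obtain ⟨φ, hφ1, hφ2⟩ := pl (a := 2 * j - 1) (p := s (2 * j)) (q := 2 * j) (b := 2 * j + 1)
        (by linarith) (by linarith) (by linarith) (by linarith)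
      exact ⟨φ, hφ1, fun _ => hφ2⟩
    · exact ⟨1, Subgroup.one_mem _, fun h => absurd h hj⟩
  choose φ hφ1 hφ2 using h1
  let U : ℤ → Set ℝ := fun j => Set.Ioo (2 * j - 1 : ℝ) (2 * j + 1)
  have hU : Good U := by
    constructor
    · intro i x y z hx hz hxy hyz
      exact ⟨lt_of_lt_of_le hx.1 hxy, lt_of_le_of_lt hyz hz.2⟩
    · rintro i j x ⟨h1, h2⟩ ⟨h3, h4⟩
      have h5 : ((-1 : ℤ) : ℝ) < i - j := by push_cast; linarith
      have h6 : ((i : ℝ) - j) < ((1 : ℤ) : ℝ) := by push_cast; linarith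
      have h7 : (-1 : ℤ) < i - j := by exact_mod_cast h5
      have h8 : i - j < (1 : ℤ) := by exact_mod_cast h6
      omega
  have hP : Pres U φ := by
    intro j x
    constructor
    · intro hx; exact Fx_maps (hφ1 j) hx
    · intro hx
      by_contra hcon
      have := hφ1 j x hcon
      rw [this] at hx
      exact hcon hx
  refine ⟨glue U hU φ hP, ?_, ?_⟩
  · apply fix_mem_Red (ε := 1) (by norm_num) le_rfl
    intro n
    apply glue_of_not_mem
    rintro i ⟨h1, h2⟩
    have h5 : ((-1 : ℤ) : ℝ) < n - 1 - i := by push_cast; linarith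
    have h6 : ((n : ℝ) - 1 - i) < ((0 : ℤ) : ℝ) := by push_cast; linarith
    have h7 : (-1 : ℤ) < n - 1 - i := by exact_mod_cast h5
    have h8 : n - 1 - i < (0 : ℤ) := by exact_mod_cast h6
    omega
  · intro j hj
    have h2 := hs (2 * j) hj
    push_cast at h2
    rw [abs_lt] at h2
    rw [glue_of_mem hU hP (i := j)]
    · exact hφ2 j hj
    · exact ⟨by linarith, by linarith⟩

theorem mem_Red_zero {s : G} (hs : ∀ n : ℤ, |s n - n| < 1) : s ∈ Red := by
  obtain ⟨a, ha, haf⟩ := step1 (s := s) 0 (fun n _ => hs n)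
  have h1 : a * s ∈ Red := by
    apply fix_mem_Red (ε := 0) le_rfl (by norm_num)
    intro n
    rw [RelIso.mul_apply, sub_zero]
    exact haf n (by positivity)
  have h2 := Red.mul_mem (Red.inv_mem ha) h1
  rwa [inv_mul_cancel_left] at h2

/-- the expanding map -/
noncomputable def Ex : G :=
  StrictMono.orderIsoOfSurjective (fun x : ℝ => x + max (-1 / 2) (min (1 / 2) x))
    (by
      intro x y hxy
      have h1 : max (-1 / 2 : ℝ) (min (1 / 2) x) ≤ max (-1 / 2) (min (1 / 2) y) :=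
        max_le_max le_rfl (min_le_min le_rfl hxy.le)
      dsimp only
      linarith)
    (by
      intro y
      rcases le_total y (-1) with h | h
      · refine ⟨y + 1 / 2, ?_⟩
        dsimp only
        rw [min_eq_right (by linarith), max_eq_left (by linarith)]; ring
      · rcases le_total y 1 with h' | h'
        · refine ⟨y / 2, ?_⟩
          dsimp only
          rw [min_eq_right (by linarith), max_eq_right (by linarith)]; ring
        · refine ⟨y - 1 / 2, ?_⟩
          dsimp only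
          rw [min_eq_left (by linarith), max_eq_right (by linarith)]; ring)

theorem Ex_apply (x : ℝ) : Ex x = x + max (-1 / 2) (min (1 / 2) x) := rfl

theorem Ex_mem : Ex ∈ Red := by
  apply mem_Red_zero
  intro n
  rw [Ex_apply, add_sub_cancel_left, abs_lt]
  constructor
  · exact lt_of_lt_of_le (by norm_num) (le_max_left _ _)
  · refine lt_of_le_of_lt (max_le ?_ (min_le_left _ _)) (by norm_num : (1 / 2 : ℝ) < 1)
    norm_num

theorem Ex_pow_ge (k : ℕ) {x : ℝ} (hx : 1 ≤ x) : 1 + k / 2 ≤ (Ex ^ k) x := by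
  induction k with
  | zero => simpa using hx
  | succ k ih =>
    rw [pow_succ', RelIso.mul_apply, Ex_apply]
    have h0 : (0 : ℝ) ≤ k := Nat.cast_nonneg k
    rw [min_eq_left (by linarith), max_eq_right (by norm_num)]
    push_cast
    linarith

theorem Ex_pow_le (k : ℕ) {x : ℝ} (hx : x ≤ -1) : (Ex ^ k) x ≤ -(1 + k / 2) := by
  induction k with
  | zero => simpa using hx
  | succ k ih =>
    rw [pow_succ', RelIso.mul_apply, Ex_apply]
    have h0 : (0 : ℝ) ≤ k := Nat.cast_nonneg k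
    rw [min_eq_right (by linarith), max_eq_left (by linarith)]
    push_cast
    linarith

theorem compact_mem_Red {c : G} (M : ℕ) (hc : c ∈ Fx (Set.Ioo (-(M : ℝ)) M)) : c ∈ Red := by
  have h1 : (Ex ^ (2 * M))⁻¹ * c * Ex ^ (2 * M) ∈ Red := by
    apply mem_Red_zero
    have h2 : ∀ x : ℝ, x ≤ -1 ∨ 1 ≤ x → ((Ex ^ (2 * M))⁻¹ * c * Ex ^ (2 * M)) x = x := by
      intro x hx
      rw [RelIso.mul_apply, RelIso.mul_apply]
      have h3 : c ((Ex ^ (2 * M)) x) = (Ex ^ (2 * M)) x := by
        apply hc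
        rintro ⟨h4, h5⟩
        rcases hx with hx | hx
        · have := Ex_pow_le (2 * M) hx
          push_cast at this
          linarith
        · have := Ex_pow_ge (2 * M) hx
          push_cast at this
          linarith
      rw [h3]
      exact RelIso.inv_apply_self _ x
    intro n
    rcases lt_trichotomy n 0 with h | h | h
    · rw [h2 n (Or.inl (by exact_mod_cast (by omega : n ≤ -1)))]; simp
    · subst h
      have h3 := h2 (-1) (Or.inl le_rfl)
      have h4 := h2 1 (Or.inr le_rfl)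
      have h5 := ((Ex ^ (2 * M))⁻¹ * c * Ex ^ (2 * M)).strictMono (show (-1 : ℝ) < 0 by norm_num)
      have h6 := ((Ex ^ (2 * M))⁻¹ * c * Ex ^ (2 * M)).strictMono (show (0 : ℝ) < 1 by norm_num)
      rw [h3] at h5
      rw [h4] at h6
      push_cast
      rw [abs_lt]
      constructor <;> linarith
    · rw [h2 n (Or.inr (by exact_mod_cast (by omega : 1 ≤ n)))]; simp
  have h2 := Red.mul_mem (Red.mul_mem (Red.pow_mem Ex_mem (2 * M)) h1)
    (Red.inv_mem (Red.pow_mem Ex_mem (2 * M)))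
  convert h2 using 1
  group

theorem mem_Red {s : G} (N : ℕ) (hs : ∀ n : ℤ, (N : ℤ) ≤ |n| → |s n - n| < 1) : s ∈ Red := by
  obtain ⟨a, ha, haf⟩ := step1 N hs
  set b := a * s with hb
  have hbf : ∀ j : ℤ, (N : ℤ) ≤ |2 * j| → b (2 * j) = 2 * j := fun j hj => haf j hj
  -- the interval `(-2 N, 2 N)`
  have e1 : b (2 * (N : ℝ)) = 2 * N := by
    have := hbf N (by rw [abs_of_nonneg (by positivity)]; omega)
    push_cast at this; exact this
  have e2 : b (-(2 * (N : ℝ))) = -(2 * N) := by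
    have := hbf (-N) (by rw [abs_of_nonpos (by omega)]; omega)
    push_cast at this
    have e3 : (2 : ℝ) * -(N : ℝ) = -(2 * N) := by ring
    rwa [e3] at this
  let U : Unit → Set ℝ := fun _ => Set.Ioo (-(2 * (N : ℝ))) (2 * N)
  have hU : Good U := by
    constructor
    · intro _ x y z hx hz hxy hyz
      exact ⟨lt_of_lt_of_le hx.1 hxy, lt_of_le_of_lt hyz hz.2⟩
    · intro i j _ _ _; rfl
  have hP : Pres U (fun _ => b) := by
    intro _ x
    constructor
    · rintro ⟨h1, h2⟩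
      refine ⟨?_, ?_⟩
      · rw [← e2]; exact b.strictMono h1
      · rw [← e1]; exact b.strictMono h2
    · rintro ⟨h1, h2⟩
      rw [← e2] at h1
      rw [← e1] at h2
      exact ⟨b.lt_iff_lt.mp h1, b.lt_iff_lt.mp h2⟩
  set c := glue U hU _ hP with hc
  have hcF : c ∈ Fx (Set.Ioo (-((2 * N : ℕ) : ℝ)) ((2 * N : ℕ) : ℝ)) := by
    intro x hx
    apply glue_of_not_mem
    intro _ h
    apply hx
    push_cast
    exact h
  have hcR : c ∈ Red := compact_mem_Red (2 * N) hcF
  have hb' : c⁻¹ * b ∈ Red := by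
    apply fix_mem_Red (ε := 0) le_rfl (by norm_num)
    intro n
    rw [sub_zero, RelIso.mul_apply]
    by_cases hn : (2 * (n : ℝ)) ∈ Set.Ioo (-(2 * (N : ℝ))) (2 * N)
    · have : c (2 * n) = b (2 * n) := glue_of_mem hU hP (i := ()) hn
      rw [← this]
      exact RelIso.inv_apply_self c _
    · have h1 : b (2 * n) = 2 * n := by
        apply hbf
        by_contra hcon
        push Not at hcon
        apply hn
        rw [abs_lt] at hcon
        obtain ⟨h3, h4⟩ := hcon
        have h5 : -(N : ℤ) < n := by omega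
        have h6 : n < (N : ℤ) := by omega
        have h5' : -(N : ℝ) < n := by exact_mod_cast h5
        have h6' : (n : ℝ) < N := by exact_mod_cast h6
        constructor <;> linarith
      rw [h1]
      have h2 : c (2 * n) = 2 * n := glue_of_not_mem hU hP (fun _ => hn)
      conv_lhs => rw [← h2]
      exact RelIso.inv_apply_self c _
  have h3 := Red.mul_mem (Red.mul_mem (Red.inv_mem ha) hcR) hb'
  convert h3 using 1
  rw [hb]; group

end Pool.Agent.W345.TG
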