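import Mathlib
import Pool.Agent.W345.TG4

set_option autoImplicit false

namespace Pool.Agent.W345.TG

/-- Interpolation: a strictly increasing two sided sequence without bounds is the restriction to
the integers of an order automorphism. -/
theorem interp (x : ℤ → ℝ) (hx : StrictMono x) (hup : ∀ y, ∃ n, y < x n)
    (hlo : ∀ y, ∃ n, x n ≤ y) : ∃ θ : G, ∀ n : ℤ, θ n = x n := by
  let F : ℝ → ℝ := fun t => x ⌊t⌋ + Int.fract t * (x (⌊t⌋ + 1) - x ⌊t⌋)
  have hpos : ∀ n : ℤ, 0 < x (n + 1) - x n := fun n => by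
    have := hx (show n < n + 1 by omega)
    linarith
  have hF1 : ∀ t, x ⌊t⌋ ≤ F t := by
    intro t
    have := mul_nonneg (Int.fract_nonneg t) (hpos ⌊t⌋).le
    dsimp only [F]; linarith
  have hF2 : ∀ t, F t < x (⌊t⌋ + 1) := by
    intro t
    have := mul_lt_mul_of_pos_right (Int.fract_lt_one t) (hpos ⌊t⌋)
    dsimp only [F]; linarith
  have hmono : StrictMono F := by
    intro s t hst
    have hfl : ⌊s⌋ ≤ ⌊t⌋ := Int.floor_mono hst.le
    rcases hfl.eq_or_lt with h | h
    · have h1 : Int.fract s < Int.fract t := by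
        rw [Int.fract, Int.fract, h]; linarith
      dsimp only [F]
      rw [h]
      have := mul_lt_mul_of_pos_right h1 (hpos ⌊t⌋)
      linarith
    · have h1 : x (⌊s⌋ + 1) ≤ x ⌊t⌋ := hx.monotone (by omega)
      linarith [hF1 t, hF2 s]
  have hsurj : Function.Surjective F := by
    intro y
    obtain ⟨n, hn1, hn2⟩ : ∃ n : ℤ, x n ≤ y ∧ ∀ z : ℤ, x z ≤ y → z ≤ n := by
      obtain ⟨b, hb⟩ := hup y
      exact Int.exists_greatest_of_bdd ⟨b, fun z hz => by
        by_contra hcon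
        push Not at hcon
        linarith [hx hcon]⟩ (hlo y)
    have hn3 : y < x (n + 1) := by
      by_contra hcon
      push Not at hcon
      have := hn2 _ hcon
      omega
    refine ⟨n + (y - x n) / (x (n + 1) - x n), ?_⟩
    have h0 : 0 ≤ (y - x n) / (x (n + 1) - x n) := div_nonneg (by linarith) (hpos n).le
    have h1 : (y - x n) / (x (n + 1) - x n) < 1 := by
      rw [div_lt_one (hpos n)]; linarith
    have hfl : ⌊(n : ℝ) + (y - x n) / (x (n + 1) - x n)⌋ = n := by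
      rw [Int.floor_eq_iff]
      constructor <;> linarith
    dsimp only [F]
    rw [Int.fract, hfl]
    have := (hpos n).ne'
    field_simp
    ring
  refine ⟨StrictMono.orderIsoOfSurjective F hmono hsurj, fun n => ?_⟩
  change F n = x n
  dsimp only [F]
  simp

/-- growth sequence -/
noncomputable def ys (s : ℕ → G) : ℕ → ℝ
  | 0 => 0
  | n + 1 => ys s n + 1 + ∑ i ∈ Finset.range (n + 1),
      (|s i (ys s n)| + |s i (-ys s n)| + |(s i)⁻¹ (ys s n)| + |(s i)⁻¹ (-ys s n)|)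

theorem ys_succ (s : ℕ → G) (n : ℕ) : ys s (n + 1) = ys s n + 1 + ∑ i ∈ Finset.range (n + 1),
      (|s i (ys s n)| + |s i (-ys s n)| + |(s i)⁻¹ (ys s n)| + |(s i)⁻¹ (-ys s n)|) := rfl

theorem sum_nonneg' (s : ℕ → G) (n : ℕ) (m : ℕ) : 0 ≤ ∑ i ∈ Finset.range m,
      (|s i (ys s n)| + |s i (-ys s n)| + |(s i)⁻¹ (ys s n)| + |(s i)⁻¹ (-ys s n)|) :=
  Finset.sum_nonneg (fun i _ => by positivity)

theorem ys_lt (s : ℕ → G) (n : ℕ) : ys s n + 1 ≤ ys s (n + 1) := by
  rw [ys_succ]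
  have := sum_nonneg' s n (n + 1)
  linarith

theorem ys_mono (s : ℕ → G) : StrictMono (ys s) :=
  strictMono_nat_of_lt_succ (fun n => by linarith [ys_lt s n])

theorem ys_ge (s : ℕ → G) (n : ℕ) : (n : ℝ) ≤ ys s n := by
  induction n with
  | zero => simp [ys]
  | succ n ih => push_cast; linarith [ys_lt s n]

theorem ys_bound (s : ℕ → G) {i n : ℕ} (h : i ≤ n) :
    |s i (ys s n)| < ys s (n + 1) ∧ |s i (-ys s n)| < ys s (n + 1) ∧
    |(s i)⁻¹ (ys s n)| < ys s (n + 1) ∧ |(s i)⁻¹ (-ys s n)| < ys s (n + 1) := by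
  have h1 : (|s i (ys s n)| + |s i (-ys s n)| + |(s i)⁻¹ (ys s n)| + |(s i)⁻¹ (-ys s n)|) ≤
      ∑ i ∈ Finset.range (n + 1),
      (|s i (ys s n)| + |s i (-ys s n)| + |(s i)⁻¹ (ys s n)| + |(s i)⁻¹ (-ys s n)|) :=
    Finset.single_le_sum (f := fun i =>
      (|s i (ys s n)| + |s i (-ys s n)| + |(s i)⁻¹ (ys s n)| + |(s i)⁻¹ (-ys s n)|))
      (fun i _ => by positivity) (Finset.mem_range.mpr (by omega))
  rw [ys_succ]
  have h2 := ys_ge s n
  have h3 : (0 : ℝ) ≤ n := Nat.cast_nonneg n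
  have a1 := abs_nonneg (s i (ys s n))
  have a2 := abs_nonneg (s i (-ys s n))
  have a3 := abs_nonneg ((s i)⁻¹ (ys s n))
  have a4 := abs_nonneg ((s i)⁻¹ (-ys s n))
  refine ⟨by linarith, by linarith, by linarith, by linarith⟩

/-- the two sided sequence -/
noncomputable def xs (s : ℕ → G) (k : ℤ) : ℝ := if 0 ≤ k then ys s k.toNat else -ys s (-k).toNat

theorem xs_nat (s : ℕ → G) (n : ℕ) : xs s n = ys s n := by
  rw [xs, if_pos (by positivity)]; simp

theorem xs_neg (s : ℕ → G) (n : ℕ) : xs s (-n) = -ys s n := by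
  rcases n with _ | n
  · simp [xs, ys]
  · rw [xs, if_neg (by omega)]; simp

theorem xs_lt (s : ℕ → G) (k : ℤ) : xs s k < xs s (k + 1) := by
  rcases Int.eq_nat_or_neg k with ⟨n, rfl | rfl⟩
  · have := xs_nat s (n + 1)
    push_cast at this
    rw [this, xs_nat]
    linarith [ys_lt s n]
  · rcases n with _ | n
    · have := xs_nat s 1
      have h0 := xs_nat s 0
      push_cast at this h0
      simp only [Nat.cast_zero, neg_zero, zero_add]
      rw [this, h0]
      linarith [ys_lt s 0]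
    · have h1 : (-((n + 1 : ℕ) : ℤ) + 1) = -(n : ℤ) := by push_cast; ring
      rw [h1, xs_neg, xs_neg]
      linarith [ys_lt s n]

theorem xs_mono (s : ℕ → G) : StrictMono (xs s) := strictMono_int_of_lt_succ (xs_lt s)

theorem xs_bound (s : ℕ → G) (i : ℕ) (k : ℤ) (hk : ((i + 2 : ℕ) : ℤ) ≤ |k|) :
    xs s (k - 1) < s i (xs s k) ∧ s i (xs s k) < xs s (k + 1) := by
  rcases Int.eq_nat_or_neg k with ⟨n, rfl | rfl⟩
  · rw [abs_of_nonneg (by positivity)] at hk
    obtain ⟨m, rfl⟩ : ∃ m, n = m + 1 := ⟨n - 1, by omega⟩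
    have e1 : (((m + 1 : ℕ) : ℤ) - 1) = (m : ℤ) := by push_cast; ring
    have e2 : (((m + 1 : ℕ) : ℤ) + 1) = ((m + 2 : ℕ) : ℤ) := by push_cast; ring
    rw [e1, e2, xs_nat, xs_nat, xs_nat]
    constructor
    · have h := (ys_bound s (i := i) (n := m) (by omega)).2.2.1
      rw [abs_lt] at h
      have h2 := (s i).strictMono h.2
      rwa [RelIso.apply_inv_self] at h2
    · have h := (ys_bound s (i := i) (n := m + 1) (by omega)).1
      rw [abs_lt] at h
      exact h.2
  · rw [abs_of_nonpos (by omega), neg_neg] at hk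
    obtain ⟨m, rfl⟩ : ∃ m, n = m + 1 := ⟨n - 1, by omega⟩
    have e1 : (-((m + 1 : ℕ) : ℤ) - 1) = -((m + 2 : ℕ) : ℤ) := by push_cast; ring
    have e2 : (-((m + 1 : ℕ) : ℤ) + 1) = -((m : ℕ) : ℤ) := by push_cast; ring
    rw [e1, e2, xs_neg, xs_neg, xs_neg]
    constructor
    · have h := (ys_bound s (i := i) (n := m + 1) (by omega)).2.1
      rw [abs_lt] at h
      exact h.1
    · have h := (ys_bound s (i := i) (n := m) (by omega)).2.2.2
      rw [abs_lt] at h
      have h2 := (s i).strictMono h.1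
      rwa [RelIso.apply_inv_self] at h2

/-- Countably many order automorphisms lie in a group generated by two. -/
theorem main (s : ℕ → G) : ∃ f g : G, ∀ i, s i ∈ Subgroup.closure ({f, g} : Set G) := by
  obtain ⟨θ, hθ⟩ := interp (xs s) (xs_mono s)
    (by
      intro y
      obtain ⟨n, hn⟩ := exists_nat_gt y
      refine ⟨n, ?_⟩
      rw [xs_nat]
      linarith [ys_ge s n])
    (by
      intro y
      obtain ⟨n, hn⟩ := exists_nat_gt (-y)
      refine ⟨-n, ?_⟩
      rw [xs_neg]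
      linarith [ys_ge s n])
  have hred : ∀ i, θ⁻¹ * s i * θ ∈ Red := by
    intro i
    apply mem_Red (i + 2)
    intro k hk
    obtain ⟨h1, h2⟩ := xs_bound s i k hk
    rw [← hθ, ← hθ] at h1 h2
    have h3 := (θ⁻¹).strictMono h1
    have h4 := (θ⁻¹).strictMono h2
    rw [RelIso.inv_apply_self] at h3 h4
    rw [RelIso.mul_apply, RelIso.mul_apply, abs_lt]
    push_cast at h3 h4
    constructor <;> linarith
  choose F hFc hF0 hFW using hred
  obtain ⟨g, hg⟩ := theoremA (⋃ i, F i) (Set.countable_iUnion hFc) (Set.iUnion_subset hF0)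
  refine ⟨θ * tr 2 * θ⁻¹, θ * g * θ⁻¹, fun i => ?_⟩
  have h1 : θ⁻¹ * s i * θ ∈ Subgroup.closure ({tr 2, g} : Set G) :=
    hFW i _ (Subgroup.subset_closure (Or.inl rfl)) ((Set.subset_iUnion F i).trans hg)
  have h2 := Subgroup.mem_map_of_mem (MulAut.conj θ).toMonoidHom h1
  rw [MonoidHom.map_closure] at h2
  have h3 : (MulAut.conj θ).toMonoidHom (θ⁻¹ * s i * θ) = s i := by
    simp only [MulEquiv.toMonoidHom_eq_coe, MonoidHom.coe_coe, MulAut.conj_apply]
    group
  rw [h3] at h2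
  rw [Set.image_insert_eq, Set.image_singleton] at h2
  exact h2

end Pool.Agent.W345.TG
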