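import Mathlib
import Pool.Agent.W544.EG.Stubs
import Pool.Agent.Helper472.Lat_TTL
import Pool.Agent.Helper472.Lat_CST2

/-!
# The torus part `S_TS → S_T`
-/

set_option autoImplicit false

open Matrix MeasureTheory
open scoped Matrix.Norms.Frobenius ContDiff

namespace Pool.Agent.W345.EGT

open Pool.Agent.W544.EG

/-! ### covering of balls -/

theorem exists_cover (m : ℕ) (s : ℝ) (hs : 0 < s) :
    ∃ J : Finset (EuclideanSpace ℝ (Fin m)), J.card ≤ 5 ^ m ∧
      ∀ a : EuclideanSpace ℝ (Fin m), ‖a‖ ≤ 2 * s → ∃ c ∈ J, ‖a - c‖ ≤ s := by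
  classical
  set E := EuclideanSpace ℝ (Fin m)
  let P : Finset E → Prop := fun J => (∀ c ∈ J, ‖c‖ ≤ 2) ∧ ∀ c ∈ J, ∀ d ∈ J, c ≠ d → 1 ≤ ‖c - d‖
  have hb : ∀ J, P J → J.card ≤ 5 ^ m := by
    intro J hJ
    have := Besicovitch.card_le_of_separated J hJ.1 hJ.2
    simpa [E] using this
  have hex : ∃ k, ∃ J, P J ∧ J.card = k := ⟨0, ∅, ⟨by simp, by simp⟩, by simp⟩
  have hbdd : ∀ k, (∃ J, P J ∧ J.card = k) → k ≤ 5 ^ m := by
    rintro k ⟨J, hJ, rfl⟩
    exact hb J hJ
  obtain ⟨J, hJ, hJc⟩ := Nat.findGreatest_spec (P := fun k => ∃ J, P J ∧ J.card = k) (n := 5 ^ m)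
    (Nat.zero_le _) (⟨∅, ⟨by simp, by simp⟩, by simp⟩ : ∃ J, P J ∧ J.card = 0)
  have hmax : ∀ J', P J' → J'.card ≤ J.card := by
    intro J' hJ'
    rw [hJc]
    exact Nat.le_findGreatest (hb J' hJ') ⟨J', hJ', rfl⟩
  have hcov : ∀ a : E, ‖a‖ ≤ 2 → ∃ c ∈ J, ‖a - c‖ < 1 := by
    intro a ha
    by_contra hcon
    push Not at hcon
    have haJ : a ∉ J := fun h => by
      have := hcon a h
      simp at this
      linarith
    have hP : P (insert a J) := by
      refine ⟨?_, ?_⟩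
      · intro c hc
        rcases Finset.mem_insert.1 hc with rfl | h
        · exact ha
        · exact hJ.1 c h
      · intro c hc d hd hcd
        rcases Finset.mem_insert.1 hc with rfl | h
        · rcases Finset.mem_insert.1 hd with rfl | h'
          · exact absurd rfl hcd
          · exact hcon d h'
        · rcases Finset.mem_insert.1 hd with rfl | h'
          · rw [norm_sub_rev]
            exact hcon c h
          · exact hJ.2 c h d h' hcd
    have := hmax _ hP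
    rw [Finset.card_insert_of_notMem haJ] at this
    omega
  refine ⟨J.image (fun c => s • c), (Finset.card_image_le).trans (hb J hJ), ?_⟩
  intro a ha
  obtain ⟨c, hc, hac⟩ := hcov (s⁻¹ • a) (by
    rw [norm_smul, norm_inv, Real.norm_of_nonneg hs.le, inv_mul_le_iff₀ hs]
    linarith)
  refine ⟨s • c, Finset.mem_image_of_mem _ hc, ?_⟩
  have : a - s • c = s • (s⁻¹ • a - c) := by
    rw [smul_sub, smul_smul, mul_inv_cancel₀ hs.ne', one_smul]
  rw [this, norm_smul, Real.norm_of_nonneg hs.le]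
  nlinarith [norm_nonneg (s⁻¹ • a - c)]

/-! ### Lie algebra -/

variable {N : ℕ} {G : Subgroup (unitaryGroup (Fin N) ℂ)}

theorem skew_of_mem {X : Mat N} (hX : X ∈ LieAlg G) : Xᴴ = -X := by
  have h : ∀ t : ℝ, NormedSpace.exp (t • Xᴴ) * NormedSpace.exp (t • X) = 1 := by
    intro t
    obtain ⟨u, hu, hue⟩ := hX t
    have h1 := Matrix.mem_unitaryGroup_iff'.1 u.2
    rw [hue, Matrix.star_eq_conjTranspose, ← Matrix.exp_conjTranspose,
      Matrix.conjTranspose_smul, star_trivial] at h1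
    exact h1
  have hd1 : HasDerivAt (fun t : ℝ => NormedSpace.exp (t • Xᴴ)) (NormedSpace.exp ((0 : ℝ) • Xᴴ) * Xᴴ) 0 :=
    hasDerivAt_exp_smul_const Xᴴ (0 : ℝ)
  have hd2 : HasDerivAt (fun t : ℝ => NormedSpace.exp (t • X)) (NormedSpace.exp ((0 : ℝ) • X) * X) 0 :=
    hasDerivAt_exp_smul_const X (0 : ℝ)
  have hd := hd1.mul hd2
  have hc : HasDerivAt (fun _ : ℝ => (1 : Mat N)) 0 0 := hasDerivAt_const _ _
  have he : (fun t : ℝ => NormedSpace.exp (t • Xᴴ)) * (fun t : ℝ => NormedSpace.exp (t • X)) =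
      fun _ => (1 : Mat N) := by
    ext1 t
    exact h t
  rw [he] at hd
  have := hd.unique hc
  simp only [zero_smul, NormedSpace.exp_zero, one_mul, mul_one] at this
  exact eq_neg_of_add_eq_zero_left this

theorem mem_lat {X : Mat N} (hX : X ∈ LieAlg G) : X ∈ Pool.LatH472.LieAlg G :=
  ⟨skew_of_mem hX, hX⟩

theorem mem_of_lat {X : Mat N} (hX : X ∈ Pool.LatH472.LieAlg G) : X ∈ LieAlg G := hX.2

theorem sum_mem_lie {m : ℕ} (g : LeftInvMetric G m) (a : EuclideanSpace ℝ (Fin m)) :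
    ∑ i, a i • g.X i ∈ LieAlg G := by
  rw [← g.span_eq]
  exact Submodule.sum_mem _ fun i _ => Submodule.smul_mem _ _ (Submodule.subset_span ⟨i, rfl⟩)

theorem exists_coeff {m : ℕ} (g : LeftInvMetric G m) {X : Mat N} (hX : X ∈ LieAlg G) :
    ∃ a : EuclideanSpace ℝ (Fin m), ∑ i, a i • g.X i = X := by
  rw [← g.span_eq] at hX
  obtain ⟨c, hc⟩ := (Submodule.mem_span_range_iff_exists_fun ℝ).1 hX
  exact ⟨WithLp.toLp 2 c, hc⟩

/-- a matrix commuting with all of `G` commutes with the Lie algebra -/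
theorem commute_lie {Z X : Mat N}
    (hZ : ∀ u ∈ G, ((u : unitaryGroup (Fin N) ℂ) : Mat N) * Z = Z * (u : unitaryGroup (Fin N) ℂ))
    (hX : X ∈ LieAlg G) : Commute Z X := by
  have hd2 : HasDerivAt (fun t : ℝ => NormedSpace.exp (t • X)) (NormedSpace.exp ((0 : ℝ) • X) * X) 0 :=
    hasDerivAt_exp_smul_const X (0 : ℝ)
  have h1 := hd2.const_mul Z
  have h2 := hd2.mul_const Z
  have he : (fun t : ℝ => Z * NormedSpace.exp (t • X)) = fun t : ℝ => NormedSpace.exp (t • X) * Z := by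
    ext1 t
    obtain ⟨u, hu, hue⟩ := hX t
    rw [← hue, hZ u hu]
  rw [he] at h1
  have := h1.unique h2
  show Z * X = X * Z
  simpa only [zero_smul, NormedSpace.exp_zero, one_mul, mul_one] using this

end Pool.Agent.W345.EGT
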