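import Pool.Agent.W345.EGT1

set_option autoImplicit false

open Matrix MeasureTheory
open scoped Matrix.Norms.Frobenius ContDiff

namespace Pool.Agent.W345.EGT

open Pool.Agent.W544.EG

variable {N : ℕ} {G : Subgroup (unitaryGroup (Fin N) ℂ)}

/-- the hypotheses of `S_T` on the projection -/
structure Proj (G : Subgroup (unitaryGroup (Fin N) ℂ)) (p : Mat N →ₗ[ℝ] Mat N) : Prop where
  mem : ∀ X ∈ LieAlg G, p X ∈ LieAlg G
  comm : ∀ X ∈ LieAlg G, ∀ u ∈ G,
    ((u : unitaryGroup (Fin N) ℂ) : Mat N) * p X = p X * (u : unitaryGroup (Fin N) ℂ)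
  der : ∀ X ∈ LieAlg G, ∃ d ∈ ⁅G, G⁆,
        ((d : unitaryGroup (Fin N) ℂ) : Mat N) = NormedSpace.exp (X - p X)

variable {m : ℕ} {p : Mat N →ₗ[ℝ] Mat N}

/-- `θ a = exp (p (∑ aᵢ Xᵢ))` -/
noncomputable def th (p : Mat N →ₗ[ℝ] Mat N) (g : LeftInvMetric G m)
    (a : EuclideanSpace ℝ (Fin m)) : Mat N := NormedSpace.exp (p (∑ i, a i • g.X i))

theorem sum_add (g : LeftInvMetric G m) (a b : EuclideanSpace ℝ (Fin m)) :
    ∑ i, (a + b) i • g.X i = ∑ i, a i • g.X i + ∑ i, b i • g.X i := by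
  simp [add_smul, Finset.sum_add_distrib]

theorem th_add (hp : Proj G p) (g : LeftInvMetric G m) (a b : EuclideanSpace ℝ (Fin m)) :
    th p g (a + b) = th p g a * th p g b := by
  unfold th
  rw [sum_add, map_add]
  have hc : Commute (p (∑ i, a i • g.X i)) (p (∑ i, b i • g.X i)) :=
    commute_lie (hp.comm _ (sum_mem_lie g a)) (hp.mem _ (sum_mem_lie g b))
  exact Matrix.exp_add_of_commute _ _ hc

theorem th_zero (g : LeftInvMetric G m) : th p g 0 = 1 := by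
  unfold th
  simp

theorem th_mem (hp : Proj G p) (g : LeftInvMetric G m) (a : EuclideanSpace ℝ (Fin m)) :
    ∃ u ∈ G, ((u : unitaryGroup (Fin N) ℂ) : Mat N) = th p g a := by
  obtain ⟨u, hu, hue⟩ := hp.mem _ (sum_mem_lie g a) 1
  exact ⟨u, hu, by rw [hue, one_smul]; rfl⟩

theorem th_comm (hp : Proj G p) (g : LeftInvMetric G m) (a : EuclideanSpace ℝ (Fin m))
    {u : unitaryGroup (Fin N) ℂ} (hu : u ∈ G) : (u : Mat N) * th p g a = th p g a * u := by
  have h := hp.comm _ (sum_mem_lie g a) u hu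
  exact (Commute.exp_right (show Commute (u : Mat N) (p (∑ i, a i • g.X i)) from h) :)

/-- `A(s)` -/
def A (p : Mat N →ₗ[ℝ] Mat N) (g : LeftInvMetric G m) (s : ℝ) : Set G :=
  {x | ∃ a : EuclideanSpace ℝ (Fin m), ‖a‖ ≤ s ∧ ∃ d ∈ ⁅G, G⁆,
    ((x : unitaryGroup (Fin N) ℂ) : Mat N) = th p g a * (d : unitaryGroup (Fin N) ℂ)}

theorem comm_le : ⁅G, G⁆ ≤ G := Subgroup.commutator_le_self G

theorem A_mono (g : LeftInvMetric G m) {s t : ℝ} (h : s ≤ t) : A p g s ⊆ A p g t := by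
  rintro x ⟨a, ha, d, hd, hx⟩
  exact ⟨a, ha.trans h, d, hd, hx⟩

theorem A_mul (hp : Proj G p) (g : LeftInvMetric G m) {s t : ℝ} {x y : G} (hx : x ∈ A p g s)
    (hy : y ∈ A p g t) : x * y ∈ A p g (s + t) := by
  obtain ⟨a, ha, d, hd, hx⟩ := hx
  obtain ⟨b, hb, e, he, hy⟩ := hy
  refine ⟨a + b, (norm_add_le _ _).trans (add_le_add ha hb), d * e, mul_mem hd he, ?_⟩
  have h1 : (((x * y : G) : unitaryGroup (Fin N) ℂ) : Mat N) =
      ((x : unitaryGroup (Fin N) ℂ) : Mat N) * ((y : unitaryGroup (Fin N) ℂ) : Mat N) := rfl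
  have h2 : ((d * e : unitaryGroup (Fin N) ℂ) : Mat N) = (d : Mat N) * (e : Mat N) := rfl
  rw [h1, h2, hx, hy, th_add hp]
  have h3 := th_comm hp g b (comm_le hd)
  calc th p g a * (d : Mat N) * (th p g b * (e : Mat N))
      = th p g a * ((d : Mat N) * th p g b) * (e : Mat N) := by simp only [mul_assoc]
    _ = th p g a * (th p g b * d) * (e : Mat N) := by rw [h3]
    _ = th p g a * th p g b * (↑d * ↑e) := by simp only [mul_assoc]

theorem A_inv (hp : Proj G p) (g : LeftInvMetric G m) {s : ℝ} {x : G} (hx : x ∈ A p g s) :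
    x⁻¹ ∈ A p g s := by
  obtain ⟨a, ha, d, hd, hx⟩ := hx
  refine ⟨-a, by rwa [norm_neg], d⁻¹, inv_mem hd, ?_⟩
  have h0 : th p g (-a) * th p g a = 1 := by
    rw [← th_add hp, neg_add_cancel, th_zero]
  have h1 : (((x⁻¹ : G) : unitaryGroup (Fin N) ℂ) : Mat N) * ((x : unitaryGroup (Fin N) ℂ) : Mat N) = 1 := by
    have : ((x⁻¹ * x : G) : unitaryGroup (Fin N) ℂ) = 1 := by simp
    exact congrArg (fun u : unitaryGroup (Fin N) ℂ => (u : Mat N)) this
  have h2 : ((d⁻¹ : unitaryGroup (Fin N) ℂ) : Mat N) * (d : Mat N) = 1 := by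
    have : (d⁻¹ * d : unitaryGroup (Fin N) ℂ) = 1 := by simp
    exact congrArg (fun u : unitaryGroup (Fin N) ℂ => (u : Mat N)) this
  have h2' : (d : Mat N) * ((d⁻¹ : unitaryGroup (Fin N) ℂ) : Mat N) = 1 := by
    have : (d * d⁻¹ : unitaryGroup (Fin N) ℂ) = 1 := by simp
    exact congrArg (fun u : unitaryGroup (Fin N) ℂ => (u : Mat N)) this
  have h3 := th_comm hp g (-a) (comm_le (inv_mem hd))
  have h4 : th p g (-a) * ((d⁻¹ : unitaryGroup (Fin N) ℂ) : Mat N) * ((x : unitaryGroup (Fin N) ℂ) : Mat N) = 1 := by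
    rw [hx, ← h3]
    calc ((d⁻¹ : unitaryGroup (Fin N) ℂ) : Mat N) * th p g (-a) * (th p g a * (d : Mat N))
        = ((d⁻¹ : unitaryGroup (Fin N) ℂ) : Mat N) * (th p g (-a) * th p g a) * (d : Mat N) := by
          simp only [mul_assoc]
      _ = 1 := by rw [h0, mul_one, h2]
  have h5 : ((x : unitaryGroup (Fin N) ℂ) : Mat N) * (((x⁻¹ : G) : unitaryGroup (Fin N) ℂ) : Mat N) = 1 := by
    have : ((x * x⁻¹ : G) : unitaryGroup (Fin N) ℂ) = 1 := by simp
    exact congrArg (fun u : unitaryGroup (Fin N) ℂ => (u : Mat N)) this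
  exact left_inv_eq_right_inv h1 h5 |>.trans (left_inv_eq_right_inv h4 h5).symm |> fun h => by
    simpa using h

end Pool.Agent.W345.EGT
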