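import Pool.Agent.W345.EGT2
import Pool.Agent.Helper472.Lat_CST1

set_option autoImplicit false

open Matrix MeasureTheory
open scoped Matrix.Norms.Frobenius ContDiff

namespace Pool.Agent.W345.EGT

open Pool.Agent.W544.EG

variable {N : ℕ} {G : Subgroup (unitaryGroup (Fin N) ℂ)} {m : ℕ} {p : Mat N →ₗ[ℝ] Mat N}

/-- one exponential -/
theorem exp_eq (hp : Proj G p) (g : LeftInvMetric G m) (a : EuclideanSpace ℝ (Fin m)) :
    ∃ d ∈ ⁅G, G⁆, NormedSpace.exp (∑ i, a i • g.X i) = th p g a * (d : unitaryGroup (Fin N) ℂ) := by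
  set X := ∑ i, a i • g.X i with hX
  have hXm : X ∈ LieAlg G := sum_mem_lie g a
  obtain ⟨d, hd, hde⟩ := hp.der X hXm
  refine ⟨d, hd, ?_⟩
  rw [hde]
  unfold th
  rw [← hX]
  have hc : Commute (p X) (X - p X) :=
    (commute_lie (hp.comm _ hXm) hXm).sub_right (Commute.refl _)
  rw [← Matrix.exp_add_of_commute _ _ hc]
  congr 1
  abel

theorem ball_sub (hp : Proj G p) (g : LeftInvMetric G m) :
    ∀ (l : List (EuclideanSpace ℝ (Fin m))) (x : G),
      (l.map fun a => NormedSpace.exp (∑ i, a i • g.X i)).prod =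
        ((x : unitaryGroup (Fin N) ℂ) : Mat N) → x ∈ A p g (l.map fun a => ‖a‖).sum := by
  intro l
  induction l with
  | nil =>
    intro x hx
    refine ⟨0, by simp, 1, one_mem _, ?_⟩
    simp only [List.map_nil, List.prod_nil] at hx
    rw [← hx, th_zero]
    simp
  | cons a l ih =>
    intro x hx
    simp only [List.map_cons, List.prod_cons] at hx
    obtain ⟨u, hu, hue⟩ := sum_mem_lie g a 1
    rw [one_smul] at hue
    have hx2 : (l.map fun a => NormedSpace.exp (∑ i, a i • g.X i)).prod =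
        ((((⟨u, hu⟩ : G)⁻¹ * x : G) : unitaryGroup (Fin N) ℂ) : Mat N) := by
      have h1 : ((((⟨u, hu⟩ : G)⁻¹ * x : G) : unitaryGroup (Fin N) ℂ) : Mat N) =
        ((u⁻¹ : unitaryGroup (Fin N) ℂ) : Mat N) * ((x : unitaryGroup (Fin N) ℂ) : Mat N) := rfl
      have h2 : ((u⁻¹ : unitaryGroup (Fin N) ℂ) : Mat N) * (u : Mat N) = 1 := by
        have : (u⁻¹ * u : unitaryGroup (Fin N) ℂ) = 1 := by simp
        exact congrArg (fun u : unitaryGroup (Fin N) ℂ => (u : Mat N)) this
      rw [h1, ← hx, ← hue, ← mul_assoc, h2, one_mul]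
    have h3 := ih _ hx2
    have h4 : (⟨u, hu⟩ : G) ∈ A p g ‖a‖ := by
      obtain ⟨d, hd, hde⟩ := exp_eq hp g a
      exact ⟨a, le_rfl, d, hd, by rw [← hde, ← hue]⟩
    have h5 := A_mul hp g h4 h3
    rw [mul_inv_cancel_left] at h5
    simpa using h5

theorem mem_A_of_ball (hp : Proj G p) (g : LeftInvMetric G m) {s : ℝ} (x : G)
    (hx : ((x : unitaryGroup (Fin N) ℂ) : Mat N) ∈ Ball g s) : x ∈ A p g s := by
  obtain ⟨l, hl, hs⟩ := hx
  exact A_mono g hs (ball_sub hp g l x hl)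

/-- every element lies in some `A(n)` -/
theorem exists_A (hG : IsClosed (G : Set (unitaryGroup (Fin N) ℂ)))
    (hc : IsConnected (G : Set (unitaryGroup (Fin N) ℂ))) (hp : Proj G p)
    (g : LeftInvMetric G m) (x : G) : ∃ n : ℕ, x ∈ A p g n := by
  obtain ⟨X, hX, hXe⟩ := Pool.LatH472.TTL Pool.LatH472.CST1
    (Pool.LatH472.CST2 Pool.LatH472.CST1) (Fin N) G hG hc x.1 x.2
  obtain ⟨a, ha⟩ := exists_coeff g (mem_of_lat hX)
  obtain ⟨d, hd, hde⟩ := exp_eq hp g a
  obtain ⟨n, hn⟩ := exists_nat_ge ‖a‖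
  exact ⟨n, a, hn, d, hd, by rw [← hde, ha, hXe]⟩

/-! ### compactness -/

theorem continuous_th (g : LeftInvMetric G m) : Continuous (th p g) := by
  unfold th
  have h1 : Continuous fun a : EuclideanSpace ℝ (Fin m) => ∑ i, a i • g.X i := by fun_prop
  have h2 : Continuous p := p.continuous_of_finiteDimensional
  exact NormedSpace.exp_continuous.comp (h2.comp h1)

theorem isCompact_A (hG : IsClosed (G : Set (unitaryGroup (Fin N) ℂ)))
    (hD : IsClosed ((⁅G, G⁆ : Subgroup (unitaryGroup (Fin N) ℂ)) : Set (unitaryGroup (Fin N) ℂ)))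
    (g : LeftInvMetric G m) (s : ℝ) : IsCompact (A p g s) := by
  haveI : CompactSpace (unitaryGroup (Fin N) ℂ) := Pool.LatH472.TTL_compact
  have hDc : IsCompact ((⁅G, G⁆ : Subgroup (unitaryGroup (Fin N) ℂ)) : Set (unitaryGroup (Fin N) ℂ)) :=
    hD.isCompact
  have hK : IsCompact ((Metric.closedBall (0 : EuclideanSpace ℝ (Fin m)) s) ×ˢ
      ((⁅G, G⁆ : Subgroup (unitaryGroup (Fin N) ℂ)) : Set (unitaryGroup (Fin N) ℂ))) :=
    (isCompact_closedBall _ _).prod hDc
  have hcont : Continuous fun q : EuclideanSpace ℝ (Fin m) × unitaryGroup (Fin N) ℂ =>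
      th p g q.1 * (q.2 : Mat N) :=
    ((continuous_th g).comp continuous_fst).mul (continuous_subtype_val.comp continuous_snd)
  have him := hK.image hcont
  -- preimage under the closed embedding `G → Mat`
  have hemb : Topology.IsClosedEmbedding (fun x : G => ((x : unitaryGroup (Fin N) ℂ) : Mat N)) := by
    haveI : CompactSpace G := isCompact_iff_compactSpace.1 hG.isCompact
    refine (Continuous.isClosedEmbedding (continuous_subtype_val.comp continuous_subtype_val) ?_)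
    exact Subtype.val_injective.comp Subtype.val_injective
  have : A p g s = (fun x : G => ((x : unitaryGroup (Fin N) ℂ) : Mat N)) ⁻¹'
      ((fun q : EuclideanSpace ℝ (Fin m) × unitaryGroup (Fin N) ℂ =>
      th p g q.1 * (q.2 : Mat N)) '' ((Metric.closedBall (0 : EuclideanSpace ℝ (Fin m)) s) ×ˢ
      ((⁅G, G⁆ : Subgroup (unitaryGroup (Fin N) ℂ)) : Set (unitaryGroup (Fin N) ℂ)))) := by
    ext x
    constructor
    · rintro ⟨a, ha, d, hd, hx⟩
      exact ⟨(a, d), ⟨by simpa using ha, hd⟩, hx.symm⟩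
    · rintro ⟨⟨a, d⟩, ⟨ha, hd⟩, hx⟩
      exact ⟨a, by simpa using ha, d, hd, hx.symm⟩
  rw [this]
  exact hemb.isCompact_preimage him

end Pool.Agent.W345.EGT
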