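import Pool.Agent.W550.LG.StmV

/-!
# LG-D3: the last layer of the downward swing
-/

namespace Pool.Agent.W345.LGD3

open Set Pool.Agent.W550.LG

theorem d3 : S_D3 := by
  intro x y lam hlam hxy hneg hly C c1 C2 hC hc1 hC2
  obtain ⟨K, hK⟩ : ∃ K, ∀ s ∈ Icc x y, |lam s| ≤ K := by
    obtain ⟨K, hK⟩ := isCompact_Icc.exists_bound_of_continuousOn
      (hlam.continuous.continuousOn (s := Icc x y))
    exact ⟨K, fun s hs => by simpa using hK s hs⟩
  obtain ⟨K2, hK2⟩ : ∃ K2, ∀ s ∈ Icc x y, |deriv lam s| ≤ K2 := by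
    obtain ⟨K, hK⟩ := isCompact_Icc.exists_bound_of_continuousOn
      ((hlam.continuous_deriv (by simp)).continuousOn (s := Icc x y))
    exact ⟨K, fun s hs => by simpa using hK s hs⟩
  have hK0 : 0 ≤ K := le_trans (abs_nonneg _) (hK x ⟨le_rfl, hxy.le⟩)
  have hK20 : 0 ≤ K2 := le_trans (abs_nonneg _) (hK2 x ⟨le_rfl, hxy.le⟩)
  have hyx : 0 < y - x := by linarith
  set E : ℝ := C * K * C2 / c1 with hE
  have hE0 : 0 ≤ E := by positivity
  have hlamy : ∀ s ∈ Icc x y, |lam s| ≤ K2 * (y - s) := by
    intro s hs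
    have h1 := (convex_Icc x y).norm_image_sub_le_of_norm_deriv_le (𝕜 := ℝ) (f := lam) (C := K2)
      (x := y) (y := s) (fun x _ => (hlam.differentiable (by simp)).differentiableAt)
      (fun x hx => by simpa using hK2 x hx) ⟨hxy.le, le_rfl⟩ hs
    rw [hly, sub_zero, Real.norm_eq_abs, Real.norm_eq_abs, abs_sub_comm,
      abs_of_nonneg (by linarith [hs.2] : (0 : ℝ) ≤ y - s)] at h1
    exact h1
  set r0 : ℝ := 1 + 1 / (y - x) + 2 * E with hr0
  have hr1 : 1 ≤ r0 := by
    have : 0 ≤ 1 / (y - x) := by positivity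
    linarith
  refine ⟨r0 ^ 2, Real.exp (-K2) / 2, by nlinarith, by positivity, ?_⟩
  intro t ht k c a th N hN hsys hall
  have ht1 : 1 ≤ t := by nlinarith
  have ht0 : 0 < t := by linarith
  set r : ℝ := Real.sqrt t with hr
  have hr0' : r0 ≤ r := Real.le_sqrt_of_sq_le ht
  have hrpos : 0 < r := by linarith
  have hrr : r * r = t := Real.mul_self_sqrt ht0.le
  have hw1 : 1 / r ≤ y - x := by
    have h1 : 1 / (y - x) ≤ r := by linarith
    rw [div_le_iff₀ hyx] at h1
    rw [div_le_iff₀ hrpos]
    linarith
  have hw0 : 0 < 1 / r := by positivity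
  have hEr : E / r ≤ 1 / 2 := by
    have h0 : 0 ≤ 1 / (y - x) := by positivity
    rw [div_le_iff₀ hrpos]
    linarith
  -- monotonicity of `c`
  have hcmono : ∀ s ∈ Icc x y, c s ≤ c y := by
    intro s hs
    have h1 := (convex_Icc x y).mul_sub_le_image_sub_of_le_deriv (f := c)
      (fun s hs => (hsys.dc s hs).continuousAt.continuousWithinAt)
      (fun s hs => (hsys.dc s (interior_subset hs)).differentiableAt.differentiableWithinAt)
      (C := 0) (fun s hs => by
        rw [(hsys.dc s (interior_subset hs)).deriv]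
        exact (hall s (interior_subset hs)).2.2.2) s hs y ⟨hxy.le, le_rfl⟩ hs.2
    linarith
  have hy := hall y ⟨hxy.le, le_rfl⟩
  set m : ℝ := |c y| with hm
  have hm0 : 0 < m := abs_pos.2 hy.1.ne
  have hmc : m = - c y := abs_of_neg hy.1
  -- lower bound for `a'`
  have ha' : ∀ s ∈ Icc (y - 1 / r) y,
      - (K2 * r * a s) + m / 2 ≤ t * (lam s * k s) * a s - c s + th s := by
    intro s hs
    have hsI : s ∈ Icc x y := ⟨by linarith [hs.1], hs.2⟩
    obtain ⟨hcs, hcl, hcu, has⟩ := hall s hsI
    have h1 : - (K2 / r) ≤ lam s * k s := by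
      have h2 : |lam s| ≤ K2 / r := by
        calc |lam s| ≤ K2 * (y - s) := hlamy s hsI
          _ ≤ K2 * (1 / r) := mul_le_mul_of_nonneg_left (by linarith [hs.1]) hK20
          _ = K2 / r := by ring
      have h3 : lam s ≤ lam s * k s := by
        nlinarith [hneg s hsI, hsys.k_le s hsI]
      linarith [neg_le_of_abs_le h2]
    have h2 : - (K2 * r * a s) ≤ t * (lam s * k s) * a s := by
      have h3 : t * (- (K2 / r)) ≤ t * (lam s * k s) := mul_le_mul_of_nonneg_left h1 ht0.le
      have h4 : t * (- (K2 / r)) = - (K2 * r) := by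
        rw [← hrr]; field_simp
      have h5 : t * (- (K2 / r)) * a s ≤ t * (lam s * k s) * a s :=
        mul_le_mul_of_nonneg_right h3 has
      rw [h4] at h5
      linarith
    have hth : |th s| ≤ |c s| / 2 := by
      have h3 := hsys.th_le s hsI (C2 * N) (by nlinarith) (fun q hq =>
        (hall q ⟨hq.1, hq.2.trans hs.2⟩).2.2.1)
      have h4 : N ≤ |c s| * r / c1 := by
        rw [le_div_iff₀ hc1]
        rw [div_mul_eq_mul_div, div_le_iff₀ hrpos] at hcl
        linarith
      calc |th s| ≤ C / t * |lam s| * (C2 * N) := h3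
        _ ≤ C / t * K * (C2 * N) := by
            apply mul_le_mul_of_nonneg_right _ (by positivity)
            exact mul_le_mul_of_nonneg_left (hK s hsI) (by positivity)
        _ ≤ C / t * K * (C2 * (|c s| * r / c1)) := by
            apply mul_le_mul_of_nonneg_left _ (by positivity)
            exact mul_le_mul_of_nonneg_left h4 (by positivity)
        _ = E / r * |c s| := by
            rw [← hrr, hE]; field_simp
        _ ≤ 1 / 2 * |c s| := mul_le_mul_of_nonneg_right hEr (abs_nonneg _)
        _ = |c s| / 2 := by ring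
    have h5 : |c s| = - c s := abs_of_neg hcs
    have h6 := neg_le_of_abs_le hth
    have h7 := hcmono s hsI
    linarith
  -- the integrating factor
  have hG : ∀ s ∈ Icc (y - 1 / r) y, HasDerivAt (fun s => Real.exp (K2 * r * (s - y)) * a s)
      (Real.exp (K2 * r * (s - y)) * (K2 * r) * a s +
        Real.exp (K2 * r * (s - y)) * (t * (lam s * k s) * a s - c s + th s)) s := by
    intro s hs
    have hsI : s ∈ Icc x y := ⟨by linarith [hs.1], hs.2⟩
    have h1 : HasDerivAt (fun s => K2 * r * (s - y)) (K2 * r) s := by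
      simpa using ((hasDerivAt_id s).sub_const y).const_mul (K2 * r)
    exact h1.exp.mul (hsys.da s hsI)
  have hfin := (convex_Icc (y - 1 / r) y).mul_sub_le_image_sub_of_le_deriv
      (f := fun s => Real.exp (K2 * r * (s - y)) * a s)
      (fun s hs => (hG s hs).continuousAt.continuousWithinAt)
      (fun s hs => (hG s (interior_subset hs)).differentiableAt.differentiableWithinAt)
      (C := Real.exp (-K2) * (m / 2)) (fun s hs => by
        rw [(hG s (interior_subset hs)).deriv]
        have hsI := interior_subset hs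
        have h1 := ha' s hsI
        have h2 : Real.exp (-K2) ≤ Real.exp (K2 * r * (s - y)) := by
          apply Real.exp_le_exp.2
          have h3 : -(1 / r) ≤ s - y := by linarith [hsI.1]
          have h4 : K2 * r * (-(1 / r)) ≤ K2 * r * (s - y) :=
            mul_le_mul_of_nonneg_left h3 (by positivity)
          have h5 : K2 * r * (-(1 / r)) = - K2 := by field_simp
          linarith
        have h3 : 0 < Real.exp (K2 * r * (s - y)) := Real.exp_pos _
        calc Real.exp (-K2) * (m / 2) ≤ Real.exp (K2 * r * (s - y)) * (m / 2) :=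
              mul_le_mul_of_nonneg_right h2 (by positivity)
          _ ≤ Real.exp (K2 * r * (s - y)) *
              (K2 * r * a s + (t * (lam s * k s) * a s - c s + th s)) := by
              apply mul_le_mul_of_nonneg_left _ h3.le
              linarith
          _ = _ := by ring)
      (y - 1 / r) ⟨le_rfl, by linarith⟩ y ⟨by linarith, le_rfl⟩ (by linarith)
  have hx1 : 0 ≤ a (y - 1 / r) := (hall (y - 1 / r) ⟨by linarith, by linarith⟩).2.2.2
  have h8 : 0 ≤ Real.exp (K2 * r * (y - 1 / r - y)) * a (y - 1 / r) :=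
    mul_nonneg (Real.exp_pos _).le hx1
  simp only [sub_self, mul_zero, Real.exp_zero, one_mul] at hfin
  have h9 : Real.exp (-K2) * (m / 2) * (y - (y - 1 / r)) = Real.exp (-K2) / 2 / r * m := by
    field_simp; ring
  rw [h9] at hfin
  linarith

end Pool.Agent.W345.LGD3
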