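import Pool.Agent.W550.LG.StmV

/-!
# LG-ROLLE: a smooth function has few swings of size `h`
-/

namespace Pool.Agent.W345.LGRolle

open Set Pool.Agent.W550.LG

/-- A smooth function with `m + 1` zeros in an interval is small there. -/
theorem zeros_bound (u v M : ℝ) : ∀ (m : ℕ) (f : ℝ → ℝ), ContDiff ℝ (⊤ : ℕ∞) f →
    (∀ s ∈ Icc u v, |iteratedDeriv (m + 1) f s| ≤ M) → ∀ z : ℕ → ℝ,
    (∀ i < m, z i < z (i + 1)) → (∀ i ≤ m, z i ∈ Icc u v ∧ f (z i) = 0) →
    ∀ s ∈ Icc u v, |f s| ≤ M * (v - u) ^ (m + 1) := by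
  have key : ∀ (f : ℝ → ℝ) (B z0 : ℝ), ContDiff ℝ (⊤ : ℕ∞) f → z0 ∈ Icc u v → f z0 = 0 →
      (∀ s ∈ Icc u v, |deriv f s| ≤ B) → ∀ s ∈ Icc u v, |f s| ≤ B * (v - u) := by
    intro f B z0 hf hz0 hz hB s hs
    have h1 := (convex_Icc u v).norm_image_sub_le_of_norm_deriv_le (𝕜 := ℝ) (f := f) (C := B)
      (x := z0) (y := s) (fun x _ => (hf.differentiable (by simp)).differentiableAt)
      (fun x hx => by simpa using hB x hx) hz0 hs
    rw [hz, sub_zero, Real.norm_eq_abs, Real.norm_eq_abs] at h1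
    have hB0 : 0 ≤ B := le_trans (abs_nonneg _) (hB s hs)
    refine h1.trans (mul_le_mul_of_nonneg_left ?_ hB0)
    rw [abs_le]
    constructor
    · linarith [hs.1, hs.2, hz0.1, hz0.2]
    · linarith [hs.1, hs.2, hz0.1, hz0.2]
  intro m
  induction m with
  | zero =>
    intro f hf hM z _ hz s hs
    have := key f M (z 0) hf (hz 0 le_rfl).1 (hz 0 le_rfl).2
      (fun s hs => by simpa [iteratedDeriv_one] using hM s hs) s hs
    simpa using this
  | succ m ih =>
    intro f hf hM z hzlt hz s hs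
    have hex : ∀ i, i ≤ m → ∃ w ∈ Ioo (z i) (z (i + 1)), deriv f w = 0 := by
      intro i hi
      exact exists_deriv_eq_zero (hzlt i (by omega)) hf.continuous.continuousOn
        ((hz i (by omega)).2.trans (hz (i + 1) (by omega)).2.symm)
    choose w hw hw0 using hex
    have hf' : ContDiff ℝ (⊤ : ℕ∞) (deriv f) := by
      have h2 : ContDiff ℝ ((⊤ : ℕ∞) : WithTop ℕ∞) f := hf
      exact (contDiff_infty_iff_deriv.mp h2).2
    have hd := ih (deriv f) hf'
      (fun s hs => by
        have := hM s hs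
        rwa [iteratedDeriv_succ'] at this)
      (fun i => if h : i ≤ m then w i h else 0)
      (fun i hi => by
        have h1 : i ≤ m := by omega
        have h2 : i + 1 ≤ m := by omega
        simp only [h1, h2, dif_pos]
        exact (hw i h1).2.trans (hw (i + 1) h2).1)
      (fun i hi => by
        simp only [hi, dif_pos]
        refine ⟨⟨?_, ?_⟩, hw0 i hi⟩
        · exact (hz i (by omega)).1.1.trans (hw i hi).1.le
        · exact (hw i hi).2.le.trans (hz (i + 1) (by omega)).1.2)
    have := key f (M * (v - u) ^ (m + 1)) (z 0) hf (hz 0 (by omega)).1 (hz 0 (by omega)).2 hd s hs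
    calc |f s| ≤ M * (v - u) ^ (m + 1) * (v - u) := this
      _ = M * (v - u) ^ (m + 1 + 1) := by ring

/-- Zeros of the derivative between the swings. -/
theorem swings_zeros (L : ℝ → ℝ) (hL : ContDiff ℝ (⊤ : ℕ∞) L) (h : ℝ) (hh : 0 < h) (n : ℕ)
    (p : ℕ → ℝ) (hp : ∀ i < n, p i < p (i + 1))
    (hs : ∀ i < n, (Even i → L (p i) + h ≤ L (p (i + 1))) ∧
      (Odd i → L (p (i + 1)) + h ≤ L (p i))) :
    ∃ z : ℕ → ℝ, (∀ i, i + 1 < n → p i < z i ∧ z i < p (i + 2) ∧ deriv L (z i) = 0) ∧
      ∀ i, i + 2 < n → z i < z (i + 1) := by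
  have hdiff : Differentiable ℝ L := hL.differentiable (by simp)
  have hcd : Continuous (deriv L) := hL.continuous_deriv (by simp)
  have h1 : ∀ i, i < n → ∃ u ∈ Ioo (p i) (p (i + 1)), (Even i → 0 < deriv L u) ∧
      (Odd i → deriv L u < 0) := by
    intro i hi
    obtain ⟨u, hu, hu'⟩ := exists_deriv_eq_slope L (hp i hi) hL.continuous.continuousOn
      hdiff.differentiableOn
    have hpos : 0 < p (i + 1) - p i := by linarith [hp i hi]
    refine ⟨u, hu, fun he => ?_, fun ho => ?_⟩
    · rw [hu']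
      exact div_pos (by linarith [(hs i hi).1 he]) hpos
    · rw [hu']
      exact div_neg_of_neg_of_pos (by linarith [(hs i hi).2 ho]) hpos
  choose u hu hu' using h1
  have h2 : ∀ i, ∀ hi : i + 1 < n, ∃ z ∈ Ioo (u i (by omega)) (u (i + 1) hi),
      deriv L z = 0 := by
    intro i hi
    have hlt : u i (by omega) < u (i + 1) hi := (hu i (by omega)).2.trans (hu (i + 1) hi).1
    rcases Nat.even_or_odd i with he | ho
    · have ha := (hu' i (by omega)).1 he
      have hb := (hu' (i + 1) hi).2 he.add_one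
      have := intermediate_value_Ioo' hlt.le (hcd.continuousOn) ⟨hb, ha⟩
      obtain ⟨z, hz, hz0⟩ := this
      exact ⟨z, hz, hz0⟩
    · have ha := (hu' i (by omega)).2 ho
      have hb := (hu' (i + 1) hi).1 ho.add_one
      have := intermediate_value_Ioo hlt.le (hcd.continuousOn) ⟨ha, hb⟩
      obtain ⟨z, hz, hz0⟩ := this
      exact ⟨z, hz, hz0⟩
  choose z hz hz0 using h2
  refine ⟨fun i => if hi : i + 1 < n then z i hi else 0, fun i hi => ?_, fun i hi => ?_⟩
  · simp only [hi, dif_pos]
    exact ⟨(hu i (by omega)).1.trans (hz i hi).1, (hz i hi).2.trans (hu (i + 1) hi).2, hz0 i hi⟩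
  · have h3 : i + 1 < n := by omega
    have h4 : i + 1 + 1 < n := by omega
    simp only [h3, h4, dif_pos]
    exact (hz i h3).2.trans (hz (i + 1) h4).1

theorem rolle : S_ROLLE := by
  intro L x y hL hxy k
  obtain ⟨M0, hM0⟩ : ∃ M0, ∀ s ∈ Icc x y, |L s| ≤ M0 := by
    obtain ⟨M0, hM0⟩ := isCompact_Icc.exists_bound_of_continuousOn
      (hL.continuous.continuousOn (s := Icc x y))
    exact ⟨M0, fun s hs => by simpa using hM0 s hs⟩
  obtain ⟨M1, hM1⟩ : ∃ M1, ∀ s ∈ Icc x y, |iteratedDeriv (k + 1) (deriv L) s| ≤ M1 := by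
    have hc : Continuous (iteratedDeriv (k + 1) (deriv L)) := by
      rw [← iteratedDeriv_succ']
      exact hL.continuous_iteratedDeriv _ (by exact_mod_cast le_top)
    obtain ⟨M1, hM1⟩ := isCompact_Icc.exists_bound_of_continuousOn
      (hc.continuousOn (s := Icc x y))
    exact ⟨M1, fun s hs => by simpa using hM1 s hs⟩
  have hM0' : 0 ≤ M0 := le_trans (abs_nonneg _) (hM0 x ⟨le_rfl, hxy.le⟩)
  have hM1' : 0 ≤ M1 := le_trans (abs_nonneg _) (hM1 x ⟨le_rfl, hxy.le⟩)
  have hyx : 0 < y - x := by linarith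
  set d : ℕ := k + 2 with hd
  refine ⟨2 * M0 * (d : ℝ) ^ k + M1 * (2 * d * (y - x)) ^ d + 1, by positivity, ?_⟩
  intro h n hh hn halt
  obtain ⟨p, hp, hpI, hps⟩ := halt
  have hstep : ∀ i < n, h ≤ |L (p (i + 1)) - L (p i)| := by
    intro i hi
    rcases Nat.even_or_odd i with he | ho
    · exact le_trans (by linarith [(hps i hi).1 he]) (le_abs_self _)
    · exact le_trans (by linarith [(hps i hi).2 ho]) (neg_le_abs _)
  have hmono : ∀ i j, i ≤ j → j ≤ n → p i ≤ p j := by
    intro i j hij
    induction j, hij using Nat.le_induction with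
    | base => intro _; exact le_rfl
    | succ j hj ihj => intro hjn; exact (ihj (by omega)).trans (hp j (by omega)).le
  have hnpos : (0 : ℝ) < n := by exact_mod_cast hn
  by_cases hnd : n < d
  · have h1 : h ≤ 2 * M0 := by
      have h2 := hstep 0 (by omega)
      have h3 := hM0 (p (0 + 1)) (hpI _ (by omega))
      have h4 := hM0 (p 0) (hpI _ (by omega))
      have h5 := abs_sub (L (p (0 + 1))) (L (p 0))
      linarith
    have h2 : (n : ℝ) ^ k ≤ (d : ℝ) ^ k :=
      pow_le_pow_left₀ hnpos.le (by exact_mod_cast hnd.le) k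
    have h3 : h * (n : ℝ) ^ k ≤ 2 * M0 * (d : ℝ) ^ k :=
      mul_le_mul h1 h2 (by positivity) (by positivity)
    have h4 : 0 ≤ M1 * (2 * d * (y - x)) ^ d := by positivity
    linarith
  · push Not at hnd
    obtain ⟨z, hz, hzlt⟩ := swings_zeros L hL h hh n p hp hps
    set q : ℕ := n / d with hq
    have hdpos : 0 < d := by omega
    have hq1 : 1 ≤ q := (Nat.one_le_div_iff hdpos).2 hnd
    have hqd : q * d ≤ n := Nat.div_mul_le_self n d
    have hqn : n < 2 * q * d := by
      have h1 : n < (q + 1) * d := by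
        have := Nat.lt_div_mul_add hdpos (a := n)
        rw [← hq] at this
        nlinarith
      nlinarith
    have hsum : ∑ j ∈ Finset.range q, (p ((j + 1) * d) - p (j * d)) = p (q * d) - p 0 := by
      have := Finset.sum_range_sub (fun j => p (j * d)) q
      simpa using this
    have hex : ∃ j ∈ Finset.range q, p ((j + 1) * d) - p (j * d) ≤ (y - x) / q := by
      by_contra hcon
      push Not at hcon
      have hlt : ∑ j ∈ Finset.range q, ((y - x) / q) <
          ∑ j ∈ Finset.range q, (p ((j + 1) * d) - p (j * d)) := by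
        apply Finset.sum_lt_sum_of_nonempty
        · exact ⟨0, by simp; omega⟩
        · exact hcon
      rw [hsum, Finset.sum_const, Finset.card_range, nsmul_eq_mul] at hlt
      have hq0 : (0 : ℝ) < q := by exact_mod_cast hq1
      rw [mul_div_cancel₀ _ hq0.ne'] at hlt
      have h1 := (hpI (q * d) hqd).2
      have h2 := (hpI 0 (by omega)).1
      linarith
    obtain ⟨j, hj, hjle⟩ := hex
    have hjq : j < q := by simpa using hj
    set i : ℕ := j * d with hi
    have hid : (j + 1) * d = i + d := by rw [hi]; ring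
    have hidn : i + d ≤ n := by
      rw [← hid]
      exact (Nat.mul_le_mul_right d hjq).trans hqd
    rw [hid] at hjle
    have hsub : Icc (p i) (p (i + d)) ⊆ Icc x y :=
      Icc_subset_Icc (hpI i (by omega)).1 (hpI (i + d) hidn).2
    have hf' : ContDiff ℝ (⊤ : ℕ∞) (deriv L) := (contDiff_infty_iff_deriv.mp hL).2
    have hb := zeros_bound (p i) (p (i + d)) M1 k (deriv L) hf'
      (fun s hs => hM1 s (hsub hs)) (fun l => z (i + l))
      (fun l hl => by
        have := hzlt (i + l) (by omega)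
        simpa [add_assoc] using this)
      (fun l hl => by
        have h1 := hz (i + l) (by omega)
        refine ⟨⟨?_, ?_⟩, h1.2.2⟩
        · exact (hmono i (i + l) (by omega) (by omega)).trans h1.1.le
        · exact h1.2.1.le.trans (hmono (i + l + 2) (i + d) (by omega) hidn))
    have hJ0 : 0 ≤ p (i + d) - p i := by linarith [hmono i (i + d) (by omega) hidn]
    have hMV := (convex_Icc (p i) (p (i + d))).norm_image_sub_le_of_norm_deriv_le (𝕜 := ℝ)
      (f := L) (C := M1 * (p (i + d) - p i) ^ (k + 1)) (x := p i) (y := p (i + 1))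
      (fun x _ => (hL.differentiable (by simp)).differentiableAt)
      (fun x hx => by simpa using hb x hx) ⟨le_rfl, hmono i (i + d) (by omega) hidn⟩
      ⟨hmono i (i + 1) (by omega) (by omega), hmono (i + 1) (i + d) (by omega) hidn⟩
    rw [Real.norm_eq_abs, Real.norm_eq_abs] at hMV
    have h1 : |p (i + 1) - p i| ≤ p (i + d) - p i := by
      rw [abs_of_nonneg (by linarith [hmono i (i + 1) (by omega) (by omega)])]
      linarith [hmono (i + 1) (i + d) (by omega) hidn]
    have h2 : h ≤ M1 * (p (i + d) - p i) ^ d := by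
      calc h ≤ |L (p (i + 1)) - L (p i)| := hstep i (by omega)
        _ ≤ M1 * (p (i + d) - p i) ^ (k + 1) * |p (i + 1) - p i| := hMV
        _ ≤ M1 * (p (i + d) - p i) ^ (k + 1) * (p (i + d) - p i) :=
            mul_le_mul_of_nonneg_left h1 (by positivity)
        _ = M1 * (p (i + d) - p i) ^ d := by rw [hd]; ring
    have hq0 : (0 : ℝ) < q := by exact_mod_cast hq1
    have h3 : (p (i + d) - p i) * n ≤ 2 * d * (y - x) := by
      have h4 : (n : ℝ) ≤ 2 * q * d := by exact_mod_cast hqn.le
      calc (p (i + d) - p i) * n ≤ (y - x) / q * n :=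
            mul_le_mul_of_nonneg_right hjle hnpos.le
        _ ≤ (y - x) / q * (2 * q * d) := mul_le_mul_of_nonneg_left h4 (by positivity)
        _ = 2 * d * (y - x) := by field_simp
    have h5 : (n : ℝ) ^ k ≤ (n : ℝ) ^ d :=
      pow_le_pow_right₀ (by exact_mod_cast hn) (by omega)
    have h6 : h * (n : ℝ) ^ k ≤ M1 * (2 * d * (y - x)) ^ d := by
      calc h * (n : ℝ) ^ k ≤ h * (n : ℝ) ^ d := mul_le_mul_of_nonneg_left h5 hh.le
        _ ≤ M1 * (p (i + d) - p i) ^ d * (n : ℝ) ^ d :=
            mul_le_mul_of_nonneg_right h2 (by positivity)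
        _ = M1 * ((p (i + d) - p i) * n) ^ d := by rw [mul_pow]; ring
        _ ≤ M1 * (2 * d * (y - x)) ^ d := by
            apply mul_le_mul_of_nonneg_left _ hM1'
            exact pow_le_pow_left₀ (mul_nonneg hJ0 hnpos.le) h3 d
    have h7 : 0 ≤ 2 * M0 * (d : ℝ) ^ k := by positivity
    linarith

end Pool.Agent.W345.LGRolle
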