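import Mathlib
import Pool.Agent.W757.RC.St4

set_option autoImplicit false
set_option linter.style.haveILetI false

open Topology Filter Metric Set MeasureTheory
open Pool.Agent.H790R3.RB
open scoped OnePoint

namespace Pool.Agent.W345.RQMARK

open Pool.Agent.W757.RC

theorem xp_append {n s : ℕ} (x : Fin n → ℂ) (β : Fin s → ℂ) : xp (Fin.append x β) = x := by
  funext i; simp [xp]

theorem bp_append {n s : ℕ} (x : Fin n → ℂ) (β : Fin s → ℂ) : bp (Fin.append x β) = β := by
  funext i; simp [bp]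

theorem xp_diff (n s : ℕ) : Differentiable ℂ (xp : (Fin (n + s) → ℂ) → (Fin n → ℂ)) := by
  rw [differentiable_pi]
  intro i
  exact differentiable_apply (Fin.castAdd s i)

theorem bp_diff (n s : ℕ) (k : Fin s) : Differentiable ℂ (fun q : Fin (n + s) → ℂ => bp q k) :=
  differentiable_apply (Fin.natAdd n k)

theorem ch_congr {s : ℕ} {X Y : Type} (b : Fin s → X → ℂ) (b' : Fin s → Y → ℂ)
    (x : X) (y : Y) (h : ∀ k, b k x = b' k y) (k : Option (Fin s)) (z : ℂ) :
    ch b k x z = ch b' k y z := by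
  cases k with
  | none => rfl
  | some k => simp only [ch, h k]

theorem loc_congr {s : ℕ} {X Y : Type} (b : Fin s → X → ℂ) (b' : Fin s → Y → ℂ)
    (x : X) (y : Y) (h : ∀ k, b k x = b' k y) (k : Option (Fin s)) (p : ℂ × ℂ) :
    loc b k x p = loc b' k y p := by
  cases k with
  | none => rfl
  | some k => simp only [loc, h k]

theorem task (hLOCM : StLOCM) (hDCL : StDCL) : StMARK := by
  intro d n S₀ ρb hρb x₀ hx₀ s per β hMk
  classical
  -- the multipliers
  set v : Option (Fin s) → ℂ := fun k => deriv (ret (S₀.co x₀) (mp β) k (per k)) 0 with hv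
  set C0 : Set (Fin (n + s) → ℂ) := {q | xp q ∈ closedBall S₀.xT ρb ∧ Mk S₀ (xp q) s per (bp q) ∧
      ∀ k, deriv (ret (S₀.co (xp q)) (mp (bp q)) k (per k)) 0 = v k} with hC0
  have hC0c : IsCompact C0 := hDCL d n S₀ ρb s per v hρb hMk.pp hMk.mul
  set q₀ : Fin (n + s) → ℂ := Fin.append x₀ β with hq₀
  have hxq₀ : xp q₀ = x₀ := xp_append x₀ β
  have hbq₀ : bp q₀ = β := bp_append x₀ β
  have hq₀C : q₀ ∈ C0 := by
    refine ⟨?_, ?_, ?_⟩
    · rw [hxq₀]; exact hx₀
    · rw [hxq₀, hbq₀]; exact hMk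
    · intro k; rw [hxq₀, hbq₀]
  -- the local systems
  have hloc : ∀ q1 : C0, _ := fun q1 => hLOCM d n S₀ (xp q1.1) s per (bp q1.1) q1.2.2.1
  choose ε r θ b hε hr hθ0 hθ1 hball hb0 hbd hb8 hcontr hsep huniq using hloc
  set V : C0 → Set (Fin (n + s) → ℂ) := fun q1 =>
    {q | xp q ∈ ball (xp q1.1) (ε q1) ∧ ∀ k, ‖bp q k - bp q1.1 k‖ < r q1 / 8} with hV
  have hVo : ∀ q1, IsOpen (V q1) := by
    intro q1
    refine IsOpen.inter (isOpen_ball.preimage (xp_diff n s).continuous) ?_
    have : {q : Fin (n + s) → ℂ | ∀ k, ‖bp q k - bp q1.1 k‖ < r q1 / 8} =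
        ⋂ k, {q | ‖bp q k - bp q1.1 k‖ < r q1 / 8} := by ext q; simp
    change IsOpen {q : Fin (n + s) → ℂ | ∀ k, ‖bp q k - bp q1.1 k‖ < r q1 / 8}
    rw [this]
    refine isOpen_iInter_of_finite fun k => ?_
    exact isOpen_lt (((bp_diff n s k).continuous.sub continuous_const).norm) continuous_const
  have hVm : ∀ q1 : C0, q1.1 ∈ V q1 := by
    intro q1
    refine ⟨mem_ball_self (hε q1), fun k => ?_⟩
    rw [sub_self, norm_zero]
    have := hr q1
    linarith
  obtain ⟨t, ht⟩ := hC0c.elim_finite_subcover V hVo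
    (fun q hq => mem_iUnion.2 ⟨⟨q, hq⟩, hVm ⟨q, hq⟩⟩)
  -- periodicity of the continued points
  have hper0 : ∀ (i : C0), ∀ x ∈ ball (xp i.1) (ε i), ∀ k : Option (Fin s),
      ∃ a : ℂ, a ≠ 0 ∧ (hF (S₀.co x))^[per k] (ch (b i) k x 0) = a • ch (b i) k x 0 := by
    intro i x hx k
    obtain ⟨a, z', ha, hz', he⟩ := hcontr i x hx k 0 (by
      rw [norm_zero]
      cases k with
      | none => exact S₀.hr₀
      | some k => exact hr i)
    rw [norm_zero, mul_zero] at hz'
    have hz0 : z' = 0 := norm_le_zero_iff.1 hz'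
    rw [hz0] at he
    exact ⟨a, ha, he⟩
  -- uniqueness
  have huq : ∀ (i : C0) (q : Fin (n + s) → ℂ), q ∈ V i → ∀ (k : Fin s) (z : ℂ),
      ‖z - bp q k‖ < r i / 2 → cr ((hF (S₀.co (xp q)))^[per (some k)] (z, 1)) (z, 1) = 0 →
      z = b i k (xp q) := by
    intro i q hq k z hz hcr
    refine huniq i (xp q) hq.1 k z ?_ hcr
    have h1 := hq.2 k
    have h2 : z - bp i.1 k = (z - bp q k) + (bp q k - bp i.1 k) := by ring
    rw [h2]
    refine (norm_add_le _ _).trans_lt ?_
    have := hr i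
    linarith
  have hcrb : ∀ (j : C0) (q : Fin (n + s) → ℂ), q ∈ V j → ∀ k : Fin s,
      cr ((hF (S₀.co (xp q)))^[per (some k)] (b j k (xp q), 1)) (b j k (xp q), 1) = 0 := by
    intro j q hq k
    obtain ⟨a, -, he⟩ := hper0 j (xp q) hq.1 (some k)
    have hc : ch (b j) (some k) (xp q) 0 = (b j k (xp q), 1) := by simp [ch]
    rw [hc] at he
    rw [he, cr_smul_left, cr_self, mul_zero]
  have hdist : ∀ (j : C0) (q : Fin (n + s) → ℂ), q ∈ V j → ∀ k : Fin s,
      ‖b j k (xp q) - bp q k‖ < r j / 4 := by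
    intro j q hq k
    have h1 := hq.2 k
    have h2 := hb8 j (xp q) hq.1 k
    have h3 : b j k (xp q) - bp q k = (b j k (xp q) - bp j.1 k) - (bp q k - bp j.1 k) := by ring
    rw [h3]
    refine (norm_sub_le _ _).trans_lt ?_
    linarith
  have hcons : ∀ (i j : C0) (q : Fin (n + s) → ℂ), q ∈ V i → q ∈ V j → ∀ k : Fin s,
      b j k (xp q) = b i k (xp q) := by
    have key : ∀ (i j : C0) (q : Fin (n + s) → ℂ), q ∈ V i → q ∈ V j → r j ≤ r i → ∀ k : Fin s,
        b j k (xp q) = b i k (xp q) := by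
      intro i j q hi hj hij k
      refine huq i q hi k _ ?_ (hcrb j q hj k)
      have h1 := hdist j q hj k
      have := hr i
      linarith
    intro i j q hi hj k
    rcases le_total (r j) (r i) with h | h
    · exact key i j q hi hj h k
    · exact (key j i q hj hi h k).symm
  -- the system
  set U : Set (Fin (n + s) → ℂ) := ⋃ i ∈ t, V i with hU
  have hUmem : ∀ q, q ∈ U ↔ ∃ i ∈ t, q ∈ V i := by
    intro q; simp [hU]
  have hUo : IsOpen U := isOpen_biUnion fun i _ => hVo i
  have hC0U : C0 ⊆ U := ht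
  obtain ⟨i₀, hi₀, hi₀V⟩ := (hUmem q₀).1 (hC0U hq₀C)
  have hne : t.Nonempty := ⟨i₀, hi₀⟩
  set rm : ℝ := t.inf' hne r with hrm
  have hrm0 : 0 < rm := (Finset.lt_inf'_iff hne).2 fun i _ => hr i
  have hrmle : ∀ i ∈ t, rm ≤ r i := fun i hi => Finset.inf'_le r hi
  set θm : ℝ := t.sup' hne θ with hθm
  have hθmle : ∀ i ∈ t, θ i ≤ θm := fun i hi => Finset.le_sup' θ hi
  have hθm0 : 0 ≤ θm := (hθ0 i₀).trans (hθmle i₀ hi₀)
  have hθm1 : θm < 1 := (Finset.sup'_lt_iff hne).2 fun i _ => hθ1 i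
  set B : Fin s → (Fin (n + s) → ℂ) → ℂ := fun k q =>
    if h : ∃ i ∈ t, q ∈ V i then b h.choose k (xp q) else 0 with hB
  have hBeq : ∀ i ∈ t, ∀ q ∈ V i, ∀ k, B k q = b i k (xp q) := by
    intro i hi q hq k
    have h : ∃ i ∈ t, q ∈ V i := ⟨i, hi, hq⟩
    simp only [hB]
    rw [dif_pos h]
    exact hcons i h.choose q hq h.choose_spec.2 k
  have hrad : ∀ i ∈ t, ∀ (k : Option (Fin s)) (z : ℂ), ‖z‖ < (k.elim S₀.r₀ fun _ => rm) →
      ‖z‖ < (k.elim S₀.r₀ fun _ => r i) := by
    intro i hi k z hz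
    cases k with
    | none => exact hz
    | some k => exact lt_of_lt_of_le hz (hrmle i hi)
  let S : Pool.Agent.W757.RC.Sys d (n + s) s :=
    { co := fun q => S₀.co (xp q)
      U := U
      per := per
      b := B
      r₀ := fun k => k.elim S₀.r₀ fun _ => rm
      θ := θm
      hd := S₀.hd
      hU := hUo
      hr₀ := by
        intro k
        cases k with
        | none => exact S₀.hr₀
        | some k => exact hrm0
      hθ0 := hθm0
      hθ := hθm1
      hper := hMk.pp
      hco := by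
        refine S₀.hco.comp (xp_diff n s).differentiableOn ?_
        intro q hq
        obtain ⟨i, hi, hqi⟩ := (hUmem q).1 hq
        exact hball i hqi.1
      hb := by
        intro k q hq
        obtain ⟨i, hi, hqi⟩ := (hUmem q).1 hq
        have h1 : DifferentiableAt ℂ (fun q => b i k (xp q)) q := by
          have h2 := (hbd i k).differentiableAt (isOpen_ball.mem_nhds hqi.1)
          exact h2.comp q (xp_diff n s q)
        refine (h1.congr_of_eventuallyEq ?_).differentiableWithinAt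
        filter_upwards [(hVo i).mem_nhds hqi] with q' hq'
        exact hBeq i hi q' hq' k
      nd := by
        intro q hq
        obtain ⟨i, hi, hqi⟩ := (hUmem q).1 hq
        exact S₀.nd _ (hball i hqi.1)
      contr := by
        intro q hq k z hz
        obtain ⟨i, hi, hqi⟩ := (hUmem q).1 hq
        obtain ⟨a, z', ha, hz', he⟩ := hcontr i (xp q) hqi.1 k z (hrad i hi k z hz)
        have hch : ∀ z, ch B k q z = ch (b i) k (xp q) z := fun z =>
          ch_congr B (b i) q (xp q) (hBeq i hi q hqi) k z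
        refine ⟨a, z', ha, hz'.trans (mul_le_mul_of_nonneg_right (hθmle i hi) (norm_nonneg _)), ?_⟩
        rw [hch, hch]
        exact he
      sep := by
        intro q hq k k' z z' a m hz hz' he
        obtain ⟨i, hi, hqi⟩ := (hUmem q).1 hq
        rw [ch_congr B (b i) q (xp q) (hBeq i hi q hqi) k z,
          ch_congr B (b i) q (xp q) (hBeq i hi q hqi) k' z'] at he
        exact hsep i (xp q) hqi.1 k k' z z' a m (hrad i hi k z hz) (hrad i hi k' z' hz') he }
  have hlamret : ∀ (k : Option (Fin s)) (q : Fin (n + s) → ℂ), (∀ k, S.b k q = bp q k) →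
      S.lam k q = deriv (ret (S₀.co (xp q)) (mp (bp q)) k (per k)) 0 := by
    intro k q h
    have : S.hk k q = ret (S₀.co (xp q)) (mp (bp q)) k (per k) := by
      funext z
      have h1 : ∀ p, loc S.b k q p = loc (mp (bp q)) k () p := fun p =>
        loc_congr S.b (mp (bp q)) q () h k p
      have h2 : S.cht k q z = ch (mp (bp q)) k () z :=
        ch_congr S.b (mp (bp q)) q () h k z
      unfold Pool.Agent.W757.RC.Sys.hk ret
      rw [h1, h2]
      rfl
    unfold Pool.Agent.W757.RC.Sys.lam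
    rw [this]
  have hSb : ∀ q ∈ C0, ∀ k, S.b k q = bp q k := by
    intro q hq k
    obtain ⟨i, hi, hqi⟩ := (hUmem q).1 (hC0U hq)
    change B k q = bp q k
    rw [hBeq i hi q hqi k]
    refine (huq i q hqi k (bp q k) ?_ ?_).symm
    · rw [sub_self, norm_zero]; have := hr i; linarith
    · have := hq.2.1.cyc (some k)
      simpa [ch, mp] using this
  have hlam₀ : ∀ k, S.lam k q₀ = v k := by
    intro k
    rw [hlamret k q₀ (hSb q₀ hq₀C)]
    exact hq₀C.2.2 k
  refine ⟨S, q₀, ?_, rfl, rfl, hC0U hq₀C, hxq₀, fun k => by rw [hbq₀],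
    fun k => by rw [hSb q₀ hq₀C k, hbq₀], ?_⟩
  · refine ⟨?_, fun x _ => rfl, hMk.pn, ?_⟩
    · intro q hq
      obtain ⟨i, hi, hqi⟩ := (hUmem q).1 hq
      exact hball i hqi.1
    · intro q hq
      obtain ⟨i, hi, hqi⟩ := (hUmem q).1 hq
      filter_upwards [(hVo i).mem_nhds hqi] with q' hq' hxx k
      change B k q' = B k q
      rw [hBeq i hi q' hq' k, hBeq i hi q hqi k, hxx]
  · have hset : {q | q ∈ S.U ∧ xp q ∈ closedBall S₀.xT ρb ∧ (∀ k, S.b k q = bp q k) ∧
        ∀ k, S.lam k q = S.lam k q₀} = C0 := by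
      ext q
      constructor
      · rintro ⟨hq, hqb, hbb, hll⟩
        obtain ⟨i, hi, hqi⟩ := (hUmem q).1 hq
        have hch : ∀ (k : Option (Fin s)) z, ch (mp (bp q)) k () z = ch S.b k q z := fun k z =>
          (ch_congr S.b (mp (bp q)) q () hbb k z).symm
        refine ⟨hqb, ⟨hball i hqi.1, hMk.pn, hMk.pp, ?_, ?_, ?_⟩, ?_⟩
        · intro k
          obtain ⟨a, z', ha, hz', he⟩ := S.contr q hq k 0 (by rw [norm_zero]; exact S.hr₀ k)
          rw [norm_zero, mul_zero] at hz'
          have hz0 : z' = 0 := norm_le_zero_iff.1 hz'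
          rw [hz0] at he
          rw [hch]
          change cr ((hF (S.co q))^[S.per k] (ch S.b k q 0)) (ch S.b k q 0) = 0
          rw [he, cr_smul_left, cr_self, mul_zero]
        · intro k
          rw [← hlamret k q hbb, hll k, hlam₀ k]
          exact hMk.mul k
        · intro k k' m hcr
          rw [hch, hch] at hcr
          have hnd : ND (S₀.co (xp q)) := S₀.nd _ (hball i hqi.1)
          obtain ⟨a, -, ha⟩ := (cr_eq_zero_iff (hnd.iter_ne m (ch_ne_zero S.b k q 0))
            (ch_ne_zero S.b k' q 0)).1 hcr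
          exact S.sep q hq k k' 0 0 a m (by rw [norm_zero]; exact S.hr₀ k)
            (by rw [norm_zero]; exact S.hr₀ k') ha
        · intro k
          rw [← hlamret k q hbb, hll k, hlam₀ k]
      · intro hq
        refine ⟨hC0U hq, hq.1, hSb q hq, fun k => ?_⟩
        rw [hlam₀ k, hlamret k q (hSb q hq)]
        exact hq.2.2 k
    rw [hset]
    exact hC0c

end Pool.Agent.W345.RQMARK
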