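import Mathlib
import Pool.Agent.W757.RC.St4

set_option autoImplicit false
set_option linter.style.haveILetI false

open Topology Filter Metric Set MeasureTheory
open Pool.Agent.H790R3.RB (CV hF cr ND wr rt ch loc Ix yx yc yk hF_iter_smul)
open scoped OnePoint

namespace Pool.Agent.W345.RQTRF

open Pool.Agent.W757.RC

/-! ### one system -/

section One

variable {d n s : ℕ} (S : Pool.Agent.W757.RC.Sys d n s)

theorem iter_contr (hLAM : StLAM) {u : Fin n → ℂ} (hu : u ∈ S.U) (k : Option (Fin s)) (j : ℕ)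
    {z : ℂ} (hz : ‖z‖ < S.r₀ k) :
    ‖(S.hk k u)^[j] z‖ ≤ S.θ ^ j * ‖z‖ ∧ ‖(S.hk k u)^[j] z‖ < S.r₀ k ∧ ∃ a : ℂ, a ≠ 0 ∧
      (S.F u)^[S.per k * j] (S.cht k u z) = a • S.cht k u ((S.hk k u)^[j] z) := by
  induction j with
  | zero => exact ⟨by simp, by simpa using hz, 1, one_ne_zero, by simp⟩
  | succ j ih =>
    obtain ⟨h1, h2, a, ha, he⟩ := ih
    obtain ⟨h3, b, hb, he'⟩ := (hLAM d n s S).2.2.2.2.2 k u hu _ h2
    have hle : ‖(S.hk k u)^[j + 1] z‖ ≤ S.θ * ‖(S.hk k u)^[j] z‖ := by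
      rw [Function.iterate_succ_apply']; exact h3
    refine ⟨?_, ?_, a ^ (d ^ S.per k) * b, mul_ne_zero (pow_ne_zero _ ha) hb, ?_⟩
    · refine hle.trans ?_
      rw [pow_succ']
      have := mul_le_mul_of_nonneg_left h1 S.hθ0
      linarith
    · refine lt_of_le_of_lt hle ?_
      have h4 : S.θ * ‖(S.hk k u)^[j] z‖ ≤ 1 * ‖(S.hk k u)^[j] z‖ :=
        mul_le_mul_of_nonneg_right S.hθ.le (norm_nonneg _)
      linarith
    · rw [Nat.mul_succ, add_comm, Function.iterate_add_apply, he]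
      change (hF (S.co u))^[S.per k] _ = _
      rw [hF_iter_smul]
      change a ^ (d ^ S.per k) • (S.F u)^[S.per k] _ = _
      rw [he', smul_smul, Function.iterate_succ_apply']

theorem inC_later (hLAM : StLAM) {u : Fin n → ℂ} (hu : u ∈ S.U) (k : Option (Fin s)) {r : ℝ}
    (hr : 0 < r) {p : ℂ × ℂ} (hp : S.InC k u p) :
    ∃ j : ℕ, ∃ a z : ℂ, a ≠ 0 ∧ ‖z‖ < r ∧ (S.F u)^[S.per k * j] p = a • S.cht k u z := by
  obtain ⟨a, z, ha, hz, rfl⟩ := hp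
  have h1 : Tendsto (fun j : ℕ => S.θ ^ j * ‖z‖) atTop (𝓝 (0 * ‖z‖)) :=
    (tendsto_pow_atTop_nhds_zero_of_lt_one S.hθ0 S.hθ).mul_const _
  rw [zero_mul] at h1
  obtain ⟨j, hj⟩ := (h1.eventually (gt_mem_nhds hr)).exists
  obtain ⟨h2, -, b, hb, he⟩ := iter_contr S hLAM hu k j hz
  refine ⟨j, a ^ (d ^ (S.per k * j)) * b, _, mul_ne_zero (pow_ne_zero _ ha) hb,
    lt_of_le_of_lt h2 hj, ?_⟩
  change (hF (S.co u))^[S.per k * j] _ = _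
  rw [hF_iter_smul]
  change a ^ (d ^ (S.per k * j)) • (S.F u)^[S.per k * j] _ = _
  rw [he, smul_smul]

variable {KK : Option (Fin s) → (Fin n → ℂ) × (ℂ × ℂ) → ℂ}

theorem mem_Dom {u : Fin n → ℂ} (hu : u ∈ S.U) (k : Option (Fin s)) (hl : S.lam k u ≠ 0) {a z : ℂ}
    (ha : a ≠ 0) (hz : ‖z‖ < S.r₀ k) : (u, a • S.cht k u z) ∈ S.Dom k :=
  ⟨hu, hl, 0, a, z, ha, hz, by simp⟩

theorem Dom_iter (hLAM : StLAM) {u : Fin n → ℂ} {k : Option (Fin s)} {p : ℂ × ℂ}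
    (hp : (u, p) ∈ S.Dom k) (N : ℕ) : (u, (S.F u)^[S.per k * N] p) ∈ S.Dom k := by
  obtain ⟨hu, hl, m, hm⟩ := hp
  refine ⟨hu, hl, m, ?_⟩
  obtain ⟨a, z, ha, hz, he⟩ := hm
  simp only at he
  change S.InC k u ((S.F u)^[S.per k * m] ((S.F u)^[S.per k * N] p))
  rw [← Function.iterate_add_apply, add_comm, Function.iterate_add_apply, he]
  obtain ⟨-, h2, b, hb, he'⟩ := iter_contr S hLAM hu k N hz
  refine ⟨a ^ (d ^ (S.per k * N)) * b, _, mul_ne_zero (pow_ne_zero _ ha) hb, h2, ?_⟩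
  change (hF (S.co u))^[S.per k * N] _ = _
  rw [hF_iter_smul]
  change a ^ (d ^ (S.per k * N)) • (S.F u)^[S.per k * N] _ = _
  rw [he', smul_smul]

theorem KK_iter (hLAM : StLAM) (hK : S.Koe KK) {u : Fin n → ℂ} {k : Option (Fin s)} {p : ℂ × ℂ}
    (hp : (u, p) ∈ S.Dom k) (N : ℕ) :
    KK k (u, (S.F u)^[S.per k * N] p) = S.lam k u ^ N * KK k (u, p) := by
  induction N with
  | zero => simp
  | succ N ih =>
    rw [Nat.mul_succ, add_comm, Function.iterate_add_apply,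
      hK.fe k u _ (Dom_iter S hLAM hp N), ih, pow_succ']
    ring

/-- the values on the orbit of the return map -/
theorem phi_iter (hLAM : StLAM) (hK : S.Koe KK) {u : Fin n → ℂ} (hu : u ∈ S.U)
    {k : Option (Fin s)} (hl : S.lam k u ≠ 0) {z : ℂ} (hz : ‖z‖ < S.r₀ k) (j : ℕ) :
    KK k (u, S.cht k u ((S.hk k u)^[j] z)) = S.lam k u ^ j * KK k (u, S.cht k u z) := by
  obtain ⟨-, h2, a, ha, he⟩ := iter_contr S hLAM hu k j hz
  have hm : (u, S.cht k u z) ∈ S.Dom k := by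
    have := mem_Dom S hu k hl one_ne_zero hz
    rwa [one_smul] at this
  have hm' : (u, S.cht k u ((S.hk k u)^[j] z)) ∈ S.Dom k := by
    have := mem_Dom S hu k hl one_ne_zero h2
    rwa [one_smul] at this
  rw [← KK_iter S hLAM hK hm j, he, hK.hom k u _ hm' a ha]

theorem phi_deriv (hK : S.Koe KK) {u : Fin n → ℂ} (hu : u ∈ S.U)
    {k : Option (Fin s)} (hl : S.lam k u ≠ 0) :
    HasDerivAt (fun z => KK k (u, S.cht k u z)) 1 0 := by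
  have h1 := hK.der k u hu hl
  have h2 : DifferentiableAt ℂ (fun z => KK k (u, S.cht k u z)) 0 :=
    differentiableAt_of_deriv_ne_zero (by rw [h1]; exact one_ne_zero)
  rw [← h1]
  exact h2.hasDerivAt

theorem hk_tendsto (hLAM : StLAM) {u : Fin n → ℂ} (hu : u ∈ S.U) (k : Option (Fin s))
    {z : ℂ} (hz : ‖z‖ < S.r₀ k) : Tendsto (fun j : ℕ => (S.hk k u)^[j] z) atTop (𝓝 0) := by
  have h1 : Tendsto (fun j : ℕ => S.θ ^ j * ‖z‖) atTop (𝓝 (0 * ‖z‖)) :=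
    (tendsto_pow_atTop_nhds_zero_of_lt_one S.hθ0 S.hθ).mul_const _
  rw [zero_mul] at h1
  exact squeeze_zero_norm (fun j => (iter_contr S hLAM hu k j hz).1) h1

theorem phi_slope (hLAM : StLAM) (hK : S.Koe KK) {u : Fin n → ℂ} (hu : u ∈ S.U)
    {k : Option (Fin s)} (hl : S.lam k u ≠ 0) {z : ℂ} (hz : ‖z‖ < S.r₀ k)
    (h0 : ∀ j : ℕ, (S.hk k u)^[j] z ≠ 0) :
    Tendsto (fun j : ℕ => ((S.hk k u)^[j] z)⁻¹ * S.lam k u ^ j * KK k (u, S.cht k u z)) atTop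
      (𝓝 1) := by
  have h1 := (hasDerivAt_iff_tendsto_slope.1 (phi_deriv S hK hu hl))
  have h2 : Tendsto (fun j : ℕ => (S.hk k u)^[j] z) atTop (𝓝[≠] 0) :=
    tendsto_nhdsWithin_iff.2 ⟨hk_tendsto S hLAM hu k hz, Eventually.of_forall h0⟩
  refine (h1.comp h2).congr fun j => ?_
  simp only [Function.comp_apply, slope_def_field, sub_zero]
  rw [hK.zer k u hu hl, sub_zero, phi_iter S hLAM hK hu hl hz j]
  ring

end One

/-! ### two systems -/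

variable {d n s : ℕ} {S₁ S₂ : Pool.Agent.W757.RC.Sys d n s}

/-- compatible points of the two systems -/
structure Cmp (S₁ S₂ : Pool.Agent.W757.RC.Sys d n s) (u₁ u₂ : Fin n → ℂ) : Prop where
  m1 : u₁ ∈ S₁.U
  m2 : u₂ ∈ S₂.U
  co : S₁.co u₁ = S₂.co u₂
  b : ∀ k, S₁.b k u₁ = S₂.b k u₂

theorem Cmp.symm {u₁ u₂ : Fin n → ℂ} (h : Cmp S₁ S₂ u₁ u₂) : Cmp S₂ S₁ u₂ u₁ :=
  ⟨h.m2, h.m1, h.co.symm, fun k => (h.b k).symm⟩

theorem Cmp.F_eq {u₁ u₂ : Fin n → ℂ} (h : Cmp S₁ S₂ u₁ u₂) : S₁.F u₁ = S₂.F u₂ := by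
  unfold Pool.Agent.W757.RC.Sys.F
  rw [h.co]

theorem Cmp.cht_eq {u₁ u₂ : Fin n → ℂ} (h : Cmp S₁ S₂ u₁ u₂) (k : Option (Fin s)) (z : ℂ) :
    S₁.cht k u₁ z = S₂.cht k u₂ z := by
  unfold Pool.Agent.W757.RC.Sys.cht
  cases k with
  | none => rfl
  | some k => simp only [ch, h.b k]

theorem Cmp.loc_eq {u₁ u₂ : Fin n → ℂ} (h : Cmp S₁ S₂ u₁ u₂) (k : Option (Fin s)) (p : ℂ × ℂ) :
    loc S₁.b k u₁ p = loc S₂.b k u₂ p := by
  cases k with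
  | none => rfl
  | some k => simp only [loc, h.b k]

theorem Cmp.hk_eq {u₁ u₂ : Fin n → ℂ} (h : Cmp S₁ S₂ u₁ u₂) (hp : S₁.per = S₂.per)
    (k : Option (Fin s)) : S₁.hk k u₁ = S₂.hk k u₂ := by
  funext z
  unfold Pool.Agent.W757.RC.Sys.hk
  rw [h.loc_eq, h.F_eq, h.cht_eq, hp]

theorem Cmp.lam_eq {u₁ u₂ : Fin n → ℂ} (h : Cmp S₁ S₂ u₁ u₂) (hp : S₁.per = S₂.per)
    (k : Option (Fin s)) : S₁.lam k u₁ = S₂.lam k u₂ := by
  unfold Pool.Agent.W757.RC.Sys.lam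
  rw [h.hk_eq hp]

theorem Cmp.bet_eq {u₁ u₂ : Fin n → ℂ} (h : Cmp S₁ S₂ u₁ u₂) (hp : S₁.per = S₂.per) :
    S₁.bet u₁ = S₂.bet u₂ := by
  unfold Pool.Agent.W757.RC.Sys.bet
  rw [h.hk_eq hp]

theorem Cmp.inC (hLAM : StLAM) {u₁ u₂ : Fin n → ℂ} (h : Cmp S₁ S₂ u₁ u₂) (hp : S₁.per = S₂.per)
    {k : Option (Fin s)} {p : ℂ × ℂ} (hk : S₁.InC k u₁ p) :
    ∃ j : ℕ, S₂.InC k u₂ ((S₂.F u₂)^[S₂.per k * j] p) := by
  obtain ⟨j, a, z, ha, hz, he⟩ := inC_later S₁ hLAM h.m1 k (S₂.hr₀ k) hk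
  rw [h.F_eq, hp, h.cht_eq] at he
  exact ⟨j, a, z, ha, hz, he⟩

theorem Cmp.KS_sub (hLAM : StLAM) {u₁ u₂ : Fin n → ℂ} (h : Cmp S₁ S₂ u₁ u₂)
    (hp : S₁.per = S₂.per) : S₂.KS u₂ ⊆ S₁.KS u₁ := by
  intro ζ hζ k m hm
  rw [h.F_eq] at hm
  obtain ⟨j, hj⟩ := h.inC hLAM hp hm
  rw [← Function.iterate_add_apply] at hj
  exact hζ k _ hj

theorem Cmp.Dom_sub (hLAM : StLAM) {u₁ u₂ : Fin n → ℂ} (h : Cmp S₁ S₂ u₁ u₂)
    (hp : S₁.per = S₂.per) {k : Option (Fin s)} {p : ℂ × ℂ} (hd : (u₁, p) ∈ S₁.Dom k) :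
    (u₂, p) ∈ S₂.Dom k := by
  obtain ⟨hu, hl, N, hN⟩ := hd
  refine ⟨h.m2, ?_, ?_⟩
  · change S₂.lam k u₂ ≠ 0
    rw [← h.lam_eq hp]; exact hl
  · change S₁.InC k u₁ ((S₁.F u₁)^[S₁.per k * N] p) at hN
    rw [h.F_eq, hp] at hN
    obtain ⟨j, hj⟩ := h.inC hLAM hp hN
    refine ⟨j + N, ?_⟩
    change S₂.InC k u₂ ((S₂.F u₂)^[S₂.per k * (j + N)] p)
    rw [mul_add, Function.iterate_add_apply]
    exact hj

theorem Cmp.KK_eq (hLAM : StLAM) {KK₁ KK₂ : Option (Fin s) → (Fin n → ℂ) × (ℂ × ℂ) → ℂ}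
    (hK₁ : S₁.Koe KK₁) (hK₂ : S₂.Koe KK₂) {u₁ u₂ : Fin n → ℂ} (h : Cmp S₁ S₂ u₁ u₂)
    (hp : S₁.per = S₂.per) {k : Option (Fin s)} {p : ℂ × ℂ} (hd : (u₁, p) ∈ S₁.Dom k) :
    KK₁ k (u₁, p) = KK₂ k (u₂, p) := by
  have hd₂ := h.Dom_sub hLAM hp hd
  have hl₁ : S₁.lam k u₁ ≠ 0 := hd.2.1
  have hl₂ : S₂.lam k u₂ ≠ 0 := hd₂.2.1
  -- the values on small discs agree
  have hsmall : ∀ z : ℂ, ‖z‖ < min (S₁.r₀ k) (S₂.r₀ k) →
      KK₁ k (u₁, S₁.cht k u₁ z) = KK₂ k (u₂, S₂.cht k u₂ z) := by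
    intro z hz
    have hz₁ := lt_of_lt_of_le hz (min_le_left _ _)
    have hz₂ := lt_of_lt_of_le hz (min_le_right _ _)
    by_cases h0 : ∀ j : ℕ, (S₁.hk k u₁)^[j] z ≠ 0
    · have h0' : ∀ j : ℕ, (S₂.hk k u₂)^[j] z ≠ 0 := by rw [← h.hk_eq hp]; exact h0
      have t1 := phi_slope S₁ hLAM hK₁ h.m1 hl₁ hz₁ h0
      have t2 := phi_slope S₂ hLAM hK₂ h.m2 hl₂ hz₂ h0'
      rw [← h.hk_eq hp, ← h.lam_eq hp] at t2
      have t3 := t1.mul_const (KK₂ k (u₂, S₂.cht k u₂ z))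
      have t4 := t2.mul_const (KK₁ k (u₁, S₁.cht k u₁ z))
      rw [one_mul] at t3 t4
      have t5 := t3.congr (fun j => (by ring :
        ((S₁.hk k u₁)^[j] z)⁻¹ * S₁.lam k u₁ ^ j * KK₁ k (u₁, S₁.cht k u₁ z) *
          KK₂ k (u₂, S₂.cht k u₂ z) =
        ((S₁.hk k u₁)^[j] z)⁻¹ * S₁.lam k u₁ ^ j * KK₂ k (u₂, S₂.cht k u₂ z) *
          KK₁ k (u₁, S₁.cht k u₁ z)))
      exact (tendsto_nhds_unique t5 t4).symm
    · push Not at h0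
      obtain ⟨j, hj⟩ := h0
      have e1 := phi_iter S₁ hLAM hK₁ h.m1 hl₁ hz₁ j
      have e2 := phi_iter S₂ hLAM hK₂ h.m2 hl₂ hz₂ j
      rw [← h.hk_eq hp] at e2
      rw [hj, hK₁.zer k u₁ h.m1 hl₁] at e1
      rw [hj, hK₂.zer k u₂ h.m2 hl₂] at e2
      have e3 := (mul_eq_zero.1 e1.symm).resolve_left (pow_ne_zero _ hl₁)
      have e4 := (mul_eq_zero.1 e2.symm).resolve_left (pow_ne_zero _ hl₂)
      rw [e3, e4]
  obtain ⟨hu, -, N, hN⟩ := hd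
  change S₁.InC k u₁ ((S₁.F u₁)^[S₁.per k * N] p) at hN
  obtain ⟨j, a, z, ha, hz, he⟩ := inC_later S₁ hLAM h.m1 k
    (lt_min (S₁.hr₀ k) (S₂.hr₀ k)) hN
  rw [← Function.iterate_add_apply, ← mul_add] at he
  have hd₁ : (u₁, p) ∈ S₁.Dom k := ⟨hu, hl₁, N, hN⟩
  have e1 := KK_iter S₁ hLAM hK₁ hd₁ (j + N)
  have e2 := KK_iter S₂ hLAM hK₂ hd₂ (j + N)
  have hz₁ := lt_of_lt_of_le hz (min_le_left _ _)
  have hz₂ := lt_of_lt_of_le hz (min_le_right _ _)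
  have hm₁ : (u₁, S₁.cht k u₁ z) ∈ S₁.Dom k := by
    have := mem_Dom S₁ h.m1 k hl₁ one_ne_zero hz₁
    rwa [one_smul] at this
  have hm₂ : (u₂, S₂.cht k u₂ z) ∈ S₂.Dom k := by
    have := mem_Dom S₂ h.m2 k hl₂ one_ne_zero hz₂
    rwa [one_smul] at this
  have he₂ : (S₂.F u₂)^[S₂.per k * (j + N)] p = a • S₂.cht k u₂ z := by
    rw [← h.F_eq, ← hp, ← h.cht_eq]; exact he
  rw [he, hK₁.hom k u₁ _ hm₁ a ha] at e1
  rw [he₂, hK₂.hom k u₂ _ hm₂ a ha, ← h.lam_eq hp] at e2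
  have e3 := hsmall z hz
  rw [e1, e2] at e3
  exact mul_left_cancel₀ (pow_ne_zero _ hl₁) e3

/-! ### extensions -/

theorem xp_add {n s : ℕ} (x y : Fin (n + s) → ℂ) : xp (x + y) = xp x + xp y := rfl

theorem bp_add {n s : ℕ} (x y : Fin (n + s) → ℂ) (k : Fin s) : bp (x + y) k = bp x k + bp y k := rfl

theorem cmp_ext {d n s : ℕ} {S₀ : BS d n} {S₁ S₂ : Pool.Agent.W757.RC.Sys d (n + s) s}
    (h₁ : Ext S₀ S₁) (h₂ : Ext S₀ S₂) {u₁ u₂ : Fin (n + s) → ℂ} (m1 : u₁ ∈ S₁.U)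
    (m2 : u₂ ∈ S₂.U) (hx : xp u₁ = xp u₂) (hb : ∀ k, S₁.b k u₁ = S₂.b k u₂) :
    Cmp S₁ S₂ u₁ u₂ :=
  ⟨m1, m2, by rw [h₁.co u₁ m1, h₂.co u₂ m2, hx], hb⟩

theorem b_unique {d n s : ℕ} {S₀ : BS d n} {S₁ S₂ : Pool.Agent.W757.RC.Sys d (n + s) s}
    (h₁ : Ext S₀ S₁) (h₂ : Ext S₀ S₂) (hp : S₁.per = S₂.per) {u₁ u₂ : Fin (n + s) → ℂ}
    (m1 : u₁ ∈ S₁.U) (m2 : u₂ ∈ S₂.U) (hx : xp u₁ = xp u₂) (k : Fin s)
    (hd : ‖S₂.b k u₂ - S₁.b k u₁‖ < S₁.r₀ (some k)) : S₁.b k u₁ = S₂.b k u₂ := by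
  obtain ⟨a, z', ha, hz', he⟩ := S₁.contr u₁ m1 (some k) (S₂.b k u₂ - S₁.b k u₁) hd
  obtain ⟨a', z'', ha', hz'', he'⟩ := S₂.contr u₂ m2 (some k) 0 (by
    rw [norm_zero]; exact S₂.hr₀ _)
  rw [norm_zero, mul_zero] at hz''
  have hz0 : z'' = 0 := norm_le_zero_iff.1 hz''
  subst hz0
  have e1 : ch S₁.b (some k) u₁ (S₂.b k u₂ - S₁.b k u₁) = ch S₂.b (some k) u₂ 0 := by
    simp only [ch, add_zero, add_sub_cancel]
  rw [e1, h₁.co u₁ m1, hx, ← h₂.co u₂ m2, hp, he'] at he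
  simp only [ch, add_zero] at he
  have e2 := congrArg Prod.snd he
  have e3 := congrArg Prod.fst he
  simp only [Prod.smul_snd, Prod.smul_fst, smul_eq_mul, mul_one] at e2 e3
  rw [e2] at e3
  have e4 : S₂.b k u₂ = S₁.b k u₁ + z' := mul_left_cancel₀ ha e3
  have e5 : z' = S₂.b k u₂ - S₁.b k u₁ := by rw [e4]; ring
  rw [e5] at hz'
  have e6 : ‖S₂.b k u₂ - S₁.b k u₁‖ = 0 := by
    have h1 := S₁.hθ
    have h2 := norm_nonneg (S₂.b k u₂ - S₁.b k u₁)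
    nlinarith
  exact (sub_eq_zero.1 (norm_eq_zero.1 e6)).symm

theorem cmp_near {d n s : ℕ} {S₀ : BS d n} {S₁ S₂ : Pool.Agent.W757.RC.Sys d (n + s) s}
    (h₁ : Ext S₀ S₁) (h₂ : Ext S₀ S₂) (hp : S₁.per = S₂.per) {q₁ q₂ : Fin (n + s) → ℂ}
    (m1 : q₁ ∈ S₁.U) (m2 : q₂ ∈ S₂.U) (hx : xp q₁ = xp q₂) (hb : ∀ k, S₁.b k q₁ = S₂.b k q₂) :
    ∀ᶠ h in 𝓝 (0 : Fin (n + s) → ℂ), Cmp S₁ S₂ (q₁ + h) (q₂ + h) := by
  have t1 : Tendsto (fun h : Fin (n + s) → ℂ => q₁ + h) (𝓝 0) (𝓝 q₁) := by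
    have : Continuous (fun h : Fin (n + s) → ℂ => q₁ + h) := by fun_prop
    have h := this.tendsto 0
    rwa [add_zero] at h
  have t2 : Tendsto (fun h : Fin (n + s) → ℂ => q₂ + h) (𝓝 0) (𝓝 q₂) := by
    have : Continuous (fun h : Fin (n + s) → ℂ => q₂ + h) := by fun_prop
    have h := this.tendsto 0
    rwa [add_zero] at h
  have c1 : ∀ k, Tendsto (fun h => S₁.b k (q₁ + h)) (𝓝 0) (𝓝 (S₁.b k q₁)) := fun k =>
    (((S₁.hb k).differentiableAt (S₁.hU.mem_nhds m1)).continuousAt.tendsto).comp t1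
  have c2 : ∀ k, Tendsto (fun h => S₂.b k (q₂ + h)) (𝓝 0) (𝓝 (S₂.b k q₂)) := fun k =>
    (((S₂.hb k).differentiableAt (S₂.hU.mem_nhds m2)).continuousAt.tendsto).comp t2
  have c3 : ∀ k, ∀ᶠ h in 𝓝 (0 : Fin (n + s) → ℂ),
      ‖S₂.b k (q₂ + h) - S₁.b k (q₁ + h)‖ < S₁.r₀ (some k) := by
    intro k
    have h3 := ((c2 k).sub (c1 k)).norm
    rw [hb k, sub_self, norm_zero] at h3
    exact h3.eventually (gt_mem_nhds (S₁.hr₀ _))
  filter_upwards [t1.eventually (S₁.hU.mem_nhds m1), t2.eventually (S₂.hU.mem_nhds m2),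
    eventually_all.2 c3] with h hh1 hh2 hh3
  have hxx : xp (q₁ + h) = xp (q₂ + h) := by rw [xp_add, xp_add, hx]
  exact cmp_ext h₁ h₂ hh1 hh2 hxx fun k => b_unique h₁ h₂ hp hh1 hh2 hxx k (hh3 k)

/-- derivatives of functions which agree up to a translation and a constant -/
theorem fderiv_eq {ι : Type} [Fintype ι] (f₁ f₂ : (ι → ℂ) → ℂ) (y₁ y₂ : ι → ℂ) (c : ℂ)
    (h : ∀ᶠ h in 𝓝 (0 : ι → ℂ), f₁ (y₁ + h) = f₂ (y₂ + h) + c) :
    fderiv ℂ f₁ y₁ = fderiv ℂ f₂ y₂ := by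
  have e1 : fderiv ℂ (fun h => f₁ (y₁ + h)) 0 = fderiv ℂ f₁ (y₁ + 0) := fderiv_comp_add_left y₁
  have e2 : fderiv ℂ (fun h => f₂ (y₂ + h)) 0 = fderiv ℂ f₂ (y₂ + 0) := fderiv_comp_add_left y₂
  rw [add_zero] at e1 e2
  rw [← e1, ← e2]
  have e3 : (fun h => f₁ (y₁ + h)) =ᶠ[𝓝 0] fun h => f₂ (y₂ + h) + c := h
  rw [e3.fderiv_eq, fderiv_add_const]

theorem task (hLAM : StLAM) (hADO : StADO) : StTRF := by
  intro d n s l S₀ S₁ S₂ h₁ h₂ hp q₁ q₂ m1 m2 hx hb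
  have hcmp : Cmp S₁ S₂ q₁ q₂ := cmp_ext h₁ h₂ m1 m2 hx hb
  refine ⟨Subset.antisymm (hcmp.symm.KS_sub hLAM hp.symm) (hcmp.KS_sub hLAM hp),
    fun k => hcmp.lam_eq hp k, ?_⟩
  intro KK₁ KK₂ e A ks ls R y₁ y₂ he hK₁ hK₂ hy₁ hy₂ hyc hyk hG
  have hnear := cmp_near h₁ h₂ hp m1 m2 hx hb
  -- translation of the unknowns
  have hyx : ∀ (y h : Ix d (n + s) s → ℂ), yx (y + h) = yx y + yx h := fun y h => rfl
  have hyc' : ∀ (y h : Ix d (n + s) s → ℂ) i, yc (y + h) i = yc y i + yc h i := fun y h i => rfl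
  have hyxc : Tendsto (fun h : Ix d (n + s) s → ℂ => yx h) (𝓝 0) (𝓝 0) := by
    have : Continuous (fun h : Ix d (n + s) s → ℂ => yx h) := by
      unfold yx
      fun_prop
    exact this.tendsto 0
  have hnear' : ∀ᶠ h in 𝓝 (0 : Ix d (n + s) s → ℂ), Cmp S₁ S₂ (yx (y₁ + h)) (yx (y₂ + h)) := by
    filter_upwards [hyxc.eventually hnear] with h hh
    rw [hyx, hyx, hy₁, hy₂]
    exact hh
  have hyce : ∀ h i, yc (y₁ + h) i = yc (y₂ + h) i := by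
    intro h i
    rw [hyc', hyc', hyc]
  have hyke : ∀ h k, yk (y₁ + h) k = yk (y₂ + h) k := by
    intro h k
    cases k with
    | none => rfl
    | some k =>
      have h1 := congrFun hyk (some k)
      simp only [yk, Pi.add_apply] at h1 ⊢
      rw [h1]
  obtain ⟨hAdm, sel, col, hdet⟩ := hG
  have hEr : ∀ u₁ u₂, Cmp S₁ S₂ (yx u₁) (yx u₂) → (∀ i, yc u₁ i = yc u₂ i) → ∀ j,
      S₁.Er j u₁ = S₂.Er j u₂ := by
    intro u₁ u₂ hc hyy j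
    unfold Pool.Agent.W757.RC.Sys.Er
    rw [hc.co]
    simp only [hyy]
  have hcmpy : Cmp S₁ S₂ (yx y₁) (yx y₂) := by rw [hy₁, hy₂]; exact hcmp
  -- the attracted critical points stay attracted
  obtain ⟨O, hOo, hOe, -⟩ := hADO d (n + s) s 0 S₁ KK₁ (fun i => i.elim0) A ks ls hK₁
    (fun i => i.elim0)
  have hy₁O : y₁ ∈ O := by
    rw [hOe]
    exact ⟨hAdm.xU, hAdm.lam0, hAdm.att⟩
  have hatt : ∀ᶠ h in 𝓝 (0 : Ix d (n + s) s → ℂ), ∀ i ∈ A,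
      (yx (y₁ + h), (S₁.F (yx (y₁ + h)))^[ls i] (yc (y₁ + h) i, 1)) ∈ S₁.Dom (ks i) := by
    have t1 : Tendsto (fun h : Ix d (n + s) s → ℂ => y₁ + h) (𝓝 0) (𝓝 y₁) := by
      have : Continuous (fun h : Ix d (n + s) s → ℂ => y₁ + h) := by fun_prop
      have h := this.tendsto 0
      rwa [add_zero] at h
    filter_upwards [t1.eventually (hOo.mem_nhds hy₁O)] with h hh
    rw [hOe] at hh
    exact hh.2.2
  refine ⟨⟨?_, ?_, ?_, ?_, ?_, ?_⟩, sel, col, ?_⟩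
  · rw [hy₂]; exact m2
  · intro k
    rw [← hcmpy.lam_eq hp]
    exact hAdm.lam0 k
  · intro k
    rw [← hyk]; exact hAdm.kap0 k
  · intro j
    rw [← hEr y₁ y₂ hcmpy (fun i => by rw [hyc]) j]
    exact hAdm.crit j
  · intro i hi
    rw [← hp]; exact hAdm.lsp i hi
  · intro i hi
    have h1 := hcmpy.Dom_sub hLAM hp (hAdm.att i hi)
    rw [hcmpy.F_eq, hyc] at h1
    exact h1
  · have hM : S₁.Mx KK₁ (ee S₁ e) A ks ls sel col y₁ = S₂.Mx KK₂ (ee S₂ e) A ks ls sel col y₂ := by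
      have f1 : ∀ j, fderiv ℂ (S₁.Er j) y₁ = fderiv ℂ (S₂.Er j) y₂ := by
        intro j
        refine fderiv_eq _ _ y₁ y₂ 0 ?_
        filter_upwards [hnear'] with h hh
        rw [add_zero]
        exact hEr _ _ hh (hyce h) j
      have f2 : ∀ a, fderiv ℂ (S₁.Gr KK₁ (ee S₁ e) A ks ls a) y₁ =
          fderiv ℂ (S₂.Gr KK₂ (ee S₂ e) A ks ls a) y₂ := by
        intro a
        rcases a with i | k | _ | i
        · refine Fin.addCases (fun i => ?_) (fun k => ?_) i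
          · refine fderiv_eq _ _ y₁ y₂ 0 ?_
            filter_upwards with h
            have h1 : xp (yx (y₁ + h)) = xp (yx (y₂ + h)) := by
              rw [hyx, hyx, xp_add, xp_add, hy₁, hy₂, hx]
            simp only [Pool.Agent.W757.RC.Sys.Gr, ee, Fin.addCases_left, add_zero, h1]
          · refine fderiv_eq _ _ y₁ y₂ (bp q₁ k - bp q₂ k) ?_
            filter_upwards [hnear'] with h hh
            have h1 : bp (yx (y₁ + h)) k = bp q₁ k + bp (yx h) k := by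
              rw [hyx, bp_add, hy₁]
            have h2 : bp (yx (y₂ + h)) k = bp q₂ k + bp (yx h) k := by
              rw [hyx, bp_add, hy₂]
            simp only [Pool.Agent.W757.RC.Sys.Gr, ee, Fin.addCases_right]
            rw [h1, h2, hh.b k]
            ring
        · refine fderiv_eq _ _ y₁ y₂ 0 ?_
          filter_upwards [hnear'] with h hh
          simp only [Pool.Agent.W757.RC.Sys.Gr, add_zero]
          exact hh.lam_eq hp k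
        · refine fderiv_eq _ _ y₁ y₂ 0 ?_
          filter_upwards [hnear'] with h hh
          simp only [Pool.Agent.W757.RC.Sys.Gr, add_zero]
          exact hh.bet_eq hp
        · refine fderiv_eq _ _ y₁ y₂ 0 ?_
          filter_upwards [hnear', hatt] with h hh hha
          simp only [Pool.Agent.W757.RC.Sys.Gr, add_zero]
          rw [hh.KK_eq hLAM hK₁ hK₂ hp (hha i.1 i.2), hh.F_eq, hyce, hyke]
      ext a c
      simp only [Pool.Agent.W757.RC.Sys.Mx, Matrix.of_apply]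
      rcases a with j | i
      · simp only [f1]
      · simp only [f2]
    rw [← hM]
    exact hdet

end Pool.Agent.W345.RQTRF
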